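import Pool.Agent.Odp2.Eq.Defs

open scoped ContDiff Topology ENNReal NNReal WithZero
open Set MeasureTheory Filter MvPolynomial Pool.Agent.ODP

namespace Pool.Agent.Odp2

theorem cone_nq_le {n : ℕ} (w : Fin n → ℂ) : nq w ≤ n * ‖w‖ ^ 2 := by
  have h : nq w ≤ ∑ _j : Fin n, ‖w‖ ^ 2 := Finset.sum_le_sum fun j _ => by
    have := norm_le_pi_norm w j
    gcongr
  rwa [Finset.sum_const, Finset.card_univ, Fintype.card_fin, nsmul_eq_mul] at h

theorem cone_finrank (n : ℕ) : Module.finrank ℝ (Fin n → ℂ) = 2 * n := by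
  rw [Module.finrank_pi_fintype]
  simp [Complex.finrank_real_complex, mul_comm]

/-- The integral of `|w|^(-2n)` over a cone diverges. -/
theorem cone_div {n : ℕ} (hn : 1 ≤ n) {θ : Fin n → ℂ} {ε t₀ : ℝ} (hε : 0 < ε)
    (hθ : ε < ‖θ‖ / 2) (ht : 0 < t₀) (C : ℝ≥0) : ∃ η : ℝ, 0 < η ∧ η ≤ 1 ∧
      (C : ℝ≥0∞) < ∫⁻ w in cone θ ε t₀, ENNReal.ofReal ((nq w + η) ^ (-(n : ℝ))) := by
  have hθ0 : 0 < ‖θ‖ := by linarith
  set b : ℝ := 3 / 4 * t₀ with hb
  have hb0 : 0 < b := by positivity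
  -- the balls
  set s : ℕ → ℝ := fun k => (1 / 4) ^ k * b with hs
  have hs0 : ∀ k, 0 < s k := fun k => by positivity
  have hsb : ∀ k, s k ≤ b := fun k => by
    have : (1 / 4 : ℝ) ^ k ≤ 1 := pow_le_one₀ (by norm_num) (by norm_num)
    simp only [hs]
    nlinarith
  set Bk : ℕ → Set (Fin n → ℂ) := fun k => Metric.ball ((s k : ℂ) • θ) (s k * ε) with hBk
  have hmem : ∀ k, ∀ w ∈ Bk k, ∃ v : Fin n → ℂ, ‖v - θ‖ < ε ∧ w = (s k : ℂ) • v := by
    intro k w hw
    have hsk := hs0 k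
    have hsc : (s k : ℂ) ≠ 0 := by exact_mod_cast hsk.ne'
    refine ⟨(s k : ℂ)⁻¹ • w, ?_, by rw [smul_smul, mul_inv_cancel₀ hsc, one_smul]⟩
    rw [Metric.mem_ball, dist_eq_norm] at hw
    have h1 : (s k : ℂ)⁻¹ • w - θ = (s k : ℂ)⁻¹ • (w - (s k : ℂ) • θ) := by
      rw [smul_sub, smul_smul, inv_mul_cancel₀ hsc, one_smul]
    rw [h1, norm_smul, norm_inv, Complex.norm_real, Real.norm_of_nonneg hsk.le,
      inv_mul_lt_iff₀ hsk]
    exact hw
  have hnorm : ∀ k, ∀ w ∈ Bk k, s k * (‖θ‖ / 2) < ‖w‖ ∧ ‖w‖ < s k * (3 / 2 * ‖θ‖) := by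
    intro k w hw
    obtain ⟨v, hv, rfl⟩ := hmem k w hw
    rw [norm_smul, Complex.norm_real, Real.norm_of_nonneg (hs0 k).le]
    have h1 : ‖θ‖ ≤ ‖v‖ + ‖v - θ‖ := by
      calc ‖θ‖ = ‖v - (v - θ)‖ := by congr 1; abel
        _ ≤ _ := norm_sub_le _ _
    have h2 : ‖v‖ ≤ ‖v - θ‖ + ‖θ‖ := by
      calc ‖v‖ = ‖(v - θ) + θ‖ := by congr 1; abel
        _ ≤ _ := norm_add_le _ _
    have hsk := hs0 k
    constructor
    · gcongr; linarith
    · gcongr; linarith
  have hsub : ∀ k, Bk k ⊆ cone θ ε t₀ := by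
    intro k w hw
    obtain ⟨v, hv, rfl⟩ := hmem k w hw
    exact ⟨s k, v, hs0 k, by have := hsb k; rw [hb] at this; linarith, hv, rfl⟩
  have hdisj : ∀ k k', k < k' → Disjoint (Bk k) (Bk k') := by
    intro k k' hkk
    rw [Set.disjoint_left]
    intro w hw hw'
    have h1 := (hnorm k w hw).1
    have h2 := (hnorm k' w hw').2
    have h3 : s k' ≤ 1 / 4 * s k := by
      have h4 : (1 / 4 : ℝ) ^ k' ≤ (1 / 4) ^ (k + 1) :=
        pow_le_pow_of_le_one (by norm_num) (by norm_num) hkk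
      rw [pow_succ] at h4
      simp only [hs]
      nlinarith
    have h4 : s k' * (3 / 2 * ‖θ‖) ≤ 1 / 4 * s k * (3 / 2 * ‖θ‖) := by gcongr
    have h5 : 0 < s k * ‖θ‖ := mul_pos (hs0 k) hθ0
    nlinarith
  -- the constant
  set a : ℝ := n * (b * (3 / 2 * ‖θ‖)) ^ 2 with ha
  have ha0 : 0 ≤ a := by positivity
  set δ : ℝ≥0∞ := ENNReal.ofReal ((a + 1) ^ (-(n : ℝ)) * (b * ε) ^ (2 * n)) *
    volume (Metric.ball (0 : Fin n → ℂ) 1) with hδ
  have hδ0 : δ ≠ 0 := by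
    rw [hδ]
    refine mul_ne_zero ?_ (Metric.measure_ball_pos volume _ one_pos).ne'
    rw [Ne, ENNReal.ofReal_eq_zero, not_le]
    positivity
  obtain ⟨N, hN⟩ := ENNReal.exists_nat_mul_gt hδ0 (ENNReal.coe_ne_top (r := C))
  refine ⟨(1 / 16) ^ N, by positivity, pow_le_one₀ (by norm_num) (by norm_num), ?_⟩
  refine hN.trans_le ?_
  have hint : ∀ k < N, δ ≤ ∫⁻ w in Bk k,
      ENNReal.ofReal ((nq w + (1 / 16) ^ N) ^ (-(n : ℝ))) := by
    intro k hk
    have hlow : ∀ w ∈ Bk k, ENNReal.ofReal (((1 / 16) ^ k * (a + 1)) ^ (-(n : ℝ))) ≤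
        ENNReal.ofReal ((nq w + (1 / 16) ^ N) ^ (-(n : ℝ))) := by
      intro w hw
      refine ENNReal.ofReal_le_ofReal ?_
      have h0 : 0 ≤ nq w := Finset.sum_nonneg fun _ _ => by positivity
      refine Real.rpow_le_rpow_of_nonpos (by positivity) ?_ (by simp)
      have h1 : nq w ≤ (1 / 16) ^ k * a := by
        have h2 := (hnorm k w hw).2
        have h4 : (1 / 16 : ℝ) ^ k = ((1 / 4) ^ k) ^ 2 := by
          rw [← pow_mul, mul_comm, pow_mul]; norm_num
        calc nq w ≤ n * ‖w‖ ^ 2 := cone_nq_le w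
          _ ≤ n * (s k * (3 / 2 * ‖θ‖)) ^ 2 := by gcongr
          _ = (1 / 16) ^ k * a := by
            rw [h4, ha]
            simp only [hs]
            ring
      have h3 : (1 / 16 : ℝ) ^ N ≤ (1 / 16) ^ k :=
        pow_le_pow_of_le_one (by norm_num) (by norm_num) hk.le
      nlinarith
    calc δ = ENNReal.ofReal (((1 / 16) ^ k * (a + 1)) ^ (-(n : ℝ))) * volume (Bk k) := by
          rw [hBk, Measure.addHaar_ball_of_pos volume _ (mul_pos (hs0 k) hε), cone_finrank,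
            ← mul_assoc, ← ENNReal.ofReal_mul (by positivity), hδ]
          congr 2
          have h4 : ((1 / 16 : ℝ) ^ k) ^ (-(n : ℝ)) * ((1 / 4) ^ k) ^ (2 * n) = 1 := by
            have h5 : (1 / 16 : ℝ) ^ k = ((1 / 4) ^ k) ^ 2 := by
              rw [← pow_mul, mul_comm, pow_mul]; norm_num
            rw [h5, Real.rpow_neg (by positivity), Real.rpow_natCast, ← pow_mul]
            exact inv_mul_cancel₀ (by positivity)
          rw [Real.mul_rpow (by positivity) (by positivity)]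
          simp only [hs]
          calc (a + 1) ^ (-(n : ℝ)) * (b * ε) ^ (2 * n)
              = (a + 1) ^ (-(n : ℝ)) * (b * ε) ^ (2 * n) *
                (((1 / 16 : ℝ) ^ k) ^ (-(n : ℝ)) * ((1 / 4) ^ k) ^ (2 * n)) := by
                rw [h4, mul_one]
            _ = _ := by ring
      _ = ∫⁻ _ in Bk k, ENNReal.ofReal (((1 / 16) ^ k * (a + 1)) ^ (-(n : ℝ))) := by
          rw [setLIntegral_const]
      _ ≤ _ := setLIntegral_mono' Metric.isOpen_ball.measurableSet hlow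
  calc (N : ℝ≥0∞) * δ = ∑ _k ∈ Finset.range N, δ := by
        rw [Finset.sum_const, Finset.card_range, nsmul_eq_mul]
    _ ≤ ∑ k ∈ Finset.range N, ∫⁻ w in Bk k,
        ENNReal.ofReal ((nq w + (1 / 16) ^ N) ^ (-(n : ℝ))) :=
        Finset.sum_le_sum fun k hk => hint k (Finset.mem_range.1 hk)
    _ = ∫⁻ w in ⋃ k ∈ Finset.range N, Bk k,
        ENNReal.ofReal ((nq w + (1 / 16) ^ N) ^ (-(n : ℝ))) := by
        rw [lintegral_biUnion_finset]
        · intro k _ k' _ hne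
          rcases lt_or_gt_of_ne hne with h | h
          · exact hdisj k k' h
          · exact (hdisj k' k h).symm
        · exact fun k _ => Metric.isOpen_ball.measurableSet
    _ ≤ _ := lintegral_mono_set (Set.iUnion₂_subset fun k _ => hsub k)

end Pool.Agent.Odp2
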