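import Pool.Agent.Odp2.Main.Defs

/-!
# The equality case: definitions
-/

open scoped ContDiff Topology ENNReal NNReal WithZero
open Set MeasureTheory Filter MvPolynomial Pool.Agent.ODP

namespace Pool.Agent.Odp2

section

variable {n d : ℕ} {B : Type} [CommRing B] [IsDomain B] [Algebra ℂ B]

/-- The standing hypotheses for the equality case. -/
structure Std (G : Germ n d B) (x : Pt B) (h : B) (s κ : ℝ) (sg : B) (m : ℕ) (ρ₁ : ℝ) :
    Prop where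
  hn : 2 ≤ n
  hm : G.D.totalDegree < m
  sep : IsSep G x m sg
  meas : IsMeas G x h s sg ρ₁
  κ_pos : 0 < κ
  klt : sumI G (UU G sg ρ₁) (fun χ => ‖χ h‖ₑ ^ (-(2 * (s + κ)))) ≠ ⊤
  red : IsReductionAt (RingHom.ker x) G.y

/-- The normalized volume is smaller than `2 (n-1)^n`. -/
def Strict (G : Germ n d B) (x : Pt B) (h : B) (s : ℝ) : Prop :=
  nvol G.y h s x < ENNReal.ofReal (2 * ((n : ℝ) - 1) ^ n)

/-- The elements of asymptotic order larger than `t`: `f^M ∈ J_N` for some `N > M t`. -/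
def GT {G : Germ n d B} {x : Pt B} (p : Pts G x) (t : ℕ) : Set B :=
  {f | ∃ M N : ℕ, 1 ≤ M ∧ M * t < N ∧ f ^ M ∈ JI p (one n) N}

end

/-- `f = O(|w|^k)` at `0`. -/
def OrdGe {n : ℕ} (f : (Fin n → ℂ) → ℂ) (k : ℕ) : Prop :=
  ∃ C ρ : ℝ, 0 < ρ ∧ ∀ w, nq w < ρ ^ 2 → ‖f w‖ ≤ C * √(nq w) ^ k

/-- A truncated cone. -/
def cone {n : ℕ} (θ : Fin n → ℂ) (ε t₀ : ℝ) : Set (Fin n → ℂ) :=
  {w | ∃ (t : ℝ) (v : Fin n → ℂ), 0 < t ∧ t < t₀ ∧ ‖v - θ‖ < ε ∧ w = (t : ℂ) • v}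

/-- `s i` are the elementary symmetric functions of the values of `g` on the sheets near `x`, and
`e` is the number of these sheets. -/
structure IsSym {n d : ℕ} {B : Type} [CommRing B] [Algebra ℂ B] (G : Germ n d B) (sg : B) (e : ℕ)
    (ρ : ℝ) (g : B) (s : ℕ → (Fin n → ℂ) → ℂ) : Prop where
  holo : ∀ i, DifferentiableOn ℂ (s i) (bal n ρ)
  zero : ∀ w ∈ bal n ρ, s 0 w = 1
  spec : ∀ w ∈ bal n ρ, eval w G.D ≠ 0 →
    ∃ r : Fin e → Pt B, Function.Injective r ∧ (∀ j, r j ∈ UU G sg ρ ∧ proj G.y (r j) = w) ∧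
      (∀ χ ∈ UU G sg ρ, proj G.y χ = w → ∃ j, r j = χ) ∧
      ∏ j, (Polynomial.X - Polynomial.C (r j g)) =
        ∑ i ∈ Finset.range (e + 1), Polynomial.C ((-1) ^ i * s i w) * Polynomial.X ^ (e - i)

end Pool.Agent.Odp2
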