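import Pool.Agent.Odp2.Eq.Defs

/-!
# The order of vanishing of a holomorphic function at the origin
-/

open scoped ContDiff Topology ENNReal NNReal WithZero
open Set MeasureTheory Filter MvPolynomial Pool.Agent.ODP Metric

namespace Pool.Agent.Odp2

theorem ord57_nq_nonneg {n : ℕ} (w : Fin n → ℂ) : 0 ≤ nq w :=
  Finset.sum_nonneg fun _ _ => sq_nonneg _

theorem ord57_nq_smul {n : ℕ} (t : ℂ) (w : Fin n → ℂ) : nq (t • w) = ‖t‖ ^ 2 * nq w := by
  simp only [nq, Pi.smul_apply, smul_eq_mul, norm_mul, mul_pow, Finset.mul_sum]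

theorem ord57_continuous_nq {n : ℕ} : Continuous (nq : (Fin n → ℂ) → ℝ) := by
  unfold nq
  fun_prop

theorem ord57_isOpen_bal {n : ℕ} (ρ : ℝ) : IsOpen (bal n ρ) :=
  isOpen_lt ord57_continuous_nq continuous_const

theorem ord57_nq_zero {n : ℕ} : nq (0 : Fin n → ℂ) = 0 := by simp [nq]

theorem ord57_norm_sq_le {n : ℕ} (w : Fin n → ℂ) (j : Fin n) : ‖w j‖ ^ 2 ≤ nq w :=
  Finset.single_le_sum (f := fun j => ‖w j‖ ^ 2) (fun _ _ => sq_nonneg _) (Finset.mem_univ j)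

theorem ord57_norm_le {n : ℕ} (w : Fin n → ℂ) : ‖w‖ ≤ √(nq w) := by
  rw [pi_norm_le_iff_of_nonneg (Real.sqrt_nonneg _)]
  intro j
  exact Real.le_sqrt_of_sq_le (ord57_norm_sq_le w j)

theorem ord57_sqrt_smul {n : ℕ} (t : ℂ) (w : Fin n → ℂ) : √(nq (t • w)) = ‖t‖ * √(nq w) := by
  rw [ord57_nq_smul, Real.sqrt_mul (sq_nonneg _), Real.sqrt_sq (norm_nonneg _)]

theorem ord57_convex {n : ℕ} (r : ℝ) : Convex ℝ {w : Fin n → ℂ | nq w < r} := by
  intro x hx y hy a b ha hb hab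
  have h1 : nq (a • x + b • y) ≤ a * nq x + b * nq y := by
    unfold nq
    rw [Finset.mul_sum, Finset.mul_sum, ← Finset.sum_add_distrib]
    refine Finset.sum_le_sum fun j _ => ?_
    have h2 : ‖(a • x + b • y) j‖ ≤ a * ‖x j‖ + b * ‖y j‖ := by
      calc ‖(a • x + b • y) j‖ = ‖a • x j + b • y j‖ := rfl
        _ ≤ ‖a • x j‖ + ‖b • y j‖ := norm_add_le _ _
        _ = _ := by rw [norm_smul, norm_smul, Real.norm_of_nonneg ha, Real.norm_of_nonneg hb]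
    calc ‖(a • x + b • y) j‖ ^ 2 ≤ (a * ‖x j‖ + b * ‖y j‖) ^ 2 := by gcongr
      _ = a * ‖x j‖ ^ 2 + b * ‖y j‖ ^ 2 - a * b * (‖x j‖ - ‖y j‖) ^ 2 := by
        have : b = 1 - a := by linarith
        rw [this]; ring
      _ ≤ _ := by
        have : 0 ≤ a * b * (‖x j‖ - ‖y j‖) ^ 2 := by positivity
        linarith
  refine lt_of_le_of_lt h1 ?_
  have hx' : nq x < r := hx
  have hy' : nq y < r := hy
  rcases ha.eq_or_lt with h | h
  · subst h
    have : b = 1 := by linarith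
    rw [this]; linarith
  · have h3 : a * nq x < a * r := by gcongr
    have h4 : b * nq y ≤ b * r := by gcongr
    calc a * nq x + b * nq y < a * r + b * r := by linarith
      _ = r := by rw [← add_mul, hab, one_mul]

theorem OrdGe.mono {n : ℕ} {f : (Fin n → ℂ) → ℂ} {k l : ℕ} (h : OrdGe f k) (hl : l ≤ k) :
    OrdGe f l := by
  obtain ⟨C, ρ, hρ, h⟩ := h
  refine ⟨|C|, min ρ 1, by positivity, fun w hw => ?_⟩
  have h1 : nq w < ρ ^ 2 := hw.trans_le (by gcongr; exact min_le_left _ _)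
  have h2 : √(nq w) ≤ 1 := by
    rw [Real.sqrt_le_one]
    refine (hw.trans_le ?_).le
    have : min ρ 1 ≤ 1 := min_le_right _ _
    have h0 : 0 ≤ min ρ 1 := by positivity
    nlinarith
  calc ‖f w‖ ≤ C * √(nq w) ^ k := h w h1
    _ ≤ |C| * √(nq w) ^ k := by gcongr; exact le_abs_self C
    _ ≤ |C| * √(nq w) ^ l := by
        gcongr ?_ * ?_
        exact pow_le_pow_of_le_one (Real.sqrt_nonneg _) h2 hl

/-- Division by a power of `t`. -/
theorem ord57_div {k : ℕ} : ∀ {R M C : ℝ} {φ : ℂ → ℂ}, 0 < R →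
    DifferentiableOn ℂ φ (ball 0 R) →
    (∀ t ∈ ball (0 : ℂ) R, ‖φ t‖ ≤ M) → (∀ᶠ t in 𝓝[≠] (0 : ℂ), ‖φ t‖ ≤ C * ‖t‖ ^ k) →
    ∃ h : ℂ → ℂ, DifferentiableOn ℂ h (ball 0 R) ∧ (∀ t ∈ ball (0 : ℂ) R, φ t = t ^ k * h t) ∧
      ∀ t ∈ ball (0 : ℂ) R, ‖h t‖ ≤ M / R ^ k := by
  induction k with
  | zero =>
    intro R M C φ hR hφ hM hC
    exact ⟨φ, hφ, by simp, by simpa using hM⟩
  | succ k ih =>
    intro R M C φ hR hφ hM hC
    have h0 : φ 0 = 0 := by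
      have h1 : Tendsto φ (𝓝[≠] 0) (𝓝 (φ 0)) :=
        ((hφ.continuousOn.continuousAt (ball_mem_nhds _ hR)).tendsto).mono_left
          nhdsWithin_le_nhds
      have h2 : Tendsto (fun t : ℂ => C * ‖t‖ ^ (k + 1)) (𝓝[≠] 0) (𝓝 0) := by
        have : Tendsto (fun t : ℂ => C * ‖t‖ ^ (k + 1)) (𝓝 0) (𝓝 (C * ‖(0 : ℂ)‖ ^ (k + 1))) :=
          (by fun_prop : Continuous fun t : ℂ => C * ‖t‖ ^ (k + 1)).tendsto 0
        simpa using this.mono_left nhdsWithin_le_nhds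
      have h3 : Tendsto φ (𝓝[≠] 0) (𝓝 0) := squeeze_zero_norm' hC h2
      exact tendsto_nhds_unique h1 h3
    have hd : DifferentiableOn ℂ (dslope φ 0) (ball 0 R) :=
      (Complex.differentiableOn_dslope (ball_mem_nhds _ hR)).2 hφ
    have hmaps : MapsTo φ (ball 0 R) (closedBall (φ 0) M) := fun t ht => by
      rw [h0, mem_closedBall_zero_iff]
      exact hM t ht
    obtain ⟨h, h1, h2, h3⟩ := ih (R := R) (M := M / R) (C := C) (φ := dslope φ 0) hR hd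
      (fun t ht => Complex.norm_dslope_le_div_of_mapsTo_ball hφ hmaps ht) (by
        filter_upwards [hC, self_mem_nhdsWithin] with t ht ht0
        have ht0' : t ≠ 0 := ht0
        have hpos : 0 < ‖t‖ := norm_pos_iff.2 ht0'
        rw [dslope_of_ne _ ht0', slope_def_field, h0, sub_zero, sub_zero, norm_div,
          div_le_iff₀ hpos]
        calc ‖φ t‖ ≤ C * ‖t‖ ^ (k + 1) := ht
          _ = C * ‖t‖ ^ k * ‖t‖ := by ring)
    refine ⟨h, h1, fun t ht => ?_, fun t ht => ?_⟩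
    · have h4 := sub_smul_dslope φ 0 t
      rw [h0, sub_zero, sub_zero, h2 t ht, smul_eq_mul] at h4
      rw [← h4]; ring
    · refine (h3 t ht).trans (le_of_eq ?_)
      rw [div_div, pow_succ']

/-- The slices of a holomorphic function. -/
theorem ord57_slice {n : ℕ} {ρ : ℝ} (hρ : 0 < ρ) {f : (Fin n → ℂ) → ℂ}
    (hf : DifferentiableOn ℂ f (bal n ρ)) : ∃ M : ℝ, 0 ≤ M ∧ ∀ v : Fin n → ℂ, nq v ≤ 1 →
      DifferentiableOn ℂ (fun t : ℂ => f (t • v)) (ball 0 (ρ / 2)) ∧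
      ∀ t ∈ ball (0 : ℂ) (ρ / 2), ‖f (t • v)‖ ≤ M := by
  have hK : IsCompact {w : Fin n → ℂ | nq w ≤ (ρ / 2) ^ 2} := by
    refine Metric.isCompact_of_isClosed_isBounded
      (isClosed_le ord57_continuous_nq continuous_const) ?_
    refine (Metric.isBounded_closedBall (x := (0 : Fin n → ℂ)) (r := ρ / 2)).subset
      fun w hw => ?_
    rw [mem_closedBall_zero_iff]
    refine (ord57_norm_le w).trans ?_
    rw [Real.sqrt_le_left (by positivity)]
    exact hw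
  have hsub : {w : Fin n → ℂ | nq w ≤ (ρ / 2) ^ 2} ⊆ bal n ρ := fun w hw => by
    have h1 : nq w ≤ (ρ / 2) ^ 2 := hw
    refine h1.trans_lt ?_
    nlinarith
  obtain ⟨M, hM⟩ := hK.exists_bound_of_continuousOn (hf.continuousOn.mono hsub)
  refine ⟨|M|, abs_nonneg _, fun v hv => ?_⟩
  have hmem : ∀ t ∈ ball (0 : ℂ) (ρ / 2), nq (t • v) ≤ (ρ / 2) ^ 2 := fun t ht => by
    rw [mem_ball_zero_iff] at ht
    rw [ord57_nq_smul]
    calc ‖t‖ ^ 2 * nq v ≤ ‖t‖ ^ 2 * 1 := by gcongr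
      _ ≤ (ρ / 2) ^ 2 := by rw [mul_one]; gcongr
  refine ⟨?_, fun t ht => (hM _ (hmem t ht)).trans (le_abs_self M)⟩
  refine hf.comp (f := fun t : ℂ => t • v) (by fun_prop) fun t ht => hsub (hmem t ht)

/-- The leading form. -/
theorem ord57_lead {n : ℕ} {ρ : ℝ} (hρ : 0 < ρ) {f : (Fin n → ℂ) → ℂ}
    (hf : DifferentiableOn ℂ f (bal n ρ)) {k : ℕ} (hk : OrdGe f k) :
    ∃ (P : (Fin n → ℂ) → ℂ) (C : ℝ), 0 ≤ C ∧ ∀ v, nq v ≤ 1 → ∀ t : ℂ, ‖t‖ < ρ / 2 →
      ‖f (t • v) - t ^ k * P v‖ ≤ C * ‖t‖ ^ (k + 1) := by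
  obtain ⟨M, hM0, hM⟩ := ord57_slice hρ hf
  obtain ⟨C₁, ρ₁, hρ₁, hC₁⟩ := hk
  have key : ∀ v : Fin n → ℂ, ∃ p : ℂ, nq v ≤ 1 → ∀ t : ℂ, ‖t‖ < ρ / 2 →
      ‖f (t • v) - t ^ k * p‖ ≤ (2 * (M / (ρ / 2) ^ k) / (ρ / 2)) * ‖t‖ ^ (k + 1) := by
    intro v
    by_cases hv : nq v ≤ 1
    swap
    · exact ⟨0, fun h => absurd h hv⟩
    have hv' : √(nq v) ≤ 1 := Real.sqrt_le_one.2 hv
    obtain ⟨h, h1, h2, h3⟩ := ord57_div (k := k) (C := |C₁|) (by positivity : 0 < ρ / 2)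
      (hM v hv).1 (hM v hv).2 (by
        have h4 : ∀ᶠ t in 𝓝 (0 : ℂ), ‖t‖ < ρ₁ := by
          have := ball_mem_nhds (0 : ℂ) hρ₁
          filter_upwards [this] with t ht
          simpa using ht
        filter_upwards [nhdsWithin_le_nhds h4] with t ht
        have h5 : nq (t • v) < ρ₁ ^ 2 := by
          rw [ord57_nq_smul]
          calc ‖t‖ ^ 2 * nq v ≤ ‖t‖ ^ 2 * 1 := by gcongr
            _ < ρ₁ ^ 2 := by rw [mul_one]; gcongr
        calc ‖f (t • v)‖ ≤ C₁ * √(nq (t • v)) ^ k := hC₁ _ h5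
          _ ≤ |C₁| * √(nq (t • v)) ^ k := by gcongr; exact le_abs_self C₁
          _ ≤ |C₁| * ‖t‖ ^ k := by
              rw [ord57_sqrt_smul]
              gcongr
              calc ‖t‖ * √(nq v) ≤ ‖t‖ * 1 := by gcongr
                _ = ‖t‖ := mul_one _)
    refine ⟨h 0, fun _ t ht => ?_⟩
    have ht' : t ∈ ball (0 : ℂ) (ρ / 2) := by simpa using ht
    have h00 : (0 : ℂ) ∈ ball (0 : ℂ) (ρ / 2) := by simpa using hρ
    have h6 : MapsTo h (ball 0 (ρ / 2)) (closedBall (h 0) (2 * (M / (ρ / 2) ^ k))) :=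
      fun s hs => by
        rw [mem_closedBall, dist_eq_norm]
        calc ‖h s - h 0‖ ≤ ‖h s‖ + ‖h 0‖ := norm_sub_le _ _
          _ ≤ _ := by linarith [h3 s hs, h3 0 h00]
    have h7 := Complex.dist_le_div_mul_dist_of_mapsTo_ball h1 h6 ht'
    rw [dist_eq_norm, dist_zero_right] at h7
    have h8 : f (t • v) = t ^ k * h t := h2 t ht'
    rw [h8, ← mul_sub, norm_mul, norm_pow]
    calc ‖t‖ ^ k * ‖h t - h 0‖ ≤ ‖t‖ ^ k * (2 * (M / (ρ / 2) ^ k) / (ρ / 2) * ‖t‖) := by gcongr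
      _ = _ := by ring
  choose P hP using key
  exact ⟨P, _, by positivity, fun v hv t ht => hP v hv t ht⟩

theorem ord57_zero {n : ℕ} {ρ : ℝ} (hρ : 0 < ρ) {f : (Fin n → ℂ) → ℂ}
    (hf : DifferentiableOn ℂ f (bal n ρ)) : OrdGe f 0 := by
  obtain ⟨M, hM0, hM⟩ := ord57_slice hρ hf
  refine ⟨M, ρ / 4, by positivity, fun w hw => ?_⟩
  rw [pow_zero, mul_one]
  have h1 : √(nq w) < ρ / 4 := (Real.sqrt_lt' (by positivity)).2 hw
  by_cases h0 : nq w = 0
  · have := (hM w (by rw [h0]; exact zero_le_one)).2 1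
    have hw0 : w = 0 := by
      have h2 := ord57_norm_le w
      rw [h0, Real.sqrt_zero] at h2
      exact norm_le_zero_iff.1 h2
    subst hw0
    simpa using (hM 0 (by rw [ord57_nq_zero]; exact zero_le_one)).2 0 (by simpa using hρ)
  · have hpos : 0 < nq w := lt_of_le_of_ne (ord57_nq_nonneg w) (Ne.symm h0)
    have hs : 0 < √(nq w) := Real.sqrt_pos.2 hpos
    set t : ℂ := ((√(nq w) : ℝ) : ℂ) with ht
    have htn : ‖t‖ = √(nq w) := by rw [ht, Complex.norm_real, Real.norm_of_nonneg hs.le]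
    have ht0 : t ≠ 0 := by rw [← norm_pos_iff, htn]; exact hs
    have h3 : w = t • (t⁻¹ • w) := by rw [smul_smul, mul_inv_cancel₀ ht0, one_smul]
    have h4 : nq (t⁻¹ • w) ≤ 1 := by
      rw [ord57_nq_smul, norm_inv, htn, inv_pow, Real.sq_sqrt hpos.le, inv_mul_cancel₀ h0]
    rw [h3]
    refine (hM _ h4).2 t ?_
    rw [mem_ball_zero_iff, htn]
    linarith

/-- If the leading form is zero the order is larger. -/
theorem ord57_lead_ne {n : ℕ} {ρ : ℝ} (hρ : 0 < ρ) {f P : (Fin n → ℂ) → ℂ} {k : ℕ} {C : ℝ}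
    (hP : ∀ v, nq v ≤ 1 → ∀ t : ℂ, ‖t‖ < ρ / 2 →
      ‖f (t • v) - t ^ k * P v‖ ≤ C * ‖t‖ ^ (k + 1)) (h1 : ¬ OrdGe f (k + 1)) :
    ∃ v, nq v < 1 ∧ P v ≠ 0 := by
  by_contra hcon
  push Not at hcon
  refine h1 ⟨C * 2 ^ (k + 1), ρ / 4, by positivity, fun w hw => ?_⟩
  have h2 : √(nq w) < ρ / 4 := (Real.sqrt_lt' (by positivity)).2 hw
  set t : ℂ := ((2 * √(nq w) : ℝ) : ℂ) with ht
  have hs0 : 0 ≤ √(nq w) := Real.sqrt_nonneg _
  have htn : ‖t‖ = 2 * √(nq w) := by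
    rw [ht, Complex.norm_real, Real.norm_of_nonneg (by positivity)]
  have h5 : ∃ v, w = t • v ∧ nq v < 1 := by
    by_cases h0 : nq w = 0
    · refine ⟨0, ?_, by rw [ord57_nq_zero]; exact one_pos⟩
      have h2 := ord57_norm_le w
      rw [h0, Real.sqrt_zero] at h2
      rw [smul_zero]
      exact norm_le_zero_iff.1 h2
    · have hpos : 0 < nq w := lt_of_le_of_ne (ord57_nq_nonneg w) (Ne.symm h0)
      have hs : 0 < √(nq w) := Real.sqrt_pos.2 hpos
      have ht0 : t ≠ 0 := by rw [← norm_pos_iff, htn]; positivity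
      refine ⟨t⁻¹ • w, by rw [smul_smul, mul_inv_cancel₀ ht0, one_smul], ?_⟩
      rw [ord57_nq_smul, norm_inv, htn, inv_pow, mul_pow, Real.sq_sqrt hpos.le]
      have h6 : (2 ^ 2 * nq w)⁻¹ * nq w = 1 / 4 := by field_simp; norm_num
      rw [h6]; norm_num
  obtain ⟨v, hv, hv1⟩ := h5
  have h7 := hP v hv1.le t (by rw [htn]; linarith)
  rw [hcon v hv1, mul_zero, sub_zero, ← hv, htn] at h7
  calc ‖f w‖ ≤ C * (2 * √(nq w)) ^ (k + 1) := h7
    _ = _ := by rw [mul_pow]; ring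

theorem ord57_bal_mem {n : ℕ} {ρ : ℝ} (hρ : 0 < ρ) {v : Fin n → ℂ} (hv : nq v ≤ 1) {t : ℂ}
    (ht : ‖t‖ < ρ / 2) : t • v ∈ bal n ρ := by
  change nq (t • v) < ρ ^ 2
  rw [ord57_nq_smul]
  have h1 : ‖t‖ ^ 2 * nq v ≤ ‖t‖ ^ 2 * 1 := by gcongr
  have h2 : ‖t‖ ^ 2 ≤ (ρ / 2) ^ 2 := by gcongr
  nlinarith

/-- The leading form does not vanish on a dense set. -/
theorem ord57_dense {n : ℕ} {ρ : ℝ} (hρ : 0 < ρ) {f P : (Fin n → ℂ) → ℂ}
    (hf : DifferentiableOn ℂ f (bal n ρ)) {k : ℕ} {C : ℝ}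
    (hP : ∀ v, nq v ≤ 1 → ∀ t : ℂ, ‖t‖ < ρ / 2 →
      ‖f (t • v) - t ^ k * P v‖ ≤ C * ‖t‖ ^ (k + 1)) {v₁ : Fin n → ℂ} (hv₁ : nq v₁ < 1)
    (hP1 : P v₁ ≠ 0) {θ : Fin n → ℂ} (hθ : nq θ < 1) {ε : ℝ} (hε : 0 < ε) :
    ∃ θ', ‖θ' - θ‖ < ε ∧ nq θ' < 1 ∧ P θ' ≠ 0 := by
  set L : ℂ → (Fin n → ℂ) := fun s => θ + s • (v₁ - θ) with hL
  have hLc : Continuous L := by fun_prop
  set S : Set ℂ := {s | nq (L s) < 1} with hS
  have hSo : IsOpen S := isOpen_lt (ord57_continuous_nq.comp hLc) continuous_const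
  have hSc : IsPreconnected S := by
    refine Convex.isPreconnected ?_
    intro x hx y hy a b ha hb hab
    have h1 := ord57_convex (n := n) 1 (x := L x) hx (y := L y) hy ha hb hab
    have h2 : a • L x + b • L y = L (a • x + b • y) := by
      simp only [hL]
      have h3 : (a • x + b • y) • (v₁ - θ) = a • (x • (v₁ - θ)) + b • (y • (v₁ - θ)) := by
        rw [add_smul, smul_assoc, smul_assoc]
      rw [h3, smul_add, smul_add]
      have h4 : θ = a • θ + b • θ := by rw [← add_smul, hab, one_smul]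
      calc a • θ + a • x • (v₁ - θ) + (b • θ + b • y • (v₁ - θ))
          = (a • θ + b • θ) + (a • x • (v₁ - θ) + b • y • (v₁ - θ)) := by abel
        _ = _ := by rw [← h4]
    rw [h2] at h1
    exact h1
  have h0S : (0 : ℂ) ∈ S := by simpa [hS, hL] using hθ
  have h1S : (1 : ℂ) ∈ S := by simpa [hS, hL] using hv₁
  -- the sequence
  set u : ℕ → ℝ := fun m => (ρ / 4) * (1 / ((m : ℝ) + 1)) with hu
  have hu0 : ∀ m, 0 < u m := fun m => by positivity
  have hu1 : ∀ m, u m < ρ / 2 := fun m => by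
    have : 1 / ((m : ℝ) + 1) ≤ 1 := by
      rw [div_le_one (by positivity)]
      have : (0 : ℝ) ≤ m := Nat.cast_nonneg m
      linarith
    calc u m ≤ ρ / 4 * 1 := by simp only [hu]; gcongr
      _ < ρ / 2 := by linarith
  have hun : ∀ m, ‖((u m : ℝ) : ℂ)‖ = u m := fun m => by
    rw [Complex.norm_real, Real.norm_of_nonneg (hu0 m).le]
  have hulim : Tendsto u atTop (𝓝 0) := by
    have := (tendsto_one_div_add_atTop_nhds_zero_nat (𝕜 := ℝ)).const_mul (ρ / 4)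
    simpa [hu] using this
  have hdiff : DifferentiableOn ℂ (fun s => P (L s)) S := by
    have hlim : TendstoUniformlyOn (fun m s => f (((u m : ℝ) : ℂ) • L s) / ((u m : ℝ) : ℂ) ^ k)
        (fun s => P (L s)) atTop S := by
      rw [Metric.tendstoUniformlyOn_iff]
      intro δ hδ
      have h2 : Tendsto (fun m => C * u m) atTop (𝓝 0) := by
        simpa using hulim.const_mul C
      filter_upwards [h2.eventually (gt_mem_nhds hδ)] with m hm s hs
      have h3 := hP (L s) (le_of_lt hs) ((u m : ℝ) : ℂ) (by rw [hun]; exact hu1 m)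
      rw [hun] at h3
      have hpos : 0 < u m ^ k := pow_pos (hu0 m) k
      have hne : ((u m : ℝ) : ℂ) ^ k ≠ 0 := by
        apply pow_ne_zero
        exact_mod_cast (hu0 m).ne'
      rw [dist_comm, dist_eq_norm]
      have h4 : f (((u m : ℝ) : ℂ) • L s) / ((u m : ℝ) : ℂ) ^ k - P (L s) =
          (f (((u m : ℝ) : ℂ) • L s) - ((u m : ℝ) : ℂ) ^ k * P (L s)) / ((u m : ℝ) : ℂ) ^ k := by
        rw [sub_div, mul_div_cancel_left₀ _ hne]
      rw [h4, norm_div, norm_pow, hun, div_lt_iff₀ hpos]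
      calc _ ≤ C * u m ^ (k + 1) := h3
        _ = C * u m * u m ^ k := by ring
        _ < δ * u m ^ k := by gcongr
    refine hlim.tendstoLocallyUniformlyOn.differentiableOn (Eventually.of_forall fun m => ?_) hSo
    refine DifferentiableOn.div_const ?_ _
    refine hf.comp (f := fun s : ℂ => ((u m : ℝ) : ℂ) • L s) (by fun_prop) fun s hs => ?_
    exact ord57_bal_mem hρ (le_of_lt hs) (by rw [hun]; exact hu1 m)
  have han : AnalyticOnNhd ℂ (fun s => P (L s)) S := hdiff.analyticOnNhd hSo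
  have hfreq : ∃ᶠ s in 𝓝 (0 : ℂ), P (L s) ≠ 0 := by
    intro hcon
    have h2 : (fun s => P (L s)) =ᶠ[𝓝 0] 0 := by
      filter_upwards [hcon] with s hs
      simpa using hs
    have h3 := han.eqOn_zero_of_preconnected_of_eventuallyEq_zero hSc h0S h2 h1S
    apply hP1
    have h4 : L 1 = v₁ := by simp [hL]
    rw [← h4]
    exact h3
  have hev : ∀ᶠ s in 𝓝 (0 : ℂ), s ∈ S ∧ ‖L s - θ‖ < ε := by
    have h0S' : ∀ᶠ s in 𝓝 (0 : ℂ), s ∈ S := hSo.mem_nhds h0S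
    refine h0S'.and ?_
    have h2 : Tendsto (fun s => ‖L s - θ‖) (𝓝 0) (𝓝 ‖L 0 - θ‖) :=
      (by fun_prop : Continuous fun s => ‖L s - θ‖).tendsto 0
    have h3 : ‖L 0 - θ‖ = 0 := by simp [hL]
    rw [h3] at h2
    exact h2.eventually (gt_mem_nhds hε)
  obtain ⟨s, hs1, hs2, hs3⟩ := (hfreq.and_eventually hev).exists
  exact ⟨L s, hs3, hs2, hs1⟩

/-- The lower bound near a direction where the leading form does not vanish. -/
theorem ord57_local {n : ℕ} {ρ : ℝ} (hρ : 0 < ρ) {f P : (Fin n → ℂ) → ℂ}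
    (hf : DifferentiableOn ℂ f (bal n ρ)) {k : ℕ} {C : ℝ} (hC : 0 ≤ C)
    (hP : ∀ v, nq v ≤ 1 → ∀ t : ℂ, ‖t‖ < ρ / 2 →
      ‖f (t • v) - t ^ k * P v‖ ≤ C * ‖t‖ ^ (k + 1)) {θ : Fin n → ℂ} (hθ : nq θ < 1)
    (hPθ : P θ ≠ 0) : ∃ ε t₀ c : ℝ, 0 < ε ∧ 0 < t₀ ∧ 0 < c ∧
      ∀ v, ‖v - θ‖ < ε → nq v < 1 ∧ ∀ t : ℝ, 0 < t → t < t₀ → c * t ^ k ≤ ‖f ((t : ℂ) • v)‖ := by
  set δ : ℝ := ‖P θ‖ / 4 with hδ
  have hδ0 : 0 < δ := by rw [hδ]; exact div_pos (norm_pos_iff.2 hPθ) (by norm_num)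
  set t₁ : ℝ := min (ρ / 4) (δ / (2 * (C + 1))) with ht₁
  have ht0 : 0 < t₁ := by positivity
  have ht1 : t₁ < ρ / 2 := (min_le_left _ _).trans_lt (by linarith)
  have ht2 : C * t₁ ≤ δ / 2 := by
    have h1 : t₁ ≤ δ / (2 * (C + 1)) := min_le_right _ _
    rw [le_div_iff₀ (by positivity)] at h1
    nlinarith
  have htn : ∀ t : ℝ, 0 < t → ‖((t : ℝ) : ℂ)‖ = t := fun t ht => by
    rw [Complex.norm_real, Real.norm_of_nonneg ht.le]
  -- continuity
  have hcont : ContinuousAt (fun v : Fin n → ℂ => f ((t₁ : ℂ) • v)) θ := by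
    have h1 : ContinuousAt f ((t₁ : ℂ) • θ) := by
      refine (hf.continuousOn).continuousAt ((ord57_isOpen_bal ρ).mem_nhds ?_)
      exact ord57_bal_mem hρ hθ.le (by rw [htn _ ht0]; exact ht1)
    exact ContinuousAt.comp (f := fun v : Fin n → ℂ => (t₁ : ℂ) • v) h1
      (by fun_prop : Continuous fun v : Fin n → ℂ => (t₁ : ℂ) • v).continuousAt
  have hpos : 0 < δ * t₁ ^ k := by positivity
  have hev : ∀ᶠ v in 𝓝 θ, nq v < 1 ∧ ‖f ((t₁ : ℂ) • v) - f ((t₁ : ℂ) • θ)‖ < δ * t₁ ^ k := by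
    have h0S' : ∀ᶠ v in 𝓝 θ, nq v < 1 :=
      (isOpen_lt ord57_continuous_nq continuous_const).mem_nhds hθ
    refine h0S'.and ?_
    have := Metric.tendsto_nhds.1 hcont.tendsto _ hpos
    simpa [dist_eq_norm] using this
  obtain ⟨ε, hε, hball⟩ := Metric.eventually_nhds_iff.1 hev
  refine ⟨ε, t₁, δ / 2, hε, ht0, by positivity, fun v hv => ?_⟩
  obtain ⟨hv1, hv2⟩ := hball (by rw [dist_eq_norm]; exact hv)
  refine ⟨hv1, fun t h1 h2 => ?_⟩
  have hPv : δ ≤ ‖P v‖ := by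
    have h3 := hP v hv1.le (t₁ : ℂ) (by rw [htn _ ht0]; exact ht1)
    have h4 := hP θ hθ.le (t₁ : ℂ) (by rw [htn _ ht0]; exact ht1)
    rw [htn _ ht0] at h3 h4
    have h5 : C * t₁ ^ (k + 1) ≤ δ / 2 * t₁ ^ k := by
      calc C * t₁ ^ (k + 1) = C * t₁ * t₁ ^ k := by ring
        _ ≤ _ := by gcongr
    have h6 : ‖(t₁ : ℂ) ^ k * P θ‖ ≤ ‖(t₁ : ℂ) ^ k * P v‖ + 3 * δ * t₁ ^ k := by
      calc ‖(t₁ : ℂ) ^ k * P θ‖ = ‖(t₁ : ℂ) ^ k * P v + (f ((t₁ : ℂ) • v) - (t₁ : ℂ) ^ k * P v)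
            - (f ((t₁ : ℂ) • v) - f ((t₁ : ℂ) • θ))
            - (f ((t₁ : ℂ) • θ) - (t₁ : ℂ) ^ k * P θ)‖ := by congr 1; ring
        _ ≤ ‖(t₁ : ℂ) ^ k * P v‖ + ‖f ((t₁ : ℂ) • v) - (t₁ : ℂ) ^ k * P v‖
            + ‖f ((t₁ : ℂ) • v) - f ((t₁ : ℂ) • θ)‖
            + ‖f ((t₁ : ℂ) • θ) - (t₁ : ℂ) ^ k * P θ‖ := by
          refine (norm_sub_le _ _).trans ?_
          gcongr
          refine (norm_sub_le _ _).trans ?_
          gcongr
          exact norm_add_le _ _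
        _ ≤ _ := by linarith [h3, h4, h5, hv2.le]
    rw [norm_mul, norm_mul, norm_pow, htn _ ht0] at h6
    have h7 : ‖P θ‖ = 4 * δ := by rw [hδ]; ring
    rw [h7] at h6
    have h8 : t₁ ^ k * δ ≤ t₁ ^ k * ‖P v‖ := by linarith
    exact le_of_mul_le_mul_left h8 (pow_pos ht0 k)
  have h3 := hP v hv1.le (t : ℂ) (by rw [htn _ h1]; linarith)
  rw [htn _ h1] at h3
  have h4 : ‖(t : ℂ) ^ k * P v‖ ≤ ‖f ((t : ℂ) • v)‖ + C * t ^ (k + 1) := by
    calc ‖(t : ℂ) ^ k * P v‖ = ‖f ((t : ℂ) • v) - (f ((t : ℂ) • v) - (t : ℂ) ^ k * P v)‖ := by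
          congr 1; ring
      _ ≤ _ := (norm_sub_le _ _).trans (by linarith)
  rw [norm_mul, norm_pow, htn _ h1] at h4
  have h5 : C * t ^ (k + 1) ≤ δ / 2 * t ^ k := by
    calc C * t ^ (k + 1) = C * t * t ^ k := by ring
      _ ≤ C * t₁ * t ^ k := by gcongr
      _ ≤ _ := by gcongr
  have h6 : t ^ k * δ ≤ t ^ k * ‖P v‖ := by gcongr
  linarith

theorem exists_ord {n : ℕ} {ρ : ℝ} (hρ : 0 < ρ) {f : (Fin n → ℂ) → ℂ}
    (hf : DifferentiableOn ℂ f (bal n ρ)) (hne : ∃ w ∈ bal n ρ, f w ≠ 0) :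
    ∃ o, OrdGe f o ∧ ¬ OrdGe f (o + 1) := by
  classical
  by_contra hcon
  push Not at hcon
  have hall : ∀ k, OrdGe f k := by
    intro k
    induction k with
    | zero => exact ord57_zero hρ hf
    | succ k ih => exact hcon k ih
  obtain ⟨w₀, hw₀, hne⟩ := hne
  -- the slice through `w₀`
  set S : Set ℂ := {s | nq (s • w₀) < ρ ^ 2} with hS
  have hSo : IsOpen S := isOpen_lt (ord57_continuous_nq.comp (by fun_prop)) continuous_const
  have hSc : IsPreconnected S := by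
    refine Convex.isPreconnected ?_
    intro x hx y hy a b ha hb hab
    have h1 := ord57_convex (n := n) (ρ ^ 2) (x := x • w₀) hx (y := y • w₀) hy ha hb hab
    have h2 : a • x • w₀ + b • y • w₀ = (a • x + b • y) • w₀ := by
      rw [add_smul, smul_assoc, smul_assoc]
    rw [h2] at h1
    exact h1
  have h0S : (0 : ℂ) ∈ S := by
    change nq ((0 : ℂ) • w₀) < ρ ^ 2
    rw [zero_smul, ord57_nq_zero]
    positivity
  have h1S : (1 : ℂ) ∈ S := by
    change nq ((1 : ℂ) • w₀) < ρ ^ 2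
    rw [one_smul]
    exact hw₀
  have hd : DifferentiableOn ℂ (fun s : ℂ => f (s • w₀)) S :=
    hf.comp (f := fun s : ℂ => s • w₀) (by fun_prop) fun s hs => hs
  have han : AnalyticOnNhd ℂ (fun s : ℂ => f (s • w₀)) S := hd.analyticOnNhd hSo
  obtain ⟨R, hR, hRS⟩ := Metric.isOpen_iff.1 hSo 0 h0S
  -- bound on a smaller disc
  have hcomp : IsCompact (closedBall (0 : ℂ) (R / 2)) := isCompact_closedBall _ _
  obtain ⟨M, hM⟩ := hcomp.exists_bound_of_continuousOn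
    (hd.continuousOn.mono (fun s hs => hRS (by
      rw [mem_closedBall_zero_iff] at hs
      rw [mem_ball_zero_iff]
      linarith)))
  have hzero : (fun s : ℂ => f (s • w₀)) =ᶠ[𝓝 0] 0 := by
    filter_upwards [ball_mem_nhds (0 : ℂ) (by positivity : 0 < R / 4)] with s hs
    rw [mem_ball_zero_iff] at hs
    have hb : ∀ k : ℕ, ‖f (s • w₀)‖ ≤ |M| * (1 / 2) ^ k := by
      intro k
      obtain ⟨C, ρ', hρ', hC⟩ := hall k
      obtain ⟨h, h1, h2, h3⟩ := ord57_div (k := k) (M := |M|) (C := |C| * √(nq w₀) ^ k)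
        (by positivity : 0 < R / 2)
        (hd.mono (fun s hs => hRS (by
          rw [mem_ball_zero_iff] at hs ⊢
          linarith))) (fun t ht => (hM t (ball_subset_closedBall ht)).trans (le_abs_self M)) (by
        have h4 : ∀ᶠ t : ℂ in 𝓝 (0 : ℂ), nq (t • w₀) < ρ' ^ 2 := by
          refine (isOpen_lt (ord57_continuous_nq.comp
            (by fun_prop : Continuous fun t : ℂ => t • w₀)) continuous_const).mem_nhds ?_
          change nq ((0 : ℂ) • w₀) < ρ' ^ 2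
          rw [zero_smul, ord57_nq_zero]
          positivity
        filter_upwards [nhdsWithin_le_nhds h4] with t ht
        calc ‖f (t • w₀)‖ ≤ C * √(nq (t • w₀)) ^ k := hC _ ht
          _ ≤ |C| * √(nq (t • w₀)) ^ k := by gcongr; exact le_abs_self C
          _ = _ := by rw [ord57_sqrt_smul, mul_pow]; ring)
      have hs' : s ∈ ball (0 : ℂ) (R / 2) := by rw [mem_ball_zero_iff]; linarith
      have h5 : f (s • w₀) = s ^ k * h s := h2 s hs'
      rw [h5, norm_mul, norm_pow]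
      calc ‖s‖ ^ k * ‖h s‖ ≤ (R / 4) ^ k * (|M| / (R / 2) ^ k) := by
            gcongr
            exact h3 s hs'
        _ = |M| * ((R / 4) / (R / 2)) ^ k := by rw [div_pow (R / 4)]; ring
        _ = |M| * (1 / 2) ^ k := by
            congr 2
            field_simp
            norm_num
    have hlim : Tendsto (fun k : ℕ => |M| * (1 / 2 : ℝ) ^ k) atTop (𝓝 0) := by
      simpa using (tendsto_pow_atTop_nhds_zero_of_lt_one (by norm_num : (0 : ℝ) ≤ 1 / 2)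
        (by norm_num)).const_mul |M|
    have := ge_of_tendsto' hlim hb
    exact norm_le_zero_iff.1 this
  have h3 := han.eqOn_zero_of_preconnected_of_eventuallyEq_zero hSc h0S hzero h1S
  apply hne
  simpa using h3

/-- The exact order. -/
theorem ord57_exact {n : ℕ} {ρ : ℝ} (hρ : 0 < ρ) {f : (Fin n → ℂ) → ℂ}
    (hf : DifferentiableOn ℂ f (bal n ρ)) {o : ℕ} (ho : ¬ OrdGe f (o + 1)) :
    ∃ k, k ≤ o ∧ OrdGe f k ∧ ¬ OrdGe f (k + 1) := by
  classical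
  have hex : ∃ k, ¬ OrdGe f (k + 1) := ⟨o, ho⟩
  refine ⟨Nat.find hex, Nat.find_min' hex ho, ?_, Nat.find_spec hex⟩
  rcases Nat.eq_zero_or_pos (Nat.find hex) with h | h
  · rw [h]
    exact ord57_zero hρ hf
  · obtain ⟨j, hj⟩ := Nat.exists_eq_succ_of_ne_zero h.ne'
    rw [hj]
    by_contra hcon
    have := Nat.find_min' hex hcon
    omega

/-- A common cone with lower bounds, core form. -/
theorem ord57_cone {n : ℕ} (hn : 1 ≤ n) {ρ : ℝ} (hρ : 0 < ρ) {ι : Type} (T : Finset ι)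
    (f : ι → (Fin n → ℂ) → ℂ) (o : ι → ℕ) (hf : ∀ i ∈ T, DifferentiableOn ℂ (f i) (bal n ρ))
    (ho : ∀ i ∈ T, ¬ OrdGe (f i) (o i + 1)) :
    ∃ (θ : Fin n → ℂ) (ε t₀ c : ℝ), 0 < ε ∧ ε < ‖θ‖ / 2 ∧ 0 < t₀ ∧ 0 < c ∧
      (∀ v, ‖v - θ‖ < ε → nq v < 1) ∧
      ∀ v, ‖v - θ‖ < ε → ∀ t : ℝ, 0 < t → t < t₀ → ∀ i ∈ T, c * t ^ o i ≤ ‖f i ((t : ℂ) • v)‖ := by
  classical
  induction T using Finset.induction_on with
  | empty =>
    set θ : Fin n → ℂ := Pi.single ⟨0, hn⟩ (1 / 2) with hθ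
    have h1 : nq θ = 1 / 4 := by
      unfold nq
      rw [Finset.sum_eq_single (⟨0, hn⟩ : Fin n)]
      · simp [hθ]; norm_num
      · intro j _ hj
        simp [hθ, Pi.single_eq_of_ne hj]
      · intro h; exact absurd (Finset.mem_univ _) h
    have hθ0 : 0 < ‖θ‖ := by
      rw [norm_pos_iff]
      intro h
      rw [h, ord57_nq_zero] at h1
      norm_num at h1
    have hev : ∀ᶠ v in 𝓝 θ, nq v < 1 :=
      (isOpen_lt ord57_continuous_nq continuous_const).mem_nhds (by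
        change nq θ < 1; rw [h1]; norm_num)
    obtain ⟨ε, hε, hball⟩ := Metric.eventually_nhds_iff.1 hev
    refine ⟨θ, min ε (‖θ‖ / 4), 1, 1, by positivity, ?_, one_pos, one_pos, fun v hv => ?_,
      fun v _ t _ _ i hi => absurd hi (Finset.notMem_empty i)⟩
    · exact (min_le_right _ _).trans_lt (by linarith)
    · exact hball (by rw [dist_eq_norm]; exact hv.trans_le (min_le_left _ _))
  | insert a T _ ih =>
    obtain ⟨θ, ε, t₀, c, h1, h2, h3, h4, h5, h6⟩ := ih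
      (fun i hi => hf i (Finset.mem_insert_of_mem hi))
      (fun i hi => ho i (Finset.mem_insert_of_mem hi))
    have hfa := hf a (Finset.mem_insert_self a T)
    obtain ⟨k, hk, hk1, hk2⟩ := ord57_exact hρ hfa (ho a (Finset.mem_insert_self a T))
    obtain ⟨P, C, hC, hP⟩ := ord57_lead hρ hfa hk1
    obtain ⟨v₁, hv₁, hPv₁⟩ := ord57_lead_ne hρ hP hk2
    have hθ1 : nq θ < 1 := h5 θ (by simpa using h1)
    obtain ⟨θ', hd, hq, hPθ⟩ := ord57_dense hρ hfa hP hv₁ hPv₁ hθ1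
      (by positivity : 0 < ε / 4)
    obtain ⟨ε', t₀', c', g1, g2, g3, g4⟩ := ord57_local hρ hfa hC hP hq hPθ
    have hθ'pos : ε < ‖θ'‖ := by
      have : ‖θ‖ ≤ ‖θ'‖ + ‖θ' - θ‖ := by
        calc ‖θ‖ = ‖θ' - (θ' - θ)‖ := by rw [sub_sub_cancel]
          _ ≤ _ := norm_sub_le _ _
      linarith
    have hθ'0 : 0 < ‖θ'‖ := h1.trans hθ'pos
    refine ⟨θ', min ε' (min (ε / 2) (‖θ'‖ / 4)), min 1 (min t₀ t₀'), min c c', by positivity, ?_,
      by positivity, by positivity, fun v hv => ?_, fun v hv t ht ht' i hi => ?_⟩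
    · refine ((min_le_right _ _).trans (min_le_right _ _)).trans_lt ?_
      linarith
    · exact (g4 v (hv.trans_le (min_le_left _ _))).1
    · have t1 : t < 1 := ht'.trans_le (min_le_left _ _)
      have t2 : t < t₀ := ht'.trans_le ((min_le_right _ _).trans (min_le_left _ _))
      have t3 : t < t₀' := ht'.trans_le ((min_le_right _ _).trans (min_le_right _ _))
      rcases Finset.mem_insert.1 hi with rfl | hi
      · have h7 := (g4 v (hv.trans_le (min_le_left _ _))).2 t ht t3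
        refine le_trans ?_ h7
        have h8 : t ^ o i ≤ t ^ k := pow_le_pow_of_le_one ht.le t1.le hk
        have h9 : min c c' ≤ c' := min_le_right _ _
        gcongr
      · have hv' : ‖v - θ‖ < ε := by
          have h7 : ‖v - θ'‖ < ε / 2 :=
            hv.trans_le ((min_le_right _ _).trans (min_le_left _ _))
          calc ‖v - θ‖ = ‖(v - θ') + (θ' - θ)‖ := by congr 1; abel
            _ ≤ ‖v - θ'‖ + ‖θ' - θ‖ := norm_add_le _ _
            _ < ε := by linarith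
        refine le_trans ?_ (h6 v hv' t ht t2 i hi)
        have h9 : min c c' ≤ c := min_le_left _ _
        gcongr

/-- A common cone with lower bounds. -/
theorem exists_cone {n : ℕ} (hn : 1 ≤ n) {ρ : ℝ} (hρ : 0 < ρ) {ι : Type} (T : Finset ι)
    (f : ι → (Fin n → ℂ) → ℂ) (o : ι → ℕ) (hf : ∀ i ∈ T, DifferentiableOn ℂ (f i) (bal n ρ))
    (ho : ∀ i ∈ T, ¬ OrdGe (f i) (o i + 1)) :
    ∃ (θ : Fin n → ℂ) (ε t₀ c : ℝ), 0 < ε ∧ ε < ‖θ‖ / 2 ∧ 0 < t₀ ∧ 0 < c ∧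
      cone θ ε t₀ ⊆ bal n ρ ∧
      ∀ w ∈ cone θ ε t₀, ∀ i ∈ T, c * √(nq w) ^ o i ≤ ‖f i w‖ := by
  obtain ⟨θ, ε, t₀, c, h1, h2, h3, h4, h5, h6⟩ := ord57_cone hn hρ T f o hf ho
  have htn : ∀ t : ℝ, 0 < t → ‖((t : ℝ) : ℂ)‖ = t := fun t ht => by
    rw [Complex.norm_real, Real.norm_of_nonneg ht.le]
  refine ⟨θ, ε, min t₀ ρ, c, h1, h2, by positivity, h4, ?_, ?_⟩
  · rintro w ⟨t, v, ht, ht', hv, rfl⟩
    change nq ((t : ℂ) • v) < ρ ^ 2
    rw [ord57_nq_smul, htn t ht]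
    have hv1 := h5 v hv
    have ht2 : t < ρ := ht'.trans_le (min_le_right _ _)
    calc t ^ 2 * nq v ≤ t ^ 2 * 1 := by gcongr
      _ < ρ ^ 2 := by rw [mul_one]; gcongr
  · rintro w ⟨t, v, ht, ht', hv, rfl⟩ i hi
    refine le_trans ?_ (h6 v hv t ht (ht'.trans_le (min_le_left _ _)) i hi)
    have h7 : √(nq ((t : ℂ) • v)) ≤ t := by
      rw [ord57_sqrt_smul, htn t ht]
      have : √(nq v) ≤ 1 := Real.sqrt_le_one.2 (h5 v hv).le
      calc t * √(nq v) ≤ t * 1 := by gcongr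
        _ = t := mul_one _
    gcongr

theorem not_ordGe_mul {n : ℕ} (hn : 1 ≤ n) {ρ : ℝ} (hρ : 0 < ρ) {f g : (Fin n → ℂ) → ℂ}
    (hf : DifferentiableOn ℂ f (bal n ρ)) (hg : DifferentiableOn ℂ g (bal n ρ)) {a b : ℕ}
    (ha : ¬ OrdGe f (a + 1)) (hb : ¬ OrdGe g (b + 1)) :
    ¬ OrdGe (fun w => f w * g w) (a + b + 1) := by
  classical
  obtain ⟨θ, ε, t₀, c, h1, h2, h3, h4, h5, h6⟩ := exists_cone hn hρ (Finset.univ : Finset Bool)
    (fun i => cond i f g) (fun i => cond i a b) (by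
      intro i _
      cases i
      · exact hg
      · exact hf) (by
      intro i _
      cases i
      · exact hb
      · exact ha)
  rintro ⟨C, ρ', hρ', hC⟩
  have hθ0 : 0 < ‖θ‖ := by linarith
  have hnq : 0 < nq θ := by
    have := ord57_norm_le θ
    have h7 : 0 < √(nq θ) := hθ0.trans_le this
    exact Real.sqrt_pos.1 h7
  have hs : 0 < √(nq θ) := Real.sqrt_pos.2 hnq
  have htn : ∀ t : ℝ, 0 < t → ‖((t : ℝ) : ℂ)‖ = t := fun t ht => by
    rw [Complex.norm_real, Real.norm_of_nonneg ht.le]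
  -- choose `t` small
  set t : ℝ := min (t₀ / 2) (min (ρ' / (2 * √(nq θ))) (c ^ 2 / (2 * (|C| + 1) * √(nq θ))))
    with ht
  have ht0 : 0 < t := by positivity
  have e1 : t < t₀ := (min_le_left _ _).trans_lt (by linarith)
  have e2 : t * √(nq θ) < ρ' := by
    have h7 : t ≤ ρ' / (2 * √(nq θ)) := (min_le_right _ _).trans (min_le_left _ _)
    rw [le_div_iff₀ (by positivity)] at h7
    nlinarith
  have e3 : |C| * (t * √(nq θ)) < c ^ 2 := by
    have h7 : t ≤ c ^ 2 / (2 * (|C| + 1) * √(nq θ)) := (min_le_right _ _).trans (min_le_right _ _)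
    rw [le_div_iff₀ (by positivity)] at h7
    have h8 : 0 < t * √(nq θ) := by positivity
    nlinarith [abs_nonneg C]
  have hw : (t : ℂ) • θ ∈ cone θ ε t₀ := ⟨t, θ, ht0, e1, by simpa using h1, rfl⟩
  have hsq : √(nq ((t : ℂ) • θ)) = t * √(nq θ) := by rw [ord57_sqrt_smul, htn t ht0]
  have k1 := h6 _ hw true (Finset.mem_univ _)
  have k2 := h6 _ hw false (Finset.mem_univ _)
  simp only [cond_true, cond_false] at k1 k2
  have k3 := hC ((t : ℂ) • θ) (by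
    rw [ord57_nq_smul, htn t ht0]
    calc t ^ 2 * nq θ = (t * √(nq θ)) ^ 2 := by rw [mul_pow, Real.sq_sqrt hnq.le]
      _ < ρ' ^ 2 := by gcongr)
  rw [norm_mul] at k3
  rw [hsq] at k1 k2 k3
  set u := t * √(nq θ) with hu
  have hu0 : 0 < u := by positivity
  have k4 : c ^ 2 * u ^ (a + b) ≤ |C| * u * u ^ (a + b) := by
    calc c ^ 2 * u ^ (a + b) = (c * u ^ a) * (c * u ^ b) := by ring
      _ ≤ ‖f ((t : ℂ) • θ)‖ * ‖g ((t : ℂ) • θ)‖ := by gcongr
      _ ≤ C * u ^ (a + b + 1) := k3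
      _ ≤ |C| * u ^ (a + b + 1) := by gcongr; exact le_abs_self C
      _ = _ := by ring
  have k5 := le_of_mul_le_mul_right k4 (by positivity)
  linarith

end Pool.Agent.Odp2
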