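import Pool.Agent.Odp2.Eq.Defs

/-!
# The order of vanishing of a uniform limit
-/

open scoped ContDiff Topology ENNReal NNReal WithZero
open Set MeasureTheory Filter MvPolynomial Pool.Agent.ODP

namespace Pool.Agent.Odp2

/-- The Schwarz lemma for functions vanishing to the order `K`. -/
theorem ordt_schwarz (K : ℕ) : ∀ {g : ℂ → ℂ} {r M C : ℝ}, 0 < r →
    DifferentiableOn ℂ g (Metric.ball 0 r) → (∀ t ∈ Metric.ball (0 : ℂ) r, ‖g t‖ ≤ M) →
    (∀ᶠ t in 𝓝[≠] (0 : ℂ), ‖g t‖ ≤ C * ‖t‖ ^ K) →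
    ∀ t ∈ Metric.ball (0 : ℂ) r, ‖g t‖ ≤ M * (‖t‖ / r) ^ K := by
  induction K with
  | zero =>
    intro g r M C _ _ hM _ t ht
    simpa using hM t ht
  | succ K ih =>
    intro g r M C hr hd hM hC t ht
    have h0 : (0 : ℂ) ∈ Metric.ball (0 : ℂ) r := Metric.mem_ball_self hr
    have hcont : ContinuousAt g 0 := (hd.differentiableAt (Metric.ball_mem_nhds 0 hr)).continuousAt
    have hg0 : g 0 = 0 := by
      have h1 : Tendsto (fun t => ‖g t‖) (𝓝[≠] (0 : ℂ)) (𝓝 ‖g 0‖) :=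
        (hcont.norm).mono_left nhdsWithin_le_nhds
      have h2 : Tendsto (fun t : ℂ => C * ‖t‖ ^ (K + 1)) (𝓝[≠] (0 : ℂ)) (𝓝 0) := by
        have : Continuous fun t : ℂ => C * ‖t‖ ^ (K + 1) := by fun_prop
        have h3 := this.tendsto 0
        simp only [norm_zero, ne_eq, Nat.succ_ne_zero, not_false_eq_true, zero_pow, mul_zero] at h3
        exact h3.mono_left nhdsWithin_le_nhds
      have h3 : ‖g 0‖ ≤ 0 := le_of_tendsto_of_tendsto h1 h2 hC
      exact norm_le_zero_iff.1 h3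
    have hM0 : 0 ≤ M := (norm_nonneg _).trans (hM 0 h0)
    have hds : DifferentiableOn ℂ (dslope g 0) (Metric.ball 0 r) :=
      (Complex.differentiableOn_dslope (Metric.ball_mem_nhds 0 hr)).2 hd
    have hbd : ∀ t ∈ Metric.ball (0 : ℂ) r, ‖dslope g 0 t‖ ≤ M / r := by
      intro t ht
      have h1 : Set.MapsTo g (Metric.ball 0 r) (Metric.closedBall (g 0) M) := by
        intro u hu
        rw [hg0, mem_closedBall_zero_iff]
        exact hM u hu
      exact Complex.norm_dslope_le_div_of_mapsTo_ball hd h1 ht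
    have hC' : ∀ᶠ t in 𝓝[≠] (0 : ℂ), ‖dslope g 0 t‖ ≤ C * ‖t‖ ^ K := by
      filter_upwards [hC, self_mem_nhdsWithin] with t h1 h2
      have h3 : t ≠ 0 := h2
      have h4 : 0 < ‖t‖ := norm_pos_iff.2 h3
      rw [dslope_of_ne _ h3, slope_def_field, hg0, sub_zero, sub_zero, norm_div, div_le_iff₀ h4]
      calc ‖g t‖ ≤ C * ‖t‖ ^ (K + 1) := h1
        _ = C * ‖t‖ ^ K * ‖t‖ := by ring
    have h5 := ih hr hds hbd hC' t ht
    by_cases h6 : t = 0
    · rw [h6, hg0, norm_zero]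
      positivity
    · have h7 : g t = t * dslope g 0 t := by
        rw [dslope_of_ne _ h6, slope_def_field, hg0, sub_zero, sub_zero]
        field_simp
      rw [h7, norm_mul]
      calc ‖t‖ * ‖dslope g 0 t‖ ≤ ‖t‖ * (M / r * (‖t‖ / r) ^ K) := by gcongr
        _ = M * (‖t‖ / r) ^ (K + 1) := by ring

/-- The Schwarz lemma on a ball of `ℂ^n`. -/
theorem ordt_schwarz_n {n : ℕ} {F : (Fin n → ℂ) → ℂ} {q : Fin n → ℂ} {r M : ℝ} (hr : 0 < r)
    (hF : DifferentiableOn ℂ F (Metric.ball q r)) (hM : ∀ w ∈ Metric.ball q r, ‖F w‖ ≤ M)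
    {K : ℕ} {C t : ℝ} (ht : 0 < t) (hK : ∀ w, ‖w - q‖ < t → ‖F w‖ ≤ C * ‖w - q‖ ^ K)
    {w : Fin n → ℂ} (hw : ‖w - q‖ < r) : ‖F w‖ ≤ M * (‖w - q‖ / r) ^ K := by
  by_cases h0 : w = q
  · have h1 := hK w (by rw [h0, sub_self, norm_zero]; exact ht)
    have h2 := hM w (by rw [h0]; exact Metric.mem_ball_self hr)
    rcases Nat.eq_zero_or_pos K with h3 | h3
    · simpa [h3] using h2
    · rw [h0, sub_self, norm_zero, zero_pow h3.ne', mul_zero] at h1
      rw [h0, sub_self, norm_zero, zero_div, zero_pow h3.ne', mul_zero]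
      exact h1
  · have hv : 0 < ‖w - q‖ := norm_pos_iff.2 (sub_ne_zero.2 h0)
    have hr' : 0 < r / ‖w - q‖ := by positivity
    have hmap : ∀ u ∈ Metric.ball (0 : ℂ) (r / ‖w - q‖), q + u • (w - q) ∈ Metric.ball q r := by
      intro u hu
      rw [mem_ball_zero_iff, lt_div_iff₀ hv] at hu
      rw [mem_ball_iff_norm, add_sub_cancel_left, norm_smul]
      exact hu
    have hd : DifferentiableOn ℂ (fun u : ℂ => F (q + u • (w - q)))
        (Metric.ball 0 (r / ‖w - q‖)) := by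
      refine hF.comp ?_ hmap
      fun_prop
    have h1 := ordt_schwarz K (C := C * ‖w - q‖ ^ K) hr' hd (fun u hu => hM _ (hmap u hu)) (by
      have h2 : Metric.ball (0 : ℂ) (t / ‖w - q‖) ∈ 𝓝 (0 : ℂ) :=
        Metric.ball_mem_nhds 0 (by positivity)
      filter_upwards [mem_nhdsWithin_of_mem_nhds h2] with u hu
      rw [mem_ball_zero_iff, lt_div_iff₀ hv] at hu
      have h3 := hK (q + u • (w - q)) (by
        rw [add_sub_cancel_left, norm_smul]
        exact hu)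
      rw [add_sub_cancel_left, norm_smul] at h3
      calc _ ≤ C * (‖u‖ * ‖w - q‖) ^ K := h3
        _ = C * ‖w - q‖ ^ K * ‖u‖ ^ K := by ring) 1 (by
      rw [mem_ball_zero_iff, norm_one, lt_div_iff₀ hv, one_mul]
      exact hw)
    simp only [one_smul, add_sub_cancel, norm_one] at h1
    calc ‖F w‖ ≤ M * (1 / (r / ‖w - q‖)) ^ K := h1
      _ = M * (‖w - q‖ / r) ^ K := by rw [one_div_div]

theorem ordt_norm_le {n : ℕ} (w : Fin n → ℂ) : ‖w‖ ≤ √(nq w) := by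
  refine (pi_norm_le_iff_of_nonneg (Real.sqrt_nonneg _)).2 fun j => ?_
  refine Real.le_sqrt_of_sq_le ?_
  exact Finset.single_le_sum (f := fun j => ‖w j‖ ^ 2) (fun i _ => by positivity)
    (Finset.mem_univ j)

theorem ordt_nq_le {n : ℕ} (w : Fin n → ℂ) : nq w ≤ n * ‖w‖ ^ 2 := by
  unfold nq
  calc ∑ j, ‖w j‖ ^ 2 ≤ ∑ _j : Fin n, ‖w‖ ^ 2 :=
        Finset.sum_le_sum fun j _ => by
          gcongr
          exact norm_le_pi_norm w j
    _ = n * ‖w‖ ^ 2 := by simp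

/-- The order of vanishing of a uniform limit. -/
theorem ordGe_of_tendsto {n : ℕ} {ρ : ℝ} (hρ : 0 < ρ) {l : Filter ℕ} [l.NeBot]
    {F : ℕ → (Fin n → ℂ) → ℂ} {f : (Fin n → ℂ) → ℂ}
    (hF : ∀ᶠ ν in l, DifferentiableOn ℂ (F ν) (bal n ρ)) (hf : DifferentiableOn ℂ f (bal n ρ))
    (hu : TendstoUniformlyOn F f l (bal n ρ)) {q : ℕ → Fin n → ℂ} (hq : Tendsto q l (𝓝 0))
    {K : ℕ} (hK : ∀ᶠ ν in l, ∃ C t : ℝ, 0 < t ∧ ∀ w, ‖w - q ν‖ < t →
      ‖F ν w‖ ≤ C * ‖w - q ν‖ ^ K) : OrdGe f K := by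
  set R : ℝ := ρ / (n + 1) with hR
  have hR0 : 0 < R := by positivity
  have hsub : Metric.closedBall (0 : Fin n → ℂ) R ⊆ bal n ρ := by
    intro w hw
    rw [mem_closedBall_zero_iff] at hw
    show nq w < ρ ^ 2
    have h1 := ordt_nq_le w
    have h2 : ‖w‖ ^ 2 ≤ R ^ 2 := by gcongr
    have h3 : ρ = R * (n + 1) := by rw [hR]; field_simp
    have h4 : (0 : ℝ) ≤ n := Nat.cast_nonneg n
    calc nq w ≤ n * ‖w‖ ^ 2 := h1
      _ ≤ n * R ^ 2 := by gcongr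
      _ < ρ ^ 2 := by
        rw [h3]
        nlinarith [sq_pos_of_pos hR0, mul_nonneg h4 (sq_nonneg R), mul_nonneg (sq_nonneg (n : ℝ)) (sq_nonneg R)]
  obtain ⟨M₀, hM₀⟩ := (isCompact_closedBall (0 : Fin n → ℂ) R).exists_bound_of_continuousOn
    (hf.continuousOn.mono hsub)
  have hr : 0 < R / 2 := by positivity
  refine ⟨(M₀ + 1) / (R / 2) ^ K, R / 2, hr, fun w hw => ?_⟩
  have hw1 : ‖w‖ < R / 2 := by
    refine lt_of_le_of_lt (ordt_norm_le w) ?_
    rw [Real.sqrt_lt' hr]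
    exact hw
  have hqn : Tendsto (fun ν => ‖w - q ν‖) l (𝓝 ‖w‖) := by
    have := (tendsto_const_nhds (x := w)).sub hq
    simpa using this.norm
  have hqz : Tendsto (fun ν => ‖q ν‖) l (𝓝 0) := by simpa using hq.norm
  have hev : ∀ᶠ ν in l, ‖F ν w‖ ≤ (M₀ + 1) * (‖w - q ν‖ / (R / 2)) ^ K := by
    filter_upwards [hF, hK, hqn.eventually (gt_mem_nhds hw1), hqz.eventually (gt_mem_nhds hr),
      Metric.tendstoUniformlyOn_iff.1 hu 1 one_pos] with ν h1 h2 h3 h4 h5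
    obtain ⟨C, t, ht, h6⟩ := h2
    have h7 : Metric.ball (q ν) (R / 2) ⊆ Metric.closedBall (0 : Fin n → ℂ) R := by
      intro u hu'
      rw [mem_ball_iff_norm] at hu'
      rw [mem_closedBall_zero_iff]
      calc ‖u‖ = ‖(u - q ν) + q ν‖ := by rw [sub_add_cancel]
        _ ≤ ‖u - q ν‖ + ‖q ν‖ := norm_add_le _ _
        _ ≤ R := by linarith
    refine ordt_schwarz_n hr (h1.mono (h7.trans hsub)) (fun u hu' => ?_) ht h6 h3
    have h8 := h5 u (hsub (h7 hu'))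
    have h9 := hM₀ u (h7 hu')
    rw [dist_comm, dist_eq_norm] at h8
    calc ‖F ν u‖ = ‖(F ν u - f u) + f u‖ := by rw [sub_add_cancel]
      _ ≤ ‖F ν u - f u‖ + ‖f u‖ := norm_add_le _ _
      _ ≤ M₀ + 1 := by linarith
  have hw2 : w ∈ bal n ρ := hsub (by
    rw [mem_closedBall_zero_iff]
    linarith)
  have hlim : Tendsto (fun ν => ‖F ν w‖) l (𝓝 ‖f w‖) := (hu.tendsto_at hw2).norm
  have hlim2 : Tendsto (fun ν => (M₀ + 1) * (‖w - q ν‖ / (R / 2)) ^ K) l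
      (𝓝 ((M₀ + 1) * (‖w‖ / (R / 2)) ^ K)) := ((hqn.div_const _).pow K).const_mul _
  have h10 := le_of_tendsto_of_tendsto hlim hlim2 hev
  have hM1 : 0 ≤ M₀ := (norm_nonneg _).trans (hM₀ 0 (by
    rw [mem_closedBall_zero_iff, norm_zero]; exact hR0.le))
  calc ‖f w‖ ≤ (M₀ + 1) * (‖w‖ / (R / 2)) ^ K := h10
    _ ≤ (M₀ + 1) * (√(nq w) / (R / 2)) ^ K := by
      gcongr
      exact ordt_norm_le w
    _ = (M₀ + 1) / (R / 2) ^ K * √(nq w) ^ K := by rw [div_pow]; ring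

end Pool.Agent.Odp2
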