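import Pool.Agent.Odp2.Eq.Sym
import Pool.Agent.Odp2.Eq.Ord

/-!
# Independence of `1, z, b`: the trace functions and the `3 × 3` determinant
-/

open scoped ContDiff Topology ENNReal NNReal WithZero
open Set MeasureTheory Filter MvPolynomial Pool.Agent.ODP

namespace Pool.Agent.Odp2

/-- interpolation at finitely many points -/
theorem delta40_interp {e : ℕ} {B : Type} [CommRing B] [Algebra ℂ B] (r : Fin e → Pt B)
    (hr : Function.Injective r) (j₀ : Fin e) :
    ∃ b : B, r j₀ b = 1 ∧ ∀ j, j ≠ j₀ → r j b = 0 := by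
  classical
  have h1 : ∀ j, j ≠ j₀ → ∃ b : B, r j₀ b = 1 ∧ r j b = 0 := by
    intro j hj
    have hne : r j ≠ r j₀ := fun h => hj (hr h)
    obtain ⟨t, ht⟩ := DFunLike.ne_iff.1 hne
    have ht' : r j₀ t - r j t ≠ 0 := sub_ne_zero.2 (Ne.symm ht)
    refine ⟨(t - algebraMap ℂ B (r j t)) * algebraMap ℂ B ((r j₀ t - r j t)⁻¹), ?_, ?_⟩
    · rw [map_mul, map_sub, AlgHom.commutes, AlgHom.commutes]
      simp only [Algebra.algebraMap_self, RingHom.id_apply]
      exact mul_inv_cancel₀ ht'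
    · rw [map_mul, map_sub, AlgHom.commutes]
      simp
  choose! b hb1 hb2 using h1
  refine ⟨∏ j ∈ Finset.univ.erase j₀, b j, ?_, ?_⟩
  · rw [map_prod]
    exact Finset.prod_eq_one fun j hj => hb1 j (Finset.ne_of_mem_erase hj)
  · intro j hj
    rw [map_prod]
    exact Finset.prod_eq_zero (Finset.mem_erase.2 ⟨hj, Finset.mem_univ _⟩) (hb2 j hj)

section

variable {n d : ℕ} {B : Type} [CommRing B] [Algebra ℂ B] {G : Germ n d B} {sg : B} {e : ℕ}
  {ρ : ℝ}

/-- the enumeration in `IsSym.spec` -/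
theorem delta40_enum {g : B} {σ : ℕ → (Fin n → ℂ) → ℂ} (hσ : IsSym G sg e ρ g σ)
    {w : Fin n → ℂ} (hw : w ∈ bal n ρ) (hD : eval w G.D ≠ 0) :
    ∃ r : Fin e → Pt B, symEnum G sg e w r ∧
      ∏ j, (Polynomial.X - Polynomial.C (r j g)) =
        ∑ i ∈ Finset.range (e + 1), Polynomial.C ((-1) ^ i * σ i w) * Polynomial.X ^ (e - i) := by
  obtain ⟨r, h1, h2, h3, h4⟩ := hσ.spec w hw hD
  refine ⟨r, ⟨h1, fun χ => ⟨fun h => ?_, ?_⟩⟩, h4⟩
  · refine h3 χ ⟨?_, h.2⟩ h.1
    rw [h.1]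
    exact hw
  · rintro ⟨j, rfl⟩
    exact ⟨(h2 j).2, (h2 j).1.2⟩

/-- a sum over the sheets does not depend on the enumeration -/
theorem delta40_sum_eq {w : Fin n → ℂ} {r r' : Fin e → Pt B} (hr : symEnum G sg e w r)
    (hr' : symEnum G sg e w r') (F : Pt B → ℂ) : ∑ j, F (r j) = ∑ j, F (r' j) := by
  classical
  have h1 : Finset.univ.image r = Finset.univ.image r' := by
    ext χ
    simp only [Finset.mem_image, Finset.mem_univ, true_and]
    rw [← hr.2 χ, hr'.2 χ]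
  rw [← Finset.sum_image (f := F) (g := r) (s := Finset.univ) (hr.1.injOn),
    ← Finset.sum_image (f := F) (g := r') (s := Finset.univ) (hr'.1.injOn), h1]

/-- the first symmetric function is the sum of the values -/
theorem delta40_sum (he : 1 ≤ e) {g : B} {σ : ℕ → (Fin n → ℂ) → ℂ} (hσ : IsSym G sg e ρ g σ)
    {w : Fin n → ℂ} (hw : w ∈ bal n ρ) (hD : eval w G.D ≠ 0) {r : Fin e → Pt B}
    (hr : symEnum G sg e w r) : σ 1 w = ∑ j, r j g := by
  obtain ⟨r', hr', h4⟩ := delta40_enum hσ hw hD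
  rw [delta40_sum_eq hr hr' fun χ => χ g]
  have h5 := congrArg (fun P => Polynomial.coeff P (e - 1)) h4
  have h6 := Polynomial.prod_X_sub_C_coeff_card_pred (Finset.univ : Finset (Fin e))
    (fun j => r' j g) (by rw [Finset.card_univ, Fintype.card_fin]; exact he)
  rw [Finset.card_univ, Fintype.card_fin] at h6
  rw [h6, Polynomial.finsetSum_coeff] at h5
  have h8 : ∑ b ∈ Finset.range (e + 1),
      (Polynomial.C ((-1) ^ b * σ b w) * Polynomial.X ^ (e - b)).coeff (e - 1) = -σ 1 w := by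
    rw [Finset.sum_eq_single_of_mem 1 (Finset.mem_range.2 (by omega))]
    · rw [Polynomial.coeff_C_mul, Polynomial.coeff_X_pow, if_pos rfl]
      ring
    · intro i hi hi1
      rw [Polynomial.coeff_C_mul, Polynomial.coeff_X_pow, if_neg, mul_zero]
      intro h8
      have := Finset.mem_range.1 hi
      omega
  rw [h8] at h5
  exact (neg_injective h5).symm

/-- a root of the polynomial is bounded by the symmetric functions -/
theorem delta40_root {g : B} {σ : ℕ → (Fin n → ℂ) → ℂ} (hσ : IsSym G sg e ρ g σ)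
    {w : Fin n → ℂ} (hw : w ∈ bal n ρ) (hD : eval w G.D ≠ 0) {r : Fin e → Pt B}
    (hr : symEnum G sg e w r) (j : Fin e) :
    ‖r j g‖ ^ e ≤ ∑ k ∈ Finset.range e, ‖σ (k + 1) w‖ * ‖r j g‖ ^ (e - (k + 1)) := by
  obtain ⟨r', hr', h4⟩ := delta40_enum hσ hw hD
  obtain ⟨j', hj'⟩ := (hr'.2 (r j)).1 ((hr.2 (r j)).2 ⟨j, rfl⟩)
  have h5 := congrArg (fun P => Polynomial.eval (r j g) P) h4
  rw [Polynomial.eval_prod, Finset.prod_eq_zero (Finset.mem_univ j') (by rw [hj']; simp),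
    Polynomial.eval_finsetSum, Finset.sum_range_succ'] at h5
  simp only [Polynomial.eval_mul, Polynomial.eval_C, Polynomial.eval_pow, Polynomial.eval_X,
    pow_zero, one_mul, Nat.sub_zero] at h5
  rw [hσ.zero w hw, one_mul] at h5
  have h6 : (r j g) ^ e =
      -∑ k ∈ Finset.range e, (-1) ^ (k + 1) * σ (k + 1) w * r j g ^ (e - (k + 1)) := by
    linear_combination -h5
  rw [← norm_pow, h6, norm_neg]
  refine (norm_sum_le _ _).trans ?_
  refine Finset.sum_le_sum fun k _ => ?_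
  rw [norm_mul, norm_mul, norm_pow, norm_neg, norm_one, one_pow, one_mul, norm_pow]

/-- Comparison of orders on a cone. -/
theorem delta40_cmp {θ : Fin n → ℂ} {ε t₀ : ℝ} (hε : 0 < ε) (hθ : ε < ‖θ‖ / 2) (ht₀ : 0 < t₀)
    {c C : ℝ} (hc : 0 < c) {a N : ℕ} {ρ' : ℝ} (hρ' : 0 < ρ')
    (hyp : ∀ w ∈ cone θ ε t₀, nq w < ρ' ^ 2 → c * √(nq w) ^ a ≤ C * √(nq w) ^ N) : N ≤ a := by
  by_contra! hN
  have hθ0 : 0 < ‖θ‖ := by linarith
  have hnq : 0 < nq θ := by
    have := ord57_norm_le θ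
    have h7 : 0 < √(nq θ) := hθ0.trans_le this
    exact Real.sqrt_pos.1 h7
  have hs : 0 < √(nq θ) := Real.sqrt_pos.2 hnq
  have htn : ∀ t : ℝ, 0 < t → ‖((t : ℝ) : ℂ)‖ = t := fun t ht => by
    rw [Complex.norm_real, Real.norm_of_nonneg ht.le]
  set t : ℝ := min (t₀ / 2) (min (min 1 ρ' / (2 * √(nq θ))) (c / (2 * (|C| + 1) * √(nq θ))))
    with ht
  have hm1 : 0 < min 1 ρ' := by positivity
  have ht0 : 0 < t := by positivity
  have e1 : t < t₀ := (min_le_left _ _).trans_lt (by linarith)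
  have e2 : t * √(nq θ) < min 1 ρ' := by
    have h7 : t ≤ min 1 ρ' / (2 * √(nq θ)) := (min_le_right _ _).trans (min_le_left _ _)
    rw [le_div_iff₀ (by positivity)] at h7
    nlinarith
  have e3 : |C| * (t * √(nq θ)) < c := by
    have h7 : t ≤ c / (2 * (|C| + 1) * √(nq θ)) := (min_le_right _ _).trans (min_le_right _ _)
    rw [le_div_iff₀ (by positivity)] at h7
    have h8 : 0 < t * √(nq θ) := by positivity
    nlinarith [abs_nonneg C]
  have hw : (t : ℂ) • θ ∈ cone θ ε t₀ := ⟨t, θ, ht0, e1, by simpa using hε, rfl⟩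
  have hsq : √(nq ((t : ℂ) • θ)) = t * √(nq θ) := by rw [ord57_sqrt_smul, htn t ht0]
  have k3 := hyp ((t : ℂ) • θ) hw (by
    rw [ord57_nq_smul, htn t ht0]
    calc t ^ 2 * nq θ = (t * √(nq θ)) ^ 2 := by rw [mul_pow, Real.sq_sqrt hnq.le]
      _ < ρ' ^ 2 := by
        have := e2.trans_le (min_le_right _ _)
        gcongr)
  rw [hsq] at k3
  set u := t * √(nq θ) with hu
  have hu0 : 0 < u := by positivity
  have hu1 : u ≤ 1 := (e2.trans_le (min_le_left _ _)).le
  have k4 : c * u ^ a ≤ |C| * u * u ^ a := by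
    calc c * u ^ a ≤ C * u ^ N := k3
      _ ≤ |C| * u ^ N := by gcongr; exact le_abs_self C
      _ ≤ |C| * u ^ (a + 1) := by
        have := pow_le_pow_of_le_one hu0.le hu1 (Nat.succ_le_of_lt hN)
        gcongr
      _ = _ := by ring
  have k5 := le_of_mul_le_mul_right k4 (by positivity)
  linarith

/-- The `3 × 3` determinant of the traces of `u c_β`, `u = 1, z, f`. -/
def delta40_det (T : B → (Fin n → ℂ) → ℂ) (c : Fin 3 → B) (z f : B) (w : Fin n → ℂ) : ℂ :=
  (T (c 1) w * T (z * c 2) w - T (c 2) w * T (z * c 1) w) * T (f * c 0) w +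
  (T (c 2) w * T (z * c 0) w - T (c 0) w * T (z * c 2) w) * T (f * c 1) w +
  (T (c 0) w * T (z * c 1) w - T (c 1) w * T (z * c 0) w) * T (f * c 2) w

/-- The trace functions. -/
structure delta40_IsTr (G : Germ n d B) (sg : B) (e : ℕ) (ρ : ℝ)
    (T : B → (Fin n → ℂ) → ℂ) : Prop where
  holo : ∀ f, DifferentiableOn ℂ (T f) (bal n ρ)
  spec : ∀ f, ∀ w ∈ bal n ρ, eval w G.D ≠ 0 → ∀ r : Fin e → Pt B, symEnum G sg e w r →
    T f w = ∑ j, r j f

theorem delta40_det_holo {T : B → (Fin n → ℂ) → ℂ} (hT : delta40_IsTr G sg e ρ T)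
    (c : Fin 3 → B) (z f : B) : DifferentiableOn ℂ (delta40_det T c z f) (bal n ρ) := by
  have h1 := fun b => hT.holo b
  unfold delta40_det
  fun_prop (disch := assumption)

/-- row operations -/
theorem delta40_det_lin {T : B → (Fin n → ℂ) → ℂ} (hT : delta40_IsTr G sg e ρ T)
    (c : Fin 3 → B) (z b : B) (a₂ a₁ a₀ : MvPolynomial (Fin n) ℂ) {w : Fin n → ℂ}
    (hw : w ∈ bal n ρ) (hD : eval w G.D ≠ 0) {r : Fin e → Pt B} (hr : symEnum G sg e w r) :
    delta40_det T c z (aeval G.y a₂ * b - aeval G.y a₁ * z - aeval G.y a₀) w =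
      eval w a₂ * delta40_det T c z b w := by
  have h1 : ∀ β, T ((aeval G.y a₂ * b - aeval G.y a₁ * z - aeval G.y a₀) * c β) w =
      eval w a₂ * T (b * c β) w - eval w a₁ * T (z * c β) w - eval w a₀ * T (c β) w := by
    intro β
    rw [hT.spec _ w hw hD r hr, hT.spec _ w hw hD r hr, hT.spec _ w hw hD r hr,
      hT.spec _ w hw hD r hr, Finset.mul_sum, Finset.mul_sum, Finset.mul_sum,
      ← Finset.sum_sub_distrib, ← Finset.sum_sub_distrib]
    refine Finset.sum_congr rfl fun j _ => ?_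
    have h2 : proj G.y (r j) = w := ((hr.2 (r j)).2 ⟨j, rfl⟩).1
    simp only [map_mul, map_sub, bdd_aeval, h2]
    ring
  unfold delta40_det
  rw [h1, h1, h1]
  ring

/-- the determinant is bounded by the values of `f` on the sheets -/
theorem delta40_det_bdd {T : B → (Fin n → ℂ) → ℂ} (hT : delta40_IsTr G sg e ρ T)
    (c : Fin 3 → B) (z : B) : ∃ C : ℝ, 0 ≤ C ∧ ∀ (f : B) (w : Fin n → ℂ), w ∈ bal n ρ →
      eval w G.D ≠ 0 → ∀ r : Fin e → Pt B, symEnum G sg e w r → ∀ M : ℝ,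
      (∀ j, ‖r j f‖ ≤ M) → ‖delta40_det T c z f w‖ ≤ C * M := by
  choose Cb hCb using fun b : B => G.bdd b (ρ ^ 2)
  have hb : ∀ b : B, ∀ w ∈ bal n ρ, ∀ r : Fin e → Pt B, symEnum G sg e w r → ∀ j,
      ‖r j b‖ ≤ |Cb b| := by
    intro b w hw r hr j
    have h2 : proj G.y (r j) = w := ((hr.2 (r j)).2 ⟨j, rfl⟩).1
    exact (hCb b (r j) (by rw [h2]; exact le_of_lt hw)).trans (le_abs_self _)
  have hTb : ∀ b : B, ∀ w ∈ bal n ρ, eval w G.D ≠ 0 → ∀ r : Fin e → Pt B, symEnum G sg e w r →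
      ‖T b w‖ ≤ e * |Cb b| := by
    intro b w hw hD r hr
    rw [hT.spec b w hw hD r hr]
    refine (norm_sum_le _ _).trans ?_
    refine (Finset.sum_le_card_nsmul _ _ _ fun j _ => hb b w hw r hr j).trans ?_
    rw [Finset.card_univ, Fintype.card_fin, nsmul_eq_mul]
  have hTf : ∀ (β : Fin 3) (f : B), ∀ w ∈ bal n ρ, eval w G.D ≠ 0 → ∀ r : Fin e → Pt B,
      symEnum G sg e w r → ∀ M : ℝ, (∀ j, ‖r j f‖ ≤ M) →
      ‖T (f * c β) w‖ ≤ e * |Cb (c β)| * M := by
    intro β f w hw hD r hr M hM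
    rw [hT.spec _ w hw hD r hr]
    refine (norm_sum_le _ _).trans ?_
    have h3 : ∀ j ∈ (Finset.univ : Finset (Fin e)), ‖r j (f * c β)‖ ≤ |Cb (c β)| * M := by
      intro j _
      rw [map_mul, norm_mul, mul_comm]
      exact mul_le_mul (hb _ w hw r hr j) (hM j) (norm_nonneg _) (abs_nonneg _)
    refine (Finset.sum_le_card_nsmul _ _ _ h3).trans ?_
    rw [Finset.card_univ, Fintype.card_fin, nsmul_eq_mul, mul_assoc]
  set K : ℝ := ∑ β : Fin 3, (e * |Cb (c β)| + e * |Cb (z * c β)|) with hK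
  have hK0 : 0 ≤ K := Finset.sum_nonneg fun β _ => by positivity
  have hKβ : ∀ β, e * |Cb (c β)| + e * |Cb (z * c β)| ≤ K := fun β =>
    Finset.single_le_sum (f := fun β : Fin 3 => (e * |Cb (c β)| + e * |Cb (z * c β)|))
      (fun β _ => by positivity) (Finset.mem_univ β)
  have hK1 : ∀ β, e * |Cb (c β)| ≤ K := fun β =>
    le_trans (le_add_of_nonneg_right (by positivity)) (hKβ β)
  have hK2 : ∀ β, e * |Cb (z * c β)| ≤ K := fun β =>
    le_trans (le_add_of_nonneg_left (by positivity)) (hKβ β)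
  refine ⟨6 * K ^ 3, by positivity, fun f w hw hD r hr M hM => ?_⟩
  have hc : ∀ β, ‖T (c β) w‖ ≤ K := fun β => (hTb _ w hw hD r hr).trans (hK1 β)
  have hz : ∀ β, ‖T (z * c β) w‖ ≤ K := fun β => (hTb _ w hw hD r hr).trans (hK2 β)
  rcases Nat.eq_zero_or_pos e with he | he
  · subst he
    have h4 : ∀ b, T b w = 0 := fun b => by rw [hT.spec b w hw hD r hr]; simp
    unfold delta40_det
    simp only [h4]
    have : K = 0 := by rw [hK]; simp
    rw [this]
    simp
  have hM0 : 0 ≤ M := (norm_nonneg _).trans (hM ⟨0, he⟩)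
  have hf : ∀ β, ‖T (f * c β) w‖ ≤ K * M := fun β =>
    (hTf β f w hw hD r hr M hM).trans (mul_le_mul_of_nonneg_right (hK1 β) hM0)
  have hterm : ∀ α β γ : Fin 3,
      ‖(T (c α) w * T (z * c β) w - T (c β) w * T (z * c α) w) * T (f * c γ) w‖ ≤
        2 * K ^ 3 * M := by
    intro α β γ
    rw [norm_mul]
    have h5 : ‖T (c α) w * T (z * c β) w - T (c β) w * T (z * c α) w‖ ≤ K * K + K * K := by
      refine (norm_sub_le _ _).trans (add_le_add ?_ ?_)
      · rw [norm_mul]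
        exact mul_le_mul (hc α) (hz β) (norm_nonneg _) hK0
      · rw [norm_mul]
        exact mul_le_mul (hc β) (hz α) (norm_nonneg _) hK0
    calc _ ≤ (K * K + K * K) * (K * M) :=
          mul_le_mul h5 (hf γ) (norm_nonneg _) (by positivity)
      _ = _ := by ring
  unfold delta40_det
  refine (norm_add_le _ _).trans ((add_le_add (norm_add_le _ _) le_rfl).trans ?_)
  calc _ ≤ 2 * K ^ 3 * M + 2 * K ^ 3 * M + 2 * K ^ 3 * M :=
        add_le_add (add_le_add (hterm 1 2 0) (hterm 2 0 1)) (hterm 0 1 2)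
    _ = _ := by ring

/-- the determinant at a point where it is not zero -/
theorem delta40_det_ne {T : B → (Fin n → ℂ) → ℂ} (hT : delta40_IsTr G sg e ρ T) {z : B}
    {w : Fin n → ℂ} (hw : w ∈ bal n ρ) (hD : eval w G.D ≠ 0) {r : Fin e → Pt B}
    (hr : symEnum G sg e w r) {j₀ j₁ j₂ : Fin e} (h02 : j₀ ≠ j₂) (h12 : j₁ ≠ j₂)
    (hz : r j₀ z ≠ r j₁ z) : ∃ (c : Fin 3 → B) (b : B), delta40_det T c z b w ≠ 0 := by
  choose δ hδ1 hδ2 using fun j => delta40_interp r hr.1 j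
  refine ⟨![δ j₀, δ j₁, δ j₂], δ j₂, ?_⟩
  have h1 : ∀ (f : B) (j : Fin e), T (f * δ j) w = r j f := by
    intro f j
    rw [hT.spec _ w hw hD r hr, Finset.sum_eq_single j]
    · rw [map_mul, hδ1 j, mul_one]
    · intro k _ hk
      rw [map_mul, hδ2 j k hk, mul_zero]
    · intro h
      exact absurd (Finset.mem_univ j) h
  have h2 : ∀ j : Fin e, T (δ j) w = 1 := by
    intro j
    have := h1 1 j
    rwa [one_mul, map_one] at this
  unfold delta40_det
  simp only [Matrix.cons_val_zero, Matrix.cons_val_one, Matrix.cons_val, h1, h2]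
  rw [hδ2 j₂ j₀ h02, hδ2 j₂ j₁ h12, hδ1 j₂]
  simp only [one_mul, mul_zero, zero_add, mul_one]
  exact sub_ne_zero.2 (Ne.symm hz)

end

end Pool.Agent.Odp2
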