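import Pool.Agent.Odp2.Eq.Sym
import Pool.Agent.Odp2.Lim.Eval

/-!
# A function outside `J_1` separates two sheets near `x`
-/

open scoped ContDiff Topology ENNReal NNReal WithZero
open Set MeasureTheory Filter MvPolynomial Pool.Agent.ODP

namespace Pool.Agent.Odp2

variable {n d : ℕ} {B : Type} [CommRing B] [IsDomain B] [Algebra ℂ B] {G : Germ n d B} {x : Pt B}
  {h : B} {s κ : ℝ} {sg : B} {m : ℕ} {ρ₁ : ℝ}

theorem deltap_mem_JI (p : Pts G x) {a : Fin n → ℕ} (ha : ∀ j, 1 ≤ a j) {z : B} (hz : x z = 0)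
    (hev : ∀ᶠ ν in (hyperfilter ℕ : Filter ℕ), p.p 0 ν z = p.p 1 ν z) : z ∈ JI p a 1 := by
  refine Ideal.subset_span ⟨fun ν => z - algebraMap ℂ B (p.p 0 ν z), ?_, ?_⟩
  · filter_upwards [hev] with ν hν i
    rw [vanAt_one a ha (by rw [p.proj_p]; exact p.D_ne ν), map_sub, AlgHom.commutes]
    fin_cases i
    · exact sub_self _
    · exact sub_eq_zero.mpr hν.symm
  · refine tendsB_sub_algebraMap z ?_
    have h1 := (p.tendsto_p 0 z).mono_left Nat.hyperfilter_le_atTop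
    rwa [hz] at h1

omit [IsDomain B] in
theorem deltap_eventually_UU (H : Std G x h s κ sg m ρ₁) (p : Pts G x) {ρ : ℝ} (hρ : 0 < ρ)
    (i : Fin 2) : ∀ᶠ ν in atTop, p.p i ν ∈ UU G sg ρ := by
  have h1 : Tendsto (fun ν => nq (p.q ν)) atTop (𝓝 (nq (0 : Fin n → ℂ))) :=
    ((sym_continuous_nq n).tendsto 0).comp p.tendsto_q
  have h0 : nq (0 : Fin n → ℂ) = 0 := by simp [nq]
  rw [h0] at h1
  have h2 := h1.eventually (eventually_lt_nhds (show (0 : ℝ) < ρ ^ 2 by positivity))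
  have h3 : Tendsto (fun ν => ‖p.p i ν sg - 1‖) atTop (𝓝 0) := by
    have h4 := ((p.tendsto_p i sg).sub_const 1).norm
    rwa [H.sep.x_sg, sub_self, norm_zero] at h4
  have h5 := h3.eventually (eventually_lt_nhds (show (0 : ℝ) < 1 / 2 by norm_num))
  filter_upwards [h2, h5] with ν hν hν'
  exact ⟨by rw [p.proj_p]; exact hν, hν'⟩

/-- A function outside `J_1` separates two sheets over some point near `0`. -/
theorem delta_point (H : Std G x h s κ sg m ρ₁) (p : Pts G x) {z : B} (hz : x z = 0)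
    (hz1 : z ∉ JI p (one n) 1) {ρ : ℝ} (hρ : 0 < ρ) : ∃ w₀ ∈ bal n ρ, eval w₀ G.D ≠ 0 ∧
      ∃ χ ∈ UU G sg ρ, ∃ χ' ∈ UU G sg ρ, proj G.y χ = w₀ ∧ proj G.y χ' = w₀ ∧ χ z ≠ χ' z := by
  have hfreq : ∃ᶠ ν in (hyperfilter ℕ : Filter ℕ), p.p 0 ν z ≠ p.p 1 ν z := by
    intro hcon
    refine hz1 (deltap_mem_JI p (fun _ => le_refl 1) hz ?_)
    filter_upwards [hcon] with ν hν
    exact not_not.mp hν
  have hU : ∀ᶠ ν in (hyperfilter ℕ : Filter ℕ), p.p 0 ν ∈ UU G sg ρ ∧ p.p 1 ν ∈ UU G sg ρ :=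
    ((deltap_eventually_UU H p hρ 0).and (deltap_eventually_UU H p hρ 1)).filter_mono
      Nat.hyperfilter_le_atTop
  obtain ⟨ν, hν, h0, h1⟩ := (hfreq.and_eventually hU).exists
  refine ⟨p.q ν, ?_, p.D_ne ν, p.p 0 ν, h0, p.p 1 ν, h1, p.proj_p 0 ν, p.proj_p 1 ν, hν⟩
  have h2 := h0.1
  rwa [p.proj_p] at h2

end Pool.Agent.Odp2
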