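import Pool.Agent.Odp2.Eq.Sym
import Pool.Agent.Odp2.Eq.Ord
import Pool.Agent.Odp2.Eq.DeltaAux
import Pool.Agent.Odp2.Eq.DeltaP

open scoped ContDiff Topology ENNReal NNReal WithZero
open Set MeasureTheory Filter MvPolynomial Pool.Agent.ODP

namespace Pool.Agent.Odp2

variable {n d : ℕ} {B : Type} [CommRing B] [IsDomain B] [Algebra ℂ B] {G : Germ n d B} {x : Pt B}
  {h : B} {s κ : ℝ} {sg : B} {m : ℕ} {ρ₁ : ℝ}

omit [IsDomain B] in
/-- the comparison of the orders -/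
theorem delta40_main (hn : 1 ≤ n) {e : ℕ} {ρ : ℝ} (hρ : 0 < ρ) {T : B → (Fin n → ℂ) → ℂ}
    (hT : delta40_IsTr G sg e ρ T) (c : Fin 3 → B) (z b : B) {o : ℕ}
    (ho : ¬ OrdGe (delta40_det T c z b) (o + 1)) (a₂ a₁ a₀ : MvPolynomial (Fin n) ℂ)
    (σ : ℕ → (Fin n → ℂ) → ℂ) (N : ℕ) (ha₂ : a₂ ≠ 0) (he : 1 ≤ e)
    (hσ : IsSym G sg e ρ (aeval G.y a₂ * b - aeval G.y a₁ * z - aeval G.y a₀) σ)
    (hN : ∀ i, 1 ≤ i → i ≤ e → OrdGe (σ i) N) : N ≤ e * (a₂.totalDegree + o) := by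
  classical
  set g : B := aeval G.y a₂ * b - aeval G.y a₁ * z - aeval G.y a₀ with hg
  -- a cone with lower bounds
  obtain ⟨θ, ε, t₀, c', h1, h2, h3, h4, h5, h6⟩ := exists_cone hn hρ (Finset.univ : Finset (Fin 3))
    (fun i => ![fun w => eval w a₂, delta40_det T c z b, fun w => eval w G.D] i)
    (fun i => ![a₂.totalDegree, o, G.D.totalDegree] i) (by
      intro i _
      fin_cases i
      · exact (sym_diff_eval a₂).differentiableOn
      · exact delta40_det_holo hT c z b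
      · exact (sym_diff_eval G.D).differentiableOn) (by
      intro i _
      fin_cases i
      · exact not_ordGe_poly hn ha₂
      · exact ho
      · exact not_ordGe_poly hn G.D_ne)
  obtain ⟨C, hC0, hC⟩ := delta40_det_bdd hT c z
  obtain ⟨Cg, hCg⟩ := G.bdd g (ρ ^ 2)
  -- the bounds of the symmetric functions
  have hN' : ∀ k : ℕ, ∃ Ck ρk : ℝ, k < e → 0 < ρk ∧ ∀ w, nq w < ρk ^ 2 →
      ‖σ (k + 1) w‖ ≤ Ck * √(nq w) ^ N := by
    intro k
    by_cases hk : k < e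
    · obtain ⟨Ck, ρk, h7, h8⟩ := hN (k + 1) (by omega) (by omega)
      exact ⟨Ck, ρk, fun _ => ⟨h7, h8⟩⟩
    · exact ⟨0, 0, fun h => absurd h hk⟩
  choose Ck ρk hk using hN'
  obtain ⟨ρ', hρ'0, hρ'⟩ : ∃ ρ' : ℝ, 0 < ρ' ∧ ∀ k ∈ Finset.range e, ρ' ≤ ρk k := by
    obtain ⟨k₀, hk₀, hmin⟩ := Finset.exists_min_image (Finset.range e) ρk
      ⟨0, Finset.mem_range.2 he⟩
    exact ⟨ρk k₀, (hk k₀ (Finset.mem_range.1 hk₀)).1, hmin⟩
  refine delta40_cmp (c := (c' * c') ^ e)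
    (C := C ^ e * ∑ k ∈ Finset.range e, Ck k * |Cg| ^ (e - (k + 1))) h1 h2 h3 (by positivity)
    hρ'0 ?_
  intro w hw hwρ
  have hwb : w ∈ bal n ρ := h5 hw
  set u := √(nq w) with hu
  have hu0 : 0 ≤ u := Real.sqrt_nonneg _
  have l1 := h6 w hw 0 (Finset.mem_univ _)
  have l2 := h6 w hw 1 (Finset.mem_univ _)
  have l3 := h6 w hw 2 (Finset.mem_univ _)
  simp only [Matrix.cons_val_zero, Matrix.cons_val_one, Matrix.cons_val] at l1 l2 l3
  have hwne : 0 < nq w := by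
    obtain ⟨t, v, ht, _, hv, rfl⟩ := hw
    have hθ0 : 0 < ‖θ‖ := by linarith
    have hv0 : 0 < ‖v‖ := by
      have := norm_sub_norm_le θ v
      rw [norm_sub_rev] at this
      linarith
    have h7 : 0 < √(nq v) := hv0.trans_le (ord57_norm_le v)
    rw [ord57_nq_smul]
    have h8 : 0 < nq v := Real.sqrt_pos.1 h7
    have h9 : 0 < ‖(t : ℂ)‖ := by
      rw [Complex.norm_real, Real.norm_of_nonneg ht.le]
      exact ht
    positivity
  have hupos : 0 < u := Real.sqrt_pos.2 hwne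
  have hD : eval w G.D ≠ 0 := by
    have : 0 < c' * u ^ G.D.totalDegree := by positivity
    exact norm_pos_iff.1 (this.trans_le l3)
  obtain ⟨r, hr, -⟩ := delta40_enum hσ hwb hD
  -- the sheet with the largest value
  obtain ⟨j, -, hj⟩ := Finset.exists_max_image (Finset.univ : Finset (Fin e))
    (fun j => ‖r j g‖) ⟨⟨0, he⟩, Finset.mem_univ _⟩
  have m1 := hC g w hwb hD r hr ‖r j g‖ fun i => hj i (Finset.mem_univ i)
  rw [delta40_det_lin hT c z b a₂ a₁ a₀ hwb hD hr, norm_mul] at m1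
  have m2 := delta40_root hσ hwb hD hr j
  have hgb : ‖r j g‖ ≤ |Cg| := by
    have h2 : proj G.y (r j) = w := ((hr.2 (r j)).2 ⟨j, rfl⟩).1
    exact (hCg (r j) (by rw [h2]; exact le_of_lt hwb)).trans (le_abs_self _)
  have m3 : ‖r j g‖ ^ e ≤ (∑ k ∈ Finset.range e, Ck k * |Cg| ^ (e - (k + 1))) * u ^ N := by
    refine m2.trans ?_
    rw [Finset.sum_mul]
    refine Finset.sum_le_sum fun k hk' => ?_
    have hke := Finset.mem_range.1 hk'
    have h8 := (hk k hke).2 w (by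
      refine hwρ.trans_le ?_
      have := hρ' k hk'
      gcongr)
    calc ‖σ (k + 1) w‖ * ‖r j g‖ ^ (e - (k + 1)) ≤ (Ck k * u ^ N) * |Cg| ^ (e - (k + 1)) :=
          mul_le_mul h8 (pow_le_pow_left₀ (norm_nonneg _) hgb _) (by positivity)
            ((norm_nonneg _).trans h8)
      _ = _ := by ring
  calc (c' * c') ^ e * u ^ (e * (a₂.totalDegree + o))
      = ((c' * u ^ a₂.totalDegree) * (c' * u ^ o)) ^ e := by
        rw [mul_comm e, pow_mul, ← mul_pow]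
        congr 1
        ring
    _ ≤ (‖eval w a₂‖ * ‖delta40_det T c z b w‖) ^ e := by gcongr
    _ ≤ (C * ‖r j g‖) ^ e := by gcongr
    _ = C ^ e * ‖r j g‖ ^ e := mul_pow _ _ _
    _ ≤ C ^ e * ((∑ k ∈ Finset.range e, Ck k * |Cg| ^ (e - (k + 1))) * u ^ N) := by gcongr
    _ = _ := by ring

/-- There is `b` such that `1, z, b` are independent near `x`, and then the symmetric
functions of `a_2 b - a_1 z - a_0` cannot all have large order. -/
theorem exists_delta (H : Std G x h s κ sg m ρ₁) (p : Pts G x)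
    (h3 : 3 ≤ paramLength ℂ (RingHom.ker x) G.y) {z : B} (hz : x z = 0)
    (hz1 : z ∉ JI p (one n) 1) : ∃ ρ₂ : ℝ, 0 < ρ₂ ∧ ∀ ρ : ℝ, 0 < ρ → ρ ≤ ρ₂ →
      ∃ (b : B) (c₀ : ℕ), ∀ (a₂ a₁ a₀ : MvPolynomial (Fin n) ℂ) (σ : ℕ → (Fin n → ℂ) → ℂ)
        (N : ℕ), a₂ ≠ 0 → IsSym G sg (paramLength ℂ (RingHom.ker x) G.y) ρ
          (aeval G.y a₂ * b - aeval G.y a₁ * z - aeval G.y a₀) σ →
        (∀ i, 1 ≤ i → i ≤ paramLength ℂ (RingHom.ker x) G.y → OrdGe (σ i) N) →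
        N ≤ paramLength ℂ (RingHom.ker x) G.y * (a₂.totalDegree + c₀) := by
  classical
  obtain ⟨ρ₂, hρ₂, hsym⟩ := exists_sym H
  refine ⟨ρ₂, hρ₂, fun ρ hρ hle => ?_⟩
  have hn1 : 1 ≤ n := le_trans (by norm_num) H.hn
  choose σ hσ using hsym ρ hρ hle
  set e := paramLength ℂ (RingHom.ker x) G.y with he
  have hT : delta40_IsTr G sg e ρ (fun f => σ f 1) :=
    ⟨fun f => (hσ f).holo 1, fun f w hw hD r hr =>
      delta40_sum (by omega) (hσ f) hw hD hr⟩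
  obtain ⟨w₀, hw₀, hD, χ, hχ, χ', hχ', hpχ, hpχ', hne⟩ := delta_point H p hz hz1 hρ
  obtain ⟨r, hr, -⟩ := delta40_enum (hσ 1) hw₀ hD
  obtain ⟨j₀, hj₀⟩ := (hr.2 χ).1 ⟨hpχ, hχ.2⟩
  obtain ⟨j₁, hj₁⟩ := (hr.2 χ').1 ⟨hpχ', hχ'.2⟩
  have hj01 : r j₀ z ≠ r j₁ z := by rw [hj₀, hj₁]; exact hne
  obtain ⟨j₂, hj₂⟩ : ∃ j₂ : Fin e, j₂ ∉ ({j₀, j₁} : Finset (Fin e)) := by
    by_contra! hcon
    have h4 : (Finset.univ : Finset (Fin e)) ⊆ {j₀, j₁} := fun j _ => hcon j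
    have h5 := (Finset.card_le_card h4).trans Finset.card_le_two
    rw [Finset.card_univ, Fintype.card_fin] at h5
    omega
  simp only [Finset.mem_insert, Finset.mem_singleton, not_or] at hj₂
  obtain ⟨c, b, hcb⟩ := delta40_det_ne hT hw₀ hD hr (Ne.symm hj₂.1) (Ne.symm hj₂.2) hj01
  obtain ⟨o, -, ho⟩ := exists_ord hρ (delta40_det_holo hT c z b) ⟨w₀, hw₀, hcb⟩
  exact ⟨b, o, fun a₂ a₁ a₀ σ' N ha₂ hσ' hN =>
    delta40_main hn1 hρ hT c z b ho a₂ a₁ a₀ σ' N ha₂ (by omega) hσ' hN⟩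

end Pool.Agent.Odp2
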