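import Pool.Agent.Odp2.Eq.T3
import Pool.Agent.Odp2.Lim.Colength

/-!
# The equality case, T4: small elements of the limit ideals
-/

open scoped ContDiff Topology ENNReal NNReal WithZero
open Set MeasureTheory Filter MvPolynomial Pool.Agent.ODP

namespace Pool.Agent.Odp2

/-! ### Counting exponents -/

/-- the exponents of total degree less than `D` -/
def t4S (n D : ℕ) : Finset (Fin n → ℕ) :=
  (Fintype.piFinset fun _ : Fin n => Finset.range D).filter fun m => ∑ j, m j < D

theorem mem_t4S {n D : ℕ} {m : Fin n → ℕ} : m ∈ t4S n D ↔ ∑ j, m j < D := by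
  unfold t4S
  rw [Finset.mem_filter, Fintype.mem_piFinset]
  refine ⟨fun h => h.2, fun h => ⟨fun j => ?_, h⟩⟩
  rw [Finset.mem_range]
  exact lt_of_le_of_lt (Finset.single_le_sum (f := m) (fun _ _ => Nat.zero_le _)
    (Finset.mem_univ j)) h

theorem t4S_lower {n q : ℕ} (hn : 1 ≤ n) : q ^ n ≤ (t4S n (n * q)).card := by
  have h1 : (Fintype.piFinset fun _ : Fin n => Finset.range q) ⊆ t4S n (n * q) := by
    intro m hm
    rw [Fintype.mem_piFinset] at hm
    rw [mem_t4S]
    haveI : Nonempty (Fin n) := ⟨⟨0, hn⟩⟩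
    calc ∑ j, m j < ∑ _j : Fin n, q := by
          apply Finset.sum_lt_sum_of_nonempty Finset.univ_nonempty
          intro j _
          exact Finset.mem_range.1 (hm j)
      _ = n * q := by simp
  have h2 := Finset.card_le_card h1
  rwa [Fintype.card_piFinset_const, Finset.card_range] at h2

theorem t4S_upper {n D : ℕ} (hn : 1 ≤ n) :
    (t4S n (D + 1)).card ≤ (t4S n D).card + (D + 1) ^ (n - 1) := by
  obtain ⟨n', rfl⟩ : ∃ n', n = n' + 1 := ⟨n - 1, by omega⟩
  rw [Nat.add_sub_cancel]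
  have h1 : t4S (n' + 1) (D + 1) ⊆ t4S (n' + 1) D ∪
      (t4S (n' + 1) (D + 1)).filter (fun m => ∑ j, m j = D) := by
    intro m hm
    rw [Finset.mem_union, Finset.mem_filter, mem_t4S]
    have h := mem_t4S.1 hm
    rcases Nat.lt_or_ge (∑ j, m j) D with h2 | h2
    · exact Or.inl h2
    · exact Or.inr ⟨hm, by omega⟩
  refine (Finset.card_le_card h1).trans ((Finset.card_union_le _ _).trans ?_)
  apply Nat.add_le_add_left
  have h2 : ((t4S (n' + 1) (D + 1)).filter (fun m => ∑ j, m j = D)).card ≤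
      (Fintype.piFinset fun _ : Fin n' => Finset.range (D + 1)).card := by
    apply Finset.card_le_card_of_injOn (fun m i => m i.succ)
    · intro m hm
      rw [Finset.mem_coe, Finset.mem_filter] at hm
      rw [Finset.mem_coe, Fintype.mem_piFinset]
      intro i
      rw [Finset.mem_range]
      exact lt_of_le_of_lt (Finset.single_le_sum (f := m) (fun _ _ => Nat.zero_le _)
        (Finset.mem_univ i.succ)) (mem_t4S.1 hm.1)
    · intro m hm m' hm' h
      rw [Finset.mem_coe, Finset.mem_filter] at hm hm'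
      have h3 : ∀ i : Fin n', m i.succ = m' i.succ := fun i => congrFun h i
      have h4 := hm.2
      have h5 := hm'.2
      rw [Fin.sum_univ_succ] at h4 h5
      have h6 : ∑ i : Fin n', m i.succ = ∑ i : Fin n', m' i.succ :=
        Finset.sum_congr rfl fun i _ => h3 i
      funext i
      refine Fin.cases ?_ h3 i
      omega
  rwa [Fintype.card_piFinset_const, Finset.card_range] at h2

/-- the polynomials of degree less than `D` -/
noncomputable def t4P (n D : ℕ) : ((t4S n D) → ℂ) →ₗ[ℂ] MvPolynomial (Fin n) ℂ where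
  toFun c := ∑ m : t4S n D, monomial (Finsupp.equivFunOnFinite.symm (m : Fin n → ℕ)) (c m)
  map_add' c c' := by
    rw [← Finset.sum_add_distrib]
    refine Finset.sum_congr rfl fun m _ => ?_
    rw [Pi.add_apply, map_add]
  map_smul' a c := by
    rw [RingHom.id_apply, Finset.smul_sum]
    refine Finset.sum_congr rfl fun m _ => ?_
    rw [Pi.smul_apply, map_smul]

theorem t4P_apply {n D : ℕ} (c : (t4S n D) → ℂ) :
    t4P n D c =
      ∑ m : t4S n D, monomial (Finsupp.equivFunOnFinite.symm (m : Fin n → ℕ)) (c m) := rfl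

theorem t4P_coeff {n D : ℕ} (c : (t4S n D) → ℂ) (m₀ : t4S n D) :
    coeff (Finsupp.equivFunOnFinite.symm (m₀ : Fin n → ℕ)) (t4P n D c) = c m₀ := by
  classical
  rw [t4P_apply, coeff_sum, Finset.sum_eq_single m₀]
  · rw [coeff_monomial, if_pos rfl]
  · intro m _ hm
    rw [coeff_monomial, if_neg]
    intro h
    exact hm (Subtype.ext (Finsupp.equivFunOnFinite.symm.injective h))
  · intro h
    exact absurd (Finset.mem_univ _) h

theorem t4P_injective (n D : ℕ) {c : (t4S n D) → ℂ} (h : t4P n D c = 0) : c = 0 := by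
  funext m
  rw [← t4P_coeff c m, h, coeff_zero]
  rfl

theorem t4P_degree {n D : ℕ} (c : (t4S n D) → ℂ) {μ : Fin n →₀ ℕ}
    (h : coeff μ (t4P n D c) ≠ 0) : μ.degree < D := by
  classical
  rw [t4P_apply, coeff_sum] at h
  obtain ⟨m, _, hm⟩ := Finset.exists_ne_zero_of_sum_ne_zero h
  rw [coeff_monomial] at hm
  have h1 : Finsupp.equivFunOnFinite.symm (m : Fin n → ℕ) = μ := by
    by_contra h1
    rw [if_neg h1] at hm
    exact hm rfl
  have h2 := mem_t4S.1 m.2
  rw [← h1, Finsupp.degree_eq_sum]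
  simpa using h2

/-! ### Polynomials in the coordinates -/

section

variable {n : ℕ} {B : Type} [CommRing B] [Algebra ℂ B]

theorem t4_aeval_mem {I : Ideal B} {y : Fin n → B} (hy : ∀ j, y j ∈ I) {φ : MvPolynomial (Fin n) ℂ}
    {l : ℕ} (h : ∀ μ, coeff μ φ ≠ 0 → l ≤ μ.degree) : aeval y φ ∈ I ^ l := by
  classical
  rw [aeval_def, eval₂_eq']
  refine Ideal.sum_mem _ fun μ hμ => ?_
  apply Ideal.mul_mem_left
  have h1 : l ≤ μ.degree := h μ (mem_support_iff.1 hμ)
  refine Ideal.pow_le_pow_right h1 ?_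
  rw [Finsupp.degree_eq_sum, ← Finset.prod_pow_eq_pow_sum]
  exact Ideal.prod_mem_prod fun j _ => Ideal.pow_mem_pow (hy j) _

theorem t4_aeval_sub_mem {I : Ideal B} {y : Fin n → B} (hy : ∀ j, y j ∈ I)
    {φ : MvPolynomial (Fin n) ℂ} {l : ℕ} (h : ∀ i < l, homogeneousComponent i φ = 0) :
    aeval y φ - aeval y (homogeneousComponent l φ) ∈ I ^ (l + 1) := by
  classical
  rw [← map_sub]
  apply t4_aeval_mem hy
  intro μ hμ
  by_contra hcon
  push Not at hcon
  apply hμ
  rw [coeff_sub, coeff_homogeneousComponent]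
  rcases Nat.lt_or_ge μ.degree l with h1 | h1
  · have h2 := congrArg (coeff μ) (h _ h1)
    rw [coeff_homogeneousComponent, if_pos rfl, coeff_zero] at h2
    rw [h2, if_neg h1.ne, sub_zero]
  · rw [if_pos (by omega), sub_self]

theorem t4_exists_component {φ : MvPolynomial (Fin n) ℂ} (h : φ ≠ 0) :
    ∃ i, homogeneousComponent i φ ≠ 0 := by
  by_contra hcon
  push Not at hcon
  apply h
  rw [← sum_homogeneousComponent φ]
  exact Finset.sum_eq_zero fun i _ => hcon i

theorem t4_component_degree {φ : MvPolynomial (Fin n) ℂ} {i D : ℕ}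
    (hD : ∀ μ, coeff μ φ ≠ 0 → μ.degree < D) (h : homogeneousComponent i φ ≠ 0) : i < D := by
  classical
  obtain ⟨μ, hμ⟩ := ne_zero_iff.1 h
  rw [coeff_homogeneousComponent] at hμ
  split_ifs at hμ with h1
  · rw [← h1]
    exact hD μ hμ
  · exact absurd rfl hμ

end

variable {n d : ℕ} {B : Type} [CommRing B] [IsDomain B] [Algebra ℂ B] {G : Germ n d B} {x : Pt B}
  {h : B} {s κ : ℝ} {sg : B} {m : ℕ} {ρ₁ : ℝ}

/-- no element `a_1(y) z + a_0(y)` of small degree lies in `J_k` -/
theorem t4_not_mem (H : Std G x h s κ sg m ρ₁) (p : Pts G x) (hns : ¬ Strict G x h s) {z : B}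
    (hz : x z = 0) (hz1 : z ∉ JI p (one n) 1) {k : ℕ} {a₁ a₀ : MvPolynomial (Fin n) ℂ}
    (h1 : ∀ μ, coeff μ a₁ ≠ 0 → μ.degree < k) (h0 : ∀ μ, coeff μ a₀ ≠ 0 → μ.degree < k + 1)
    (hmem : aeval G.y a₁ * z + aeval G.y a₀ ∈ JI p (one n) (k + 1)) : a₁ = 0 ∧ a₀ = 0 := by
  classical
  by_contra hcon
  have hxy : ∀ j, G.y j ∈ RingHom.ker x := fun j => congrFun H.sep.x_y j
  have hzk : z ∈ RingHom.ker x := hz
  -- the constant term of `a₀`
  have hc0 : homogeneousComponent 0 a₀ = 0 := by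
    have h2 : aeval G.y a₁ * z + aeval G.y a₀ ∈ RingHom.ker x := JI_le_ker p (by omega) hmem
    have h3 : aeval G.y a₀ ∈ RingHom.ker x := by
      have h4 : aeval G.y a₁ * z ∈ RingHom.ker x := Ideal.mul_mem_left _ _ hzk
      have h5 := Ideal.sub_mem _ h2 h4
      rwa [add_sub_cancel_left] at h5
    have h4 := t4_aeval_sub_mem hxy (φ := a₀) (l := 0) (fun i hi => absurd hi (by omega))
    rw [zero_add, pow_one] at h4
    have h5 := Ideal.sub_mem _ h3 h4
    rw [sub_sub_cancel, homogeneousComponent_zero, aeval_C] at h5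
    have h6 : x (algebraMap ℂ B (coeff 0 a₀)) = 0 := h5
    rw [AlgHom.commutes] at h6
    rw [homogeneousComponent_zero]
    have h7 : coeff 0 a₀ = 0 := h6
    rw [h7, C_0]
  -- the lowest degree
  have hex : ∃ j, homogeneousComponent (j + 1) a₀ ≠ 0 ∨ homogeneousComponent j a₁ ≠ 0 := by
    by_cases ha : a₁ = 0
    · have hb : a₀ ≠ 0 := fun hb => hcon ⟨ha, hb⟩
      obtain ⟨i, hi⟩ := t4_exists_component hb
      rcases Nat.eq_zero_or_pos i with rfl | hi0
      · exact absurd hc0 hi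
      · refine ⟨i - 1, Or.inl ?_⟩
        rwa [Nat.sub_add_cancel hi0]
    · obtain ⟨i, hi⟩ := t4_exists_component ha
      exact ⟨i, Or.inr hi⟩
  set j := Nat.find hex with hj
  have hjs := Nat.find_spec hex
  rw [← hj] at hjs
  have hjm : ∀ i < j, homogeneousComponent (i + 1) a₀ = 0 ∧ homogeneousComponent i a₁ = 0 := by
    intro i hi
    have := Nat.find_min hex (m := i) (by rwa [← hj])
    push Not at this
    exact this
  have hjk : j + 1 < k + 1 := by
    rcases hjs with h2 | h2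
    · exact t4_component_degree h0 h2
    · have := t4_component_degree h1 h2
      omega
  have hA : ∀ i < j + 1, homogeneousComponent i a₀ = 0 := by
    intro i hi
    rcases Nat.eq_zero_or_pos i with rfl | hi0
    · exact hc0
    · have := (hjm (i - 1) (by omega)).1
      rwa [Nat.sub_add_cancel hi0] at this
  have hr0 := t4_aeval_sub_mem hxy hA
  have hr1 := t4_aeval_sub_mem hxy (φ := a₁) (l := j) fun i hi => (hjm i hi).2
  have hrest : aeval G.y a₁ * z + aeval G.y a₀ -
      (aeval G.y (homogeneousComponent (j + 1) a₀) +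
        aeval G.y (homogeneousComponent j a₁) * z) ∈ RingHom.ker x ^ (j + 1 + 1) := by
    have e : aeval G.y a₁ * z + aeval G.y a₀ -
        (aeval G.y (homogeneousComponent (j + 1) a₀) +
          aeval G.y (homogeneousComponent j a₁) * z) =
        (aeval G.y a₀ - aeval G.y (homogeneousComponent (j + 1) a₀)) +
          (aeval G.y a₁ - aeval G.y (homogeneousComponent j a₁)) * z := by ring
    rw [e]
    apply Ideal.add_mem _ hr0
    rw [pow_succ]
    exact Ideal.mul_mem_mul hr1 hzk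
  have hg1 : aeval G.y a₁ * z + aeval G.y a₀ ∈ GT p (j + 1) := JI_subset_GT hjk hmem
  have hg2 := ker_pow_le_GT H (p := p) hrest
  have hg3 := GT_add hg1 (GT_mul (-1) hg2)
  have e : aeval G.y a₁ * z + aeval G.y a₀ + -1 * (aeval G.y a₁ * z + aeval G.y a₀ -
      (aeval G.y (homogeneousComponent (j + 1) a₀) +
        aeval G.y (homogeneousComponent j a₁) * z)) =
      aeval G.y (homogeneousComponent (j + 1) a₀) +
        aeval G.y (homogeneousComponent j a₁) * z := by ring
  rw [e] at hg3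
  exact no_rel H p hns hz hz1 (homogeneousComponent_isHomogeneous _ _)
    (homogeneousComponent_isHomogeneous _ _) hjs hg3

/-- T4: elements `a_2(y) b - a_1(y) z - a_0(y)` of `J_k` with `deg a_2 ≤ ε k`. -/
theorem exists_small (H : Std G x h s κ sg m ρ₁) (p : Pts G x) (hns : ¬ Strict G x h s) {z : B}
    (hz : x z = 0) (hz1 : z ∉ JI p (one n) 1) (b : B) {ε : ℝ} (hε : 0 < ε) (k₀ : ℕ) :
    ∃ k, k₀ ≤ k ∧ ∃ a₂ a₁ a₀ : MvPolynomial (Fin n) ℂ, a₂ ≠ 0 ∧
      (a₂.totalDegree : ℝ) ≤ ε * k ∧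
      aeval G.y a₂ * b - aeval G.y a₁ * z - aeval G.y a₀ ∈ JI p (one n) k := by
  classical
  have hn : 1 ≤ n := le_trans (by norm_num) H.hn
  obtain ⟨c, hc⟩ := exists_nat_ge ((n : ℝ) / ε)
  have hc1 : (n : ℝ) ≤ ε * c := by
    rw [div_le_iff₀ hε] at hc
    linarith
  have hc0 : 1 ≤ c := by
    rcases Nat.eq_zero_or_pos c with h0 | h0
    · rw [h0, Nat.cast_zero, mul_zero] at hc1
      have : (1 : ℝ) ≤ n := by exact_mod_cast hn
      linarith
    · exact h0
  set q := c ^ (n - 1) + k₀ + 1 with hq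
  have hq1 : 1 ≤ q := by omega
  -- the degree `k = c q = k' + 1`
  obtain ⟨k', hk'⟩ : ∃ k', c * q = k' + 1 := ⟨c * q - 1, by
    have : 1 ≤ c * q := Nat.mul_pos hc0 hq1
    omega⟩
  have hcount : (t4S n (k' + 1)).card < (t4S n (n * q)).card + (t4S n k').card := by
    have h1 := t4S_upper (n := n) (D := k') hn
    have h2 := t4S_lower (n := n) (q := q) hn
    have h3 : (k' + 1) ^ (n - 1) < q ^ n := by
      rw [← hk', mul_pow]
      have h4 : q ^ n = q * q ^ (n - 1) := by
        rw [← pow_succ']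
        congr 1
        omega
      rw [h4]
      apply Nat.mul_lt_mul_of_pos_right _ (by positivity)
      omega
    omega
  refine ⟨c * q, ?_, ?_⟩
  · calc k₀ ≤ q := by omega
      _ = 1 * q := (one_mul q).symm
      _ ≤ c * q := Nat.mul_le_mul_right q hc0
  -- the linear map
  let Λ : ((t4S n (n * q)) → ℂ) × ((t4S n k') → ℂ) × ((t4S n (k' + 1)) → ℂ) →ₗ[ℂ]
      (B ⧸ JI p (one n) (k' + 1)) :=
    (Ideal.Quotient.mkₐ ℂ (JI p (one n) (k' + 1))).toLinearMap ∘ₗ
      ((LinearMap.mulRight ℂ b ∘ₗ (aeval G.y).toLinearMap ∘ₗ t4P n (n * q) ∘ₗ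
          LinearMap.fst ℂ _ _) -
        (LinearMap.mulRight ℂ z ∘ₗ (aeval G.y).toLinearMap ∘ₗ t4P n k' ∘ₗ
          LinearMap.fst ℂ _ _ ∘ₗ LinearMap.snd ℂ _ _) -
        ((aeval G.y).toLinearMap ∘ₗ t4P n (k' + 1) ∘ₗ
          LinearMap.snd ℂ _ _ ∘ₗ LinearMap.snd ℂ _ _))
  have hcol : Module.finrank ℂ (B ⧸ JI p (one n) (k' + 1)) = 2 * (t4S n (k' + 1)).card := by
    have h1 := colength_JI p (a := one n) (fun _ => le_rfl) (k' + 1)
    rw [colength] at h1
    rw [h1]
    congr 1
    rw [← Set.ncard_coe_finset]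
    congr 1
    ext μ
    rw [Finset.mem_coe, mem_t4S]
    simp [one]
  have hpos : 0 < Module.finrank ℂ (B ⧸ JI p (one n) (k' + 1)) := by
    rw [hcol]
    have : 0 < (t4S n (k' + 1)).card := Finset.card_pos.2 ⟨fun _ => 0, by
      rw [mem_t4S]
      simp⟩
    omega
  haveI : FiniteDimensional ℂ (B ⧸ JI p (one n) (k' + 1)) := Module.finite_of_finrank_pos hpos
  have hdim : Module.finrank ℂ (B ⧸ JI p (one n) (k' + 1)) <
      Module.finrank ℂ (((t4S n (n * q)) → ℂ) × ((t4S n k') → ℂ) × ((t4S n (k' + 1)) → ℂ)) := by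
    rw [hcol, Module.finrank_prod, Module.finrank_prod, Module.finrank_fintype_fun_eq_card,
      Module.finrank_fintype_fun_eq_card, Module.finrank_fintype_fun_eq_card,
      Fintype.card_coe, Fintype.card_coe, Fintype.card_coe]
    omega
  obtain ⟨⟨c₂, c₁, c₀⟩, hker, hne⟩ := (Submodule.ne_bot_iff _).1
    (LinearMap.ker_ne_bot_of_finrank_lt (f := Λ) hdim)
  have hmem : aeval G.y (t4P n (n * q) c₂) * b - aeval G.y (t4P n k' c₁) * z -
      aeval G.y (t4P n (k' + 1) c₀) ∈ JI p (one n) (k' + 1) := by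
    rw [← Ideal.Quotient.eq_zero_iff_mem]
    exact hker
  rw [hk']
  refine ⟨t4P n (n * q) c₂, t4P n k' c₁, t4P n (k' + 1) c₀, ?_, ?_, hmem⟩
  · intro h2
    apply hne
    rw [h2, map_zero, zero_mul, zero_sub] at hmem
    have h3 : aeval G.y (t4P n k' c₁) * z + aeval G.y (t4P n (k' + 1) c₀) ∈
        JI p (one n) (k' + 1) := by
      have h4 := Ideal.neg_mem_iff _ |>.2 hmem
      have e : -(-(aeval G.y (t4P n k' c₁) * z) - aeval G.y (t4P n (k' + 1) c₀)) =
          aeval G.y (t4P n k' c₁) * z + aeval G.y (t4P n (k' + 1) c₀) := by ring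
      rwa [e] at h4
    obtain ⟨h5, h6⟩ := t4_not_mem H p hns hz hz1 (fun μ hμ => t4P_degree c₁ hμ)
      (fun μ hμ => t4P_degree c₀ hμ) h3
    rw [t4P_injective n _ h2, t4P_injective n _ h5, t4P_injective n _ h6]
    rfl
  · have h2 : (t4P n (n * q) c₂).totalDegree ≤ n * q := by
      refine Finset.sup_le fun μ hμ => ?_
      have h3 := t4P_degree c₂ (mem_support_iff.1 hμ)
      rw [Finsupp.degree_eq_sum] at h3
      rw [Finsupp.sum_fintype _ _ (fun _ => rfl)]
      exact h3.le
    calc ((t4P n (n * q) c₂).totalDegree : ℝ) ≤ ((n * q : ℕ) : ℝ) := by exact_mod_cast h2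
      _ = n * q := by push_cast; ring
      _ ≤ (ε * c) * q := by
          apply mul_le_mul_of_nonneg_right hc1
          positivity
      _ = ε * ((k' + 1 : ℕ) : ℝ) := by
          rw [← hk']
          push_cast
          ring

end Pool.Agent.Odp2
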