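import Pool.Agent.Odp2.Eq.Defs

/-!
# The Newton polygon argument (pointwise part)
-/

open scoped ContDiff Topology ENNReal NNReal WithZero
open Set MeasureTheory Filter MvPolynomial Pool.Agent.ODP

namespace Pool.Agent.Odp2

noncomputable def t5S (s : ℕ → ℂ) (j : ℕ) : ℂ := (-1) ^ j * s j

noncomputable def t5H (s : ℕ → ℂ) (j : ℕ) (T : ℂ) : ℂ :=
  ∑ i ∈ Finset.range j, (-1) ^ i * s i * T ^ (j - 1 - i)

noncomputable def t5f (s : ℕ → ℂ) (j N : ℕ) (T : ℂ) : ℂ := (-(T * t5H s j T)) ^ N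

noncomputable def t5g (s : ℕ → ℂ) (j N : ℕ) (T : ℂ) : ℂ := t5S s j ^ N - t5f s j N T

theorem t5_root_eq {j N : ℕ} {s : ℕ → ℂ} {T : ℂ}
    (hT : ∑ i ∈ Finset.range (j + N + 1), (-1) ^ i * s i * T ^ (j + N - i) = 0) :
    T ^ N * (t5S s j + T * t5H s j T) =
      -∑ i ∈ Finset.Ico (j + 1) (j + N + 1), (-1) ^ i * s i * T ^ (j + N - i) := by
  have h1 : ∑ i ∈ Finset.range (j + 1), (-1) ^ i * s i * T ^ (j + N - i) =
      T ^ N * (t5S s j + T * t5H s j T) := by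
    rw [Finset.sum_range_succ, mul_add, add_comm]
    congr 1
    · rw [t5S, show j + N - j = N by omega]
      ring
    · rw [t5H, Finset.mul_sum, Finset.mul_sum]
      refine Finset.sum_congr rfl fun i hi => ?_
      rw [Finset.mem_range] at hi
      rw [show j + N - i = N + (1 + (j - 1 - i)) by omega, pow_add, pow_add, pow_one]
      ring
  rw [← h1]
  have h2 := Finset.sum_range_add_sum_Ico (fun i => (-1 : ℂ) ^ i * s i * T ^ (j + N - i))
    (show j + 1 ≤ j + N + 1 by omega)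
  rw [hT] at h2
  exact eq_neg_of_add_eq_zero_left h2

/-- The elementary bounds. -/
theorem t5_bounds (j N : ℕ) (hj : 1 ≤ j) (hN : 1 ≤ N) {C : ℝ} (hC : 1 ≤ C) :
    ∃ K : ℝ, 1 ≤ K ∧ ∀ (s : ℕ → ℂ) (T : ℂ) (δ : ℝ), 0 ≤ δ → (∀ i ≤ j + N, ‖s i‖ ≤ C) → ‖T‖ ≤ C →
      (∀ i, j + 1 ≤ i → i ≤ j + N → ‖s i‖ ≤ δ) →
      (∑ i ∈ Finset.range (j + N + 1), (-1) ^ i * s i * T ^ (j + N - i) = 0) →
      ‖t5H s j T‖ ≤ K ∧ ‖t5f s j N T‖ ≤ K ∧ ‖t5g s j N T‖ ≤ K ∧
      ‖T‖ ^ N * ‖t5S s j + T * t5H s j T‖ ≤ K * δ ∧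
      ‖t5g s j N T‖ ≤ K * ‖t5S s j + T * t5H s j T‖ ∧
      ‖t5f s j N T * t5g s j N T‖ ≤ K * δ := by
  set L : ℝ := j * C ^ (j + 2) with hL
  have hj1 : (1 : ℝ) ≤ j := by exact_mod_cast hj
  have hN1 : (1 : ℝ) ≤ N := by exact_mod_cast hN
  have hC0 : 0 ≤ C := by linarith
  have hL1 : 1 ≤ L := one_le_mul_of_one_le_of_one_le hj1 (one_le_pow₀ hC)
  have hCL : C ≤ L := by
    calc C = 1 * C ^ 1 := by ring
      _ ≤ j * C ^ (j + 2) := by
        have h1 : C ^ 1 ≤ C ^ (j + 2) := pow_le_pow_right₀ hC (by omega)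
        exact mul_le_mul hj1 h1 (by positivity) (by positivity)
  set D : ℝ := N * C ^ (j + N) with hD
  have hD1 : 1 ≤ D := one_le_mul_of_one_le_of_one_le hN1 (one_le_pow₀ hC)
  set E : ℝ := N * L ^ N with hE
  have hE1 : 1 ≤ E := one_le_mul_of_one_le_of_one_le hN1 (one_le_pow₀ hL1)
  have hLN : 1 ≤ L ^ N := one_le_pow₀ hL1
  refine ⟨L + 2 * L ^ N + D + E + L ^ N * E * D, ?_, ?_⟩
  · have : 0 ≤ L ^ N * E * D := by positivity
    linarith
  intro s T δ hδ hs hT hsδ hroot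
  have hLED : 0 ≤ L ^ N * E * D := by positivity
  have hH' : ‖t5H s j T‖ ≤ j * C ^ (j + 1) := by
    rw [t5H]
    refine (norm_sum_le _ _).trans ?_
    calc ∑ i ∈ Finset.range j, ‖(-1) ^ i * s i * T ^ (j - 1 - i)‖
        ≤ ∑ _i ∈ Finset.range j, C ^ (j + 1) := by
          refine Finset.sum_le_sum fun i hi => ?_
          rw [Finset.mem_range] at hi
          rw [norm_mul, norm_mul, norm_pow, norm_neg, norm_one, one_pow, one_mul, norm_pow]
          calc ‖s i‖ * ‖T‖ ^ (j - 1 - i) ≤ C * C ^ (j - 1 - i) := by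
                gcongr
                exact hs i (by omega)
            _ = C ^ (j - 1 - i + 1) := by ring
            _ ≤ C ^ (j + 1) := pow_le_pow_right₀ hC (by omega)
      _ = j * C ^ (j + 1) := by simp
  have hTH : ‖T * t5H s j T‖ ≤ L := by
    rw [norm_mul, hL]
    calc ‖T‖ * ‖t5H s j T‖ ≤ C * (j * C ^ (j + 1)) := by gcongr
      _ = j * C ^ (j + 2) := by ring
  have hHL : ‖t5H s j T‖ ≤ L := by
    refine hH'.trans ?_
    rw [hL]
    exact mul_le_mul_of_nonneg_left (pow_le_pow_right₀ hC (by omega)) (by positivity)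
  have hS : ‖t5S s j‖ ≤ L := by
    rw [t5S, norm_mul, norm_pow, norm_neg, norm_one, one_pow, one_mul]
    exact (hs j (by omega)).trans hCL
  have hf : ‖t5f s j N T‖ ≤ L ^ N := by
    rw [t5f, norm_pow, norm_neg]
    gcongr
  have hg : ‖t5g s j N T‖ ≤ 2 * L ^ N := by
    rw [t5g]
    refine (norm_sub_le _ _).trans ?_
    rw [norm_pow]
    have : ‖t5S s j‖ ^ N ≤ L ^ N := by gcongr
    linarith
  have hroot2 : ‖T‖ ^ N * ‖t5S s j + T * t5H s j T‖ ≤ D * δ := by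
    rw [← norm_pow, ← norm_mul, t5_root_eq hroot, norm_neg]
    refine (norm_sum_le _ _).trans ?_
    calc ∑ i ∈ Finset.Ico (j + 1) (j + N + 1), ‖(-1) ^ i * s i * T ^ (j + N - i)‖
        ≤ ∑ _i ∈ Finset.Ico (j + 1) (j + N + 1), δ * C ^ (j + N) := by
          refine Finset.sum_le_sum fun i hi => ?_
          rw [Finset.mem_Ico] at hi
          rw [norm_mul, norm_mul, norm_pow, norm_neg, norm_one, one_pow, one_mul, norm_pow]
          have h1 : ‖T‖ ^ (j + N - i) ≤ C ^ (j + N) :=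
            (pow_le_pow_left₀ (norm_nonneg _) hT _).trans (pow_le_pow_right₀ hC (by omega))
          have h2 := hsδ i hi.1 (by omega)
          gcongr
      _ = D * δ := by
        rw [Finset.sum_const, Nat.card_Ico, nsmul_eq_mul, hD,
          show j + N + 1 - (j + 1) = N by omega]
        ring
  have hgeom : t5g s j N T = (∑ i ∈ Finset.range N,
      t5S s j ^ i * (-(T * t5H s j T)) ^ (N - 1 - i)) * (t5S s j + T * t5H s j T) := by
    have := (Commute.all (t5S s j) (-(T * t5H s j T))).geom_sum₂_mul N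
    rw [sub_neg_eq_add] at this
    rw [this, t5g, t5f]
  have hG : ‖∑ i ∈ Finset.range N, t5S s j ^ i * (-(T * t5H s j T)) ^ (N - 1 - i)‖ ≤ E := by
    refine (norm_sum_le _ _).trans ?_
    calc ∑ i ∈ Finset.range N, ‖t5S s j ^ i * (-(T * t5H s j T)) ^ (N - 1 - i)‖
        ≤ ∑ _i ∈ Finset.range N, L ^ N := by
          refine Finset.sum_le_sum fun i hi => ?_
          rw [Finset.mem_range] at hi
          rw [norm_mul, norm_pow, norm_pow, norm_neg]
          calc ‖t5S s j‖ ^ i * ‖T * t5H s j T‖ ^ (N - 1 - i) ≤ L ^ i * L ^ (N - 1 - i) := by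
                gcongr
            _ = L ^ (i + (N - 1 - i)) := by rw [pow_add]
            _ ≤ L ^ N := pow_le_pow_right₀ hL1 (by omega)
      _ = E := by simp [hE]
  have hg2 : ‖t5g s j N T‖ ≤ E * ‖t5S s j + T * t5H s j T‖ := by
    rw [hgeom, norm_mul]
    gcongr
  have hfg : ‖t5f s j N T * t5g s j N T‖ ≤ L ^ N * E * D * δ := by
    have h1 : ‖t5f s j N T‖ ≤ ‖T‖ ^ N * L ^ N := by
      rw [t5f, norm_pow, norm_neg, norm_mul, mul_pow]
      gcongr
    rw [norm_mul]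
    calc ‖t5f s j N T‖ * ‖t5g s j N T‖
        ≤ (‖T‖ ^ N * L ^ N) * (E * ‖t5S s j + T * t5H s j T‖) := by gcongr
      _ = L ^ N * E * (‖T‖ ^ N * ‖t5S s j + T * t5H s j T‖) := by ring
      _ ≤ L ^ N * E * (D * δ) := by gcongr
      _ = L ^ N * E * D * δ := by ring
  refine ⟨by linarith, by linarith, by linarith, hroot2.trans ?_, hg2.trans ?_, hfg.trans ?_⟩
  · gcongr
    linarith
  · gcongr
    linarith
  · gcongr
    linarith

/-- A root is bounded in terms of the coefficients. -/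
theorem t5_root_le {e : ℕ} (he : 1 ≤ e) {s : ℕ → ℂ} {T : ℂ} {C : ℝ} (hs0 : s 0 = 1)
    (hs : ∀ i ≤ e, ‖s i‖ ≤ C)
    (hT : ∑ i ∈ Finset.range (e + 1), (-1) ^ i * s i * T ^ (e - i) = 0) : ‖T‖ ≤ 1 + e * C := by
  have hC : 1 ≤ C := by
    have := hs 0 (Nat.zero_le _)
    rwa [hs0, norm_one] at this
  by_contra hlt
  push Not at hlt
  have hT1 : 1 < ‖T‖ := by
    have : 0 ≤ (e : ℝ) * C := by positivity
    linarith
  rw [Finset.sum_range_succ', pow_zero, hs0, one_mul, one_mul, Nat.sub_zero] at hT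
  have h1 : T ^ e = -∑ i ∈ Finset.range e, (-1) ^ (i + 1) * s (i + 1) * T ^ (e - (i + 1)) :=
    eq_neg_of_add_eq_zero_right hT
  have h2 : ‖T‖ ^ e ≤ e * C * ‖T‖ ^ (e - 1) := by
    rw [← norm_pow, h1, norm_neg]
    refine (norm_sum_le _ _).trans ?_
    calc ∑ i ∈ Finset.range e, ‖(-1) ^ (i + 1) * s (i + 1) * T ^ (e - (i + 1))‖
        ≤ ∑ _i ∈ Finset.range e, C * ‖T‖ ^ (e - 1) := by
          refine Finset.sum_le_sum fun i hi => ?_
          rw [Finset.mem_range] at hi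
          rw [norm_mul, norm_mul, norm_pow, norm_neg, norm_one, one_pow, one_mul, norm_pow]
          have h3 := hs (i + 1) (by omega)
          have h4 : ‖T‖ ^ (e - (i + 1)) ≤ ‖T‖ ^ (e - 1) := pow_le_pow_right₀ hT1.le (by omega)
          gcongr
      _ = e * C * ‖T‖ ^ (e - 1) := by
        rw [Finset.sum_const, Finset.card_range, nsmul_eq_mul]
        ring
  have h3 : ‖T‖ ^ e = ‖T‖ * ‖T‖ ^ (e - 1) := by
    rw [← pow_succ', Nat.sub_add_cancel he]
  rw [h3] at h2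
  have h4 := le_of_mul_le_mul_right h2 (by positivity)
  linarith

theorem t5_root_of_prod {e : ℕ} {s : ℕ → ℂ} {a : Fin e → ℂ}
    (h : ∏ i, (Polynomial.X - Polynomial.C (a i)) =
      ∑ i ∈ Finset.range (e + 1), Polynomial.C ((-1) ^ i * s i) * Polynomial.X ^ (e - i))
    (i₀ : Fin e) : ∑ i ∈ Finset.range (e + 1), (-1) ^ i * s i * a i₀ ^ (e - i) = 0 := by
  have h1 := congrArg (Polynomial.eval (a i₀)) h
  rw [Polynomial.eval_prod, Polynomial.eval_finsetSum] at h1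
  simp only [Polynomial.eval_sub, Polynomial.eval_X, Polynomial.eval_C, Polynomial.eval_mul,
    Polynomial.eval_pow] at h1
  rw [← h1]
  exact Finset.prod_eq_zero (Finset.mem_univ i₀) (sub_self _)

theorem t5_last_of_prod {e : ℕ} {s : ℕ → ℂ} {a : Fin e → ℂ}
    (h : ∏ i, (Polynomial.X - Polynomial.C (a i)) =
      ∑ i ∈ Finset.range (e + 1), Polynomial.C ((-1) ^ i * s i) * Polynomial.X ^ (e - i)) :
    ‖s e‖ = ∏ i, ‖a i‖ := by
  have h1 := congrArg (Polynomial.eval 0) h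
  rw [Polynomial.eval_prod, Polynomial.eval_finsetSum] at h1
  simp only [Polynomial.eval_sub, Polynomial.eval_X, Polynomial.eval_C, Polynomial.eval_mul,
    Polynomial.eval_pow] at h1
  rw [Finset.sum_range_succ, Finset.sum_eq_zero (fun i hi => by
    rw [Finset.mem_range] at hi
    rw [zero_pow (by omega), mul_zero]), zero_add, Nat.sub_self, pow_zero, mul_one] at h1
  have h2 := congrArg norm h1
  rw [norm_prod, norm_mul, norm_pow, norm_neg, norm_one, one_pow, one_mul] at h2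
  rw [← h2]
  exact Finset.prod_congr rfl fun i _ => by rw [zero_sub, norm_neg]

theorem t5_coeff_le {e : ℕ} {s : ℕ → ℂ} {a : Fin e → ℂ} {b : ℝ}
    (h : ∏ i, (Polynomial.X - Polynomial.C (a i)) =
      ∑ i ∈ Finset.range (e + 1), Polynomial.C ((-1) ^ i * s i) * Polynomial.X ^ (e - i))
    (hb : ∀ i, ‖a i‖ ≤ b) {j : ℕ} (hj : j ≤ e) : ‖s j‖ ≤ b ^ j * (2 : ℝ) ^ e := by
  have hmon : (∏ i, (Polynomial.X - Polynomial.C (a i))).Monic :=
    Polynomial.monic_prod_of_monic _ _ fun i _ => Polynomial.monic_X_sub_C _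
  have hdeg : (∏ i, (Polynomial.X - Polynomial.C (a i))).natDegree = e := by
    rw [Polynomial.natDegree_prod_of_monic _ _ fun i _ => Polynomial.monic_X_sub_C _]
    simp
  have h1 := Polynomial.coeff_le_of_roots_le (p := ∏ i, (Polynomial.X - Polynomial.C (a i)))
    (f := RingHom.id ℂ) (B := b) (e - j) hmon (by
      rw [Polynomial.map_id]
      exact Polynomial.Splits.prod fun i _ => Polynomial.Splits.X_sub_C _) (by
      intro z hz
      rw [Polynomial.map_id, Polynomial.mem_roots hmon.ne_zero, Polynomial.IsRoot.def,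
        Polynomial.eval_prod, Finset.prod_eq_zero_iff] at hz
      obtain ⟨i, _, hi⟩ := hz
      rw [Polynomial.eval_sub, Polynomial.eval_X, Polynomial.eval_C, sub_eq_zero] at hi
      rw [hi]
      exact hb i)
  rw [Polynomial.map_id, hdeg, show e - (e - j) = j by omega, h, Polynomial.finsetSum_coeff,
    Finset.sum_eq_single j (fun i hi hij => by
      rw [Finset.mem_range] at hi
      rw [Polynomial.coeff_C_mul_X_pow, if_neg (by omega)]) (fun hi => by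
      rw [Finset.mem_range] at hi; omega), Polynomial.coeff_C_mul_X_pow, if_pos rfl, norm_mul,
    norm_pow, norm_neg, norm_one, one_pow, one_mul] at h1
  have hb0 : 0 ≤ b ^ j := by
    rcases Nat.eq_zero_or_pos e with he | he
    · have : j = 0 := by omega
      rw [this, pow_zero]
      exact zero_le_one
    · exact pow_nonneg ((norm_nonneg _).trans (hb ⟨0, he⟩)) _
  have h2 : ((e.choose (e - j) : ℕ) : ℝ) ≤ 2 ^ e := by
    exact_mod_cast Nat.choose_le_two_pow e (e - j)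
  exact h1.trans (mul_le_mul_of_nonneg_left h2 hb0)

/-- Both kinds of sheets occur. -/
theorem t5_kinds (j N M τ : ℕ) (hj : 1 ≤ j) (hN : 1 ≤ N) (hM : 2 * (j + N) * τ + 1 ≤ M) {C c : ℝ}
    (hC : 1 ≤ C) (hc : 0 < c) : ∃ r₀ : ℝ, 0 < r₀ ∧ ∀ (r : ℝ) (s : ℕ → ℂ) (a : Fin (j + N) → ℂ),
      0 < r → r ≤ r₀ → (∀ i ≤ j + N, ‖s i‖ ≤ C) → (∀ i, ‖a i‖ ≤ C) →
      (∀ i, j + 1 ≤ i → i ≤ j + N → ‖s i‖ ≤ C * r ^ M) → c * r ^ τ ≤ ‖s j‖ →
      ∏ i, (Polynomial.X - Polynomial.C (a i)) = ∑ i ∈ Finset.range (j + N + 1),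
        Polynomial.C ((-1) ^ i * s i) * Polynomial.X ^ (j + N - i) →
      (∃ i, 2 * ‖t5g s j N (a i)‖ ≤ ‖t5f s j N (a i)‖) ∧
        ∃ i, 2 * ‖t5f s j N (a i)‖ ≤ ‖t5g s j N (a i)‖ := by
  obtain ⟨K, hK1, hK⟩ := t5_bounds j N hj hN hC
  have hK0 : 0 < K := by linarith
  have hC0 : 0 < C := by linarith
  set r₁ : ℝ := c ^ (2 * N) / (9 * K * C + 1) with hr₁
  set r₂ : ℝ := c ^ (2 * N) / (((2 : ℝ) ^ (j + N)) ^ N * (3 / 2 * K ^ 2 * C) + 1) with hr₂
  set r₃ : ℝ := c ^ N / (3 / 2 * K ^ 2 * C + 1) with hr₃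
  set r₄ : ℝ := (c / (2 * K)) ^ (j + N) / (C + 1) with hr₄
  have h1 : 0 < r₁ := by positivity
  have h2 : 0 < r₂ := by positivity
  have h3 : 0 < r₃ := by positivity
  have h4 : 0 < r₄ := by positivity
  refine ⟨min (min 1 r₁) (min r₂ (min r₃ r₄)), by positivity, ?_⟩
  intro r s a hr hrr hs ha hsM hsj hprod
  obtain ⟨⟨hrr1, hrr2⟩, hrr3, hrr4, hrr5⟩ : (r ≤ 1 ∧ r ≤ r₁) ∧ r ≤ r₂ ∧ r ≤ r₃ ∧ r ≤ r₄ := by
    simpa [le_min_iff] using hrr
  have hroot := fun i => t5_root_of_prod hprod i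
  have hb := fun i => hK s (a i) (C * r ^ M) (by positivity) hs (ha i) hsM (hroot i)
  have hA : (c * r ^ τ) ^ N ≤ ‖t5S s j ^ N‖ := by
    rw [norm_pow, t5S, norm_mul, norm_pow, norm_neg, norm_one, one_pow, one_mul]
    exact pow_le_pow_left₀ (by positivity) hsj N
  have hpowM : r ^ M ≤ r ^ (2 * N * τ + 1) := pow_le_pow_of_le_one hr.le hrr1 (by nlinarith)
  have hfgA : ∀ i, t5f s j N (a i) + t5g s j N (a i) = t5S s j ^ N := fun i => by
    rw [t5g]; ring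
  have hSN : ‖t5S s j ^ N‖ = ‖t5S s j‖ ^ N := norm_pow _ _
  -- the dichotomy
  have hdich : ∀ i, 2 * ‖t5g s j N (a i)‖ ≤ ‖t5f s j N (a i)‖ ∨
      2 * ‖t5f s j N (a i)‖ ≤ ‖t5g s j N (a i)‖ := by
    intro i
    by_contra hcon
    push Not at hcon
    obtain ⟨hc1, hc2⟩ := hcon
    have h5 : ‖t5S s j ^ N‖ ≤ ‖t5f s j N (a i)‖ + ‖t5g s j N (a i)‖ := by
      rw [← hfgA i]
      exact norm_add_le _ _
    have h6 : ‖t5S s j ^ N‖ ^ 2 ≤ 9 * (‖t5f s j N (a i)‖ * ‖t5g s j N (a i)‖) := by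
      have h7 : ‖t5S s j ^ N‖ ≤ 3 * ‖t5f s j N (a i)‖ := by linarith
      have h8 : ‖t5S s j ^ N‖ ≤ 3 * ‖t5g s j N (a i)‖ := by linarith
      calc ‖t5S s j ^ N‖ ^ 2 = ‖t5S s j ^ N‖ * ‖t5S s j ^ N‖ := pow_two _
        _ ≤ (3 * ‖t5f s j N (a i)‖) * (3 * ‖t5g s j N (a i)‖) := by gcongr
        _ = 9 * (‖t5f s j N (a i)‖ * ‖t5g s j N (a i)‖) := by ring
    have h7 := (hb i).2.2.2.2.2
    rw [norm_mul] at h7
    have h8 : ((c * r ^ τ) ^ N) ^ 2 ≤ 9 * (K * (C * r ^ M)) := by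
      calc ((c * r ^ τ) ^ N) ^ 2 ≤ ‖t5S s j ^ N‖ ^ 2 := by gcongr
        _ ≤ _ := h6
        _ ≤ _ := by gcongr
    have h9 : ((c * r ^ τ) ^ N) ^ 2 = c ^ (2 * N) * r ^ (2 * N * τ) := by
      rw [← pow_mul, mul_pow, ← pow_mul]
      congr 1
      · congr 1; ring
      · congr 1; ring
    have h10 : 9 * (K * (C * r ^ M)) ≤ 9 * K * C * r * r ^ (2 * N * τ) := by
      calc 9 * (K * (C * r ^ M)) ≤ 9 * (K * (C * r ^ (2 * N * τ + 1))) := by gcongr
        _ = _ := by ring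
    have h11 : 9 * K * C * r < c ^ (2 * N) := by
      have h12 : (9 * K * C + 1) * r ≤ c ^ (2 * N) := by
        rw [hr₁, le_div_iff₀ (by positivity)] at hrr2
        linarith
      nlinarith
    have h13 : 0 < r ^ (2 * N * τ) := by positivity
    have h14 := mul_lt_mul_of_pos_right h11 h13
    rw [h9] at h8
    linarith
  have hne : Nonempty (Fin (j + N)) := ⟨⟨0, by omega⟩⟩
  constructor
  · by_contra hcon
    push Not at hcon
    have hk2 : ∀ i, 2 * ‖t5f s j N (a i)‖ ≤ ‖t5g s j N (a i)‖ := fun i =>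
      (hdich i).resolve_left (not_le.2 (hcon i))
    obtain ⟨i₀, _, hi₀⟩ := Finset.exists_max_image Finset.univ (fun i => ‖a i‖)
      Finset.univ_nonempty
    have h5 : ‖t5S s j ^ N‖ ≤ 3 / 2 * ‖t5g s j N (a i₀)‖ := by
      have h6 : ‖t5S s j ^ N‖ ≤ ‖t5f s j N (a i₀)‖ + ‖t5g s j N (a i₀)‖ := by
        rw [← hfgA i₀]
        exact norm_add_le _ _
      have := hk2 i₀
      linarith
    have h6 : ‖a i₀‖ ^ N * (c * r ^ τ) ^ N ≤ 3 / 2 * K ^ 2 * C * r ^ M := by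
      calc ‖a i₀‖ ^ N * (c * r ^ τ) ^ N ≤ ‖a i₀‖ ^ N * (3 / 2 * ‖t5g s j N (a i₀)‖) := by
            gcongr
            exact hA.trans h5
        _ ≤ ‖a i₀‖ ^ N * (3 / 2 * (K * ‖t5S s j + a i₀ * t5H s j (a i₀)‖)) := by
            gcongr
            exact (hb i₀).2.2.2.2.1
        _ = 3 / 2 * K * (‖a i₀‖ ^ N * ‖t5S s j + a i₀ * t5H s j (a i₀)‖) := by ring
        _ ≤ 3 / 2 * K * (K * (C * r ^ M)) :=
            mul_le_mul_of_nonneg_left (hb i₀).2.2.2.1 (by positivity)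
        _ = 3 / 2 * K ^ 2 * C * r ^ M := by ring
    have hpow2 : r ^ M ≤ r ^ (N * τ) * (r * r ^ (N * τ)) := by
      refine hpowM.trans (le_of_eq ?_)
      rw [show 2 * N * τ + 1 = N * τ + (1 + N * τ) by ring, pow_add, pow_add, pow_one]
    have h7 : ‖a i₀‖ ^ N * c ^ N ≤ 3 / 2 * K ^ 2 * C * (r * r ^ (N * τ)) := by
      have h8 : ‖a i₀‖ ^ N * c ^ N * r ^ (N * τ) ≤
          3 / 2 * K ^ 2 * C * (r * r ^ (N * τ)) * r ^ (N * τ) := by
        calc ‖a i₀‖ ^ N * c ^ N * r ^ (N * τ) = ‖a i₀‖ ^ N * (c * r ^ τ) ^ N := by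
              rw [mul_pow, ← pow_mul]; ring
          _ ≤ 3 / 2 * K ^ 2 * C * r ^ M := h6
          _ ≤ 3 / 2 * K ^ 2 * C * (r ^ (N * τ) * (r * r ^ (N * τ))) := by gcongr
          _ = _ := by ring
      exact le_of_mul_le_mul_right h8 (by positivity)
    have hB1 : ‖a i₀‖ ^ N ≤ 1 := by
      have h8 : (3 / 2 * K ^ 2 * C + 1) * r ≤ c ^ N := by
        rw [hr₃, le_div_iff₀ (by positivity)] at hrr4
        linarith
      have h9 : r * r ^ (N * τ) ≤ r * 1 := by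
        gcongr
        exact pow_le_one₀ hr.le hrr1
      have h10 : ‖a i₀‖ ^ N * c ^ N ≤ 1 * c ^ N := by
        calc ‖a i₀‖ ^ N * c ^ N ≤ 3 / 2 * K ^ 2 * C * (r * r ^ (N * τ)) := h7
          _ ≤ 3 / 2 * K ^ 2 * C * (r * 1) := by gcongr
          _ ≤ 1 * c ^ N := by nlinarith
      exact le_of_mul_le_mul_right h10 (by positivity)
    have h8 : ‖s j‖ ^ N ≤ ((2 : ℝ) ^ (j + N)) ^ N * ‖a i₀‖ ^ N := by
      have h9 := t5_coeff_le hprod (b := ‖a i₀‖) (fun i => hi₀ i (Finset.mem_univ i))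
        (j := j) (by omega)
      calc ‖s j‖ ^ N ≤ (‖a i₀‖ ^ j * (2 : ℝ) ^ (j + N)) ^ N := by gcongr
        _ = ((2 : ℝ) ^ (j + N)) ^ N * (‖a i₀‖ ^ N) ^ j := by
          rw [mul_pow, ← pow_mul ‖a i₀‖ j N, ← pow_mul ‖a i₀‖ N j, mul_comm j N, mul_comm]
        _ ≤ ((2 : ℝ) ^ (j + N)) ^ N * ‖a i₀‖ ^ N := by
          gcongr
          exact pow_le_of_le_one (by positivity) hB1 (by omega)
    have h9 : c ^ (2 * N) * r ^ (N * τ) ≤
        ((2 : ℝ) ^ (j + N)) ^ N * (3 / 2 * K ^ 2 * C) * r * r ^ (N * τ) := by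
      calc c ^ (2 * N) * r ^ (N * τ) = (c * r ^ τ) ^ N * c ^ N := by
            rw [mul_pow, ← pow_mul]; ring
        _ ≤ ‖s j‖ ^ N * c ^ N := by gcongr
        _ ≤ ((2 : ℝ) ^ (j + N)) ^ N * ‖a i₀‖ ^ N * c ^ N := by gcongr
        _ = ((2 : ℝ) ^ (j + N)) ^ N * (‖a i₀‖ ^ N * c ^ N) := by ring
        _ ≤ ((2 : ℝ) ^ (j + N)) ^ N * (3 / 2 * K ^ 2 * C * (r * r ^ (N * τ))) := by gcongr
        _ = _ := by ring
    have h10 := le_of_mul_le_mul_right h9 (by positivity)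
    have h11 : (((2 : ℝ) ^ (j + N)) ^ N * (3 / 2 * K ^ 2 * C) + 1) * r ≤ c ^ (2 * N) := by
      rw [hr₂, le_div_iff₀ (by positivity)] at hrr3
      linarith
    linarith
  · by_contra hcon
    push Not at hcon
    have hk1 : ∀ i, 2 * ‖t5g s j N (a i)‖ ≤ ‖t5f s j N (a i)‖ := fun i =>
      (hdich i).resolve_right (not_le.2 (hcon i))
    have h5 : ∀ i, c / (2 * K) * r ^ τ ≤ ‖a i‖ := by
      intro i
      have h6 : ‖t5S s j‖ ^ N ≤ 3 / 2 * ‖t5f s j N (a i)‖ := by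
        have h7 : ‖t5S s j ^ N‖ ≤ ‖t5f s j N (a i)‖ + ‖t5g s j N (a i)‖ := by
          rw [← hfgA i]
          exact norm_add_le _ _
        have := hk1 i
        rw [hSN] at h7
        linarith
      have h7 : ‖t5S s j‖ ≤ 2 * (‖a i‖ * K) := by
        by_contra hlt
        push Not at hlt
        have h8 : (2 * (‖a i‖ * K)) ^ N < ‖t5S s j‖ ^ N :=
          pow_lt_pow_left₀ hlt (by positivity) (by omega)
        have h9 : ‖t5f s j N (a i)‖ ≤ (‖a i‖ * K) ^ N := by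
          rw [t5f, norm_pow, norm_neg, norm_mul]
          gcongr
          exact (hb i).1
        have h10 : 3 / 2 * (‖a i‖ * K) ^ N ≤ (2 * (‖a i‖ * K)) ^ N := by
          rw [mul_pow 2]
          gcongr
          calc (3 / 2 : ℝ) ≤ 2 ^ 1 := by norm_num
            _ ≤ 2 ^ N := pow_le_pow_right₀ (by norm_num) hN
        linarith
      have h8 : c * r ^ τ ≤ ‖t5S s j‖ := by
        rw [t5S, norm_mul, norm_pow, norm_neg, norm_one, one_pow, one_mul]
        exact hsj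
      rw [div_mul_eq_mul_div, div_le_iff₀ (by positivity)]
      linarith
    have h6 : (c / (2 * K) * r ^ τ) ^ (j + N) ≤ C * r ^ M := by
      calc (c / (2 * K) * r ^ τ) ^ (j + N) = ∏ _i : Fin (j + N), (c / (2 * K) * r ^ τ) := by
            simp
        _ ≤ ∏ i, ‖a i‖ := Finset.prod_le_prod (fun i _ => by positivity) fun i _ => h5 i
        _ = ‖s (j + N)‖ := (t5_last_of_prod hprod).symm
        _ ≤ C * r ^ M := hsM (j + N) (by omega) le_rfl
    have h7 : (c / (2 * K)) ^ (j + N) * r ^ ((j + N) * τ) ≤ C * r * r ^ ((j + N) * τ) := by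
      calc (c / (2 * K)) ^ (j + N) * r ^ ((j + N) * τ) = (c / (2 * K) * r ^ τ) ^ (j + N) := by
            rw [mul_pow (c / (2 * K)), ← pow_mul, mul_comm τ]
        _ ≤ C * r ^ M := h6
        _ ≤ C * r ^ ((j + N) * τ + 1) := by
          gcongr C * ?_
          exact pow_le_pow_of_le_one hr.le hrr1 (by nlinarith)
        _ = C * r * r ^ ((j + N) * τ) := by ring
    have h8 := le_of_mul_le_mul_right h7 (by positivity)
    have h9 : (C + 1) * r ≤ (c / (2 * K)) ^ (j + N) := by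
      rw [hr₄, le_div_iff₀ (by positivity)] at hrr5
      linarith
    linarith

end Pool.Agent.Odp2
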