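import Pool.Agent.Odp2.Eq.Defs
import Pool.Agent.Odp2.Horm.Dual
import Pool.Agent.Odp2.Pt.Red
import Pool.Agent.Odp2.Pt.Bdd

open scoped ContDiff Topology ENNReal NNReal WithZero
open Set MeasureTheory Filter MvPolynomial Pool.Agent.ODP

namespace Pool.Agent.Odp2

theorem idemL_nq_smul {n : ℕ} (t : ℂ) (v : Fin n → ℂ) : nq (t • v) = ‖t‖ ^ 2 * nq v := by
  unfold nq
  rw [Finset.mul_sum]
  refine Finset.sum_congr rfl fun j _ => ?_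
  rw [Pi.smul_apply, smul_eq_mul, norm_mul, mul_pow]

theorem idemL_eq_zero {n : ℕ} {w : Fin n → ℂ} (h : nq w = 0) : w = 0 := by
  funext j
  have h1 := (Finset.sum_eq_zero_iff_of_nonneg (fun j _ => by positivity)).1 h j
    (Finset.mem_univ j)
  exact norm_eq_zero.1 (pow_eq_zero_iff (two_ne_zero) |>.1 h1)

theorem idemL_nq_zero (n : ℕ) : nq (0 : Fin n → ℂ) = 0 := by
  unfold nq
  simp

/-- The Schwarz lemma on the complex lines through `0`. -/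
theorem idemL_schwarz {n : ℕ} {ρ M : ℝ} (hρ : 0 < ρ) {f : (Fin n → ℂ) → ℂ}
    (hf : DifferentiableOn ℂ f (bal n ρ)) (hb : ∀ w ∈ bal n ρ, ‖f w‖ ≤ M) {w : Fin n → ℂ}
    (hw : w ∈ bal n ρ) : ‖f w - f 0‖ ≤ 2 * M / ρ * √(nq w) := by
  by_cases h0 : nq w = 0
  · rw [idemL_eq_zero h0, idemL_nq_zero]
    simp
  have hpos : 0 < nq w := lt_of_le_of_ne (nq_nonneg w) (Ne.symm h0)
  set r : ℝ := √(nq w) with hr
  have hr0 : 0 < r := Real.sqrt_pos.2 hpos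
  have hr2 : r ^ 2 = nq w := Real.sq_sqrt hpos.le
  set v : Fin n → ℂ := ((r : ℂ)⁻¹) • w with hv
  have hv1 : nq v = 1 := by
    rw [hv, idemL_nq_smul, norm_inv, Complex.norm_real, Real.norm_eq_abs, abs_of_pos hr0, inv_pow,
      hr2, inv_mul_cancel₀ h0]
  have hmem : ∀ t ∈ Metric.ball (0 : ℂ) ρ, t • v ∈ bal n ρ := by
    intro t ht
    rw [mem_ball_zero_iff] at ht
    change nq (t • v) < ρ ^ 2
    rw [idemL_nq_smul, hv1, mul_one]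
    exact pow_lt_pow_left₀ ht (norm_nonneg _) two_ne_zero
  have hz : (0 : ℂ) ∈ Metric.ball (0 : ℂ) ρ := Metric.mem_ball_self hρ
  have hd : DifferentiableOn ℂ (fun t : ℂ => f (t • v)) (Metric.ball 0 ρ) := by
    refine hf.comp ?_ hmem
    exact (differentiable_id.smul_const v).differentiableOn
  have hmaps : MapsTo (fun t : ℂ => f (t • v)) (Metric.ball 0 ρ)
      (Metric.closedBall ((fun t : ℂ => f (t • v)) 0) (2 * M)) := by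
    intro t ht
    rw [Metric.mem_closedBall, dist_eq_norm]
    refine (norm_sub_le _ _).trans ?_
    have h1 := hb _ (hmem t ht)
    have h2 := hb _ (hmem 0 hz)
    change ‖f (t • v)‖ + ‖f ((0 : ℂ) • v)‖ ≤ 2 * M
    linarith
  have hrρ : (r : ℂ) ∈ Metric.ball (0 : ℂ) ρ := by
    rw [mem_ball_zero_iff, Complex.norm_real, Real.norm_eq_abs, abs_of_pos hr0]
    have h1 : r ^ 2 < ρ ^ 2 := by
      rw [hr2]
      exact hw
    exact lt_of_pow_lt_pow_left₀ 2 hρ.le h1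
  have h1 := Complex.dist_le_div_mul_dist_of_mapsTo_ball hd hmaps hrρ
  have h2 : (r : ℂ) • v = w := by
    rw [hv, smul_smul, mul_inv_cancel₀ (by exact_mod_cast hr0.ne'), one_smul]
  simp only [h2, zero_smul] at h1
  rw [dist_eq_norm, dist_zero_right, Complex.norm_real, Real.norm_eq_abs, abs_of_pos hr0] at h1
  exact h1

variable {n d : ℕ} {B : Type} [CommRing B] [IsDomain B] [Algebra ℂ B] {G : Germ n d B} {x : Pt B}
  {h : B} {s κ : ℝ} {sg : B} {m : ℕ} {ρ₁ : ℝ}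

omit [IsDomain B] in
theorem idemL_VV_sub {Q : (Fin n → ℂ) → ℂ} {ρ ρ' : ℝ} (h0 : 0 ≤ ρ) (h1 : ρ ≤ ρ') {χ : Pt B}
    (hχ : χ ∈ VV G sg Q ρ) : χ ∈ UU G sg ρ' :=
  ⟨hχ.1.trans_le (pow_le_pow_left₀ h0 h1 2), hχ.2.2⟩

/-- `L²` holomorphic functions on the sheets are Lipschitz at `x`, uniformly. -/
theorem idem_lip (H : Std G x h s κ sg m ρ₁) : ∃ ρ₂ : ℝ, 0 < ρ₂ ∧
    ∀ (ρ : ℝ) (Q : (Fin n → ℂ) → ℂ), ρ ≤ ρ₂ → IsQ G Q ρ → ∀ C₁ : ℝ≥0,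
      ∃ C₂ ρ' : ℝ, 0 < ρ' ∧ ρ' ≤ ρ ∧ ∀ b : Pt B → ℂ, HolV G (VV G sg Q ρ) b →
        sumI G (VV G sg Q ρ) (fun χ => ‖b χ‖ₑ ^ 2 * ‖χ h‖ₑ ^ (-(2 * s))) ≤ C₁ →
        ∃ c : ℂ, ∀ χ ∈ VV G sg Q ρ', ‖b χ - c‖ ≤ C₂ * √(nq (proj G.y χ)) := by
  have hm : 1 ≤ m := by
    have := H.hm
    omega
  obtain ⟨ρ₀, hρ₀, hext⟩ := coef_ext hm H.sep
  obtain ⟨C, hC⟩ := H.meas.du
  have hred : ∀ i, ∃ C ρ : ℝ, 0 < ρ ∧ ∀ χ ∈ UU G sg ρ,
      ‖χ (G.e i - algebraMap ℂ B (x (G.e i)))‖ ^ 2 ≤ C * nq (proj G.y χ) := fun i =>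
    H.sep.red hm H.red (by rw [map_sub, AlgHom.commutes, Algebra.algebraMap_self_apply, sub_self])
  choose Cr ρr hρr hr using hred
  choose Ce hCe using fun i => G.bdd (G.e i) (ρ₀ ^ 2)
  refine ⟨min ρ₀ ρ₁, lt_min hρ₀ H.meas.pos, ?_⟩
  intro ρ Q hρ hQ C₁
  have hρp : 0 < ρ := hQ.pos
  obtain ⟨C', hC'⟩ := hext ρ Q (hρ.trans (min_le_left _ _)) hQ (fun χ => ‖χ h‖ₑ ^ (-(2 * s))) C
    (fun χ hχ i => hC χ (idemL_VV_sub hρp.le (hρ.trans (min_le_right _ _)) hχ)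
      (hQ.D_ne _ hχ.1 hχ.2.1) i) (ρ / 2) (half_pos hρp) (half_lt_self hρp)
  set M : ℝ := √((C' * C₁ : ℝ≥0) : ℝ) with hM
  -- the radius
  obtain ⟨ρm, hρm, hρmle⟩ : ∃ ρm : ℝ, 0 < ρm ∧ ∀ i, ρm ≤ ρr i := by
    by_cases hd : Nonempty (Fin d)
    · obtain ⟨i, hi⟩ := Finite.exists_min ρr
      exact ⟨ρr i, hρr i, hi⟩
    · exact ⟨1, one_pos, fun i => absurd ⟨i⟩ hd⟩
  refine ⟨∑ i, (2 * M / (ρ / 2) * |Ce i| + M * √|Cr i|), min (ρ / 2) ρm,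
    lt_min (half_pos hρp) hρm, (min_le_left _ _).trans (half_le_self hρp.le), ?_⟩
  intro b hb hbC
  obtain ⟨ζ, hζ, -, hζ2, hζ3⟩ := hC' b hb (ne_top_of_le_ne_top ENNReal.coe_ne_top hbC)
  have hbd : ∀ i, ∀ w ∈ bal n (ρ / 2), ‖ζ i w‖ ≤ M := by
    intro i w hw
    have h1 : ‖ζ i w‖ₑ ^ 2 ≤ ((C' * C₁ : ℝ≥0) : ℝ≥0∞) := by
      refine (hζ3 i w (le_of_lt hw)).trans ?_
      rw [ENNReal.coe_mul]
      gcongr
    rw [hM]
    apply Real.le_sqrt_of_sq_le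
    have h2 : ‖ζ i w‖ₑ ^ 2 = ((‖ζ i w‖₊ ^ 2 : ℝ≥0) : ℝ≥0∞) := by
      rw [ENNReal.coe_pow]
      rfl
    rw [h2, ENNReal.coe_le_coe] at h1
    exact_mod_cast h1
  have hρ2 : 0 < ρ / 2 := half_pos hρp
  refine ⟨∑ i, ζ i 0 * x (G.e i), ?_⟩
  intro χ hχ
  have hχ1 : χ ∈ VV G sg Q ρ := ⟨hχ.1.trans_le (pow_le_pow_left₀
    (lt_min (half_pos hρp) hρm).le ((min_le_left _ _).trans (half_le_self hρp.le)) 2), hχ.2⟩
  have hχ2 : proj G.y χ ∈ bal n (ρ / 2) := hχ.1.trans_le (pow_le_pow_left₀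
    (lt_min (half_pos hρp) hρm).le (min_le_left _ _) 2)
  have h0 : (0 : Fin n → ℂ) ∈ bal n (ρ / 2) := by
    change nq (0 : Fin n → ℂ) < _
    rw [idemL_nq_zero]
    positivity
  have hsub : bal n (ρ / 2) ⊆ bal n ρ := fun w (hw : nq w < _) =>
    hw.trans_le (pow_le_pow_left₀ hρ2.le (half_le_self hρp.le) 2)
  rw [hζ2 χ hχ1, ← Finset.sum_sub_distrib, Finset.sum_mul]
  refine (norm_sum_le _ _).trans (Finset.sum_le_sum fun i _ => ?_)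
  have h1 : ζ i (proj G.y χ) * χ (G.e i) - ζ i 0 * x (G.e i) =
      (ζ i (proj G.y χ) - ζ i 0) * χ (G.e i) +
        ζ i 0 * χ (G.e i - algebraMap ℂ B (x (G.e i))) := by
    rw [map_sub, AlgHom.commutes, Algebra.algebraMap_self_apply]
    ring
  rw [h1, add_mul]
  refine (norm_add_le _ _).trans (add_le_add ?_ ?_)
  · rw [norm_mul]
    have h2 := idemL_schwarz hρ2 ((hζ i).mono hsub) (hbd i) hχ2
    have h3 : ‖χ (G.e i)‖ ≤ |Ce i| := by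
      refine (hCe i χ ?_).trans (le_abs_self _)
      refine (le_of_lt hχ1.1).trans (pow_le_pow_left₀ hρp.le (hρ.trans (min_le_left _ _)) 2)
    calc ‖ζ i (proj G.y χ) - ζ i 0‖ * ‖χ (G.e i)‖
        ≤ (2 * M / (ρ / 2) * √(nq (proj G.y χ))) * |Ce i| :=
          mul_le_mul h2 h3 (norm_nonneg _) ((norm_nonneg _).trans h2)
      _ = 2 * M / (ρ / 2) * |Ce i| * √(nq (proj G.y χ)) := by ring
  · rw [norm_mul]
    have h2 := hbd i 0 h0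
    have h3 : ‖χ (G.e i - algebraMap ℂ B (x (G.e i)))‖ ≤ √|Cr i| * √(nq (proj G.y χ)) := by
      rw [← Real.sqrt_mul (abs_nonneg _)]
      apply Real.le_sqrt_of_sq_le
      refine (hr i χ (idemL_VV_sub (lt_min hρ2 hρm).le
        ((min_le_right _ _).trans (hρmle i)) hχ)).trans ?_
      exact mul_le_mul_of_nonneg_right (le_abs_self _) (nq_nonneg _)
    calc ‖ζ i 0‖ * ‖χ (G.e i - algebraMap ℂ B (x (G.e i)))‖
        ≤ M * (√|Cr i| * √(nq (proj G.y χ))) :=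
          mul_le_mul h2 h3 (norm_nonneg _) ((norm_nonneg _).trans h2)
      _ = M * √|Cr i| * √(nq (proj G.y χ)) := by ring

end Pool.Agent.Odp2
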