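import Pool.Agent.Odp2.Horm.CutAux
import Pool.Agent.Work.MP_a2bf38_gt.Ch.Cal

/-!
# The Levi form of `log (|f₁|² + |f₂|²)` and the `∂bar`-derivative of `|f₁|² / (|f₁|² + |f₂|²)`
-/

open scoped ContDiff Topology ENNReal NNReal WithZero
open Set MeasureTheory Filter MvPolynomial Pool.Agent.ODP Pool.Agent.ToricKRF
  Pool.Agent.ToricKRF.G Pool.Agent.KRFS Pool.Agent.KRFQ

namespace Pool.Agent.Odp2

open Pool.Agent.KRFS.ABP (ip ip_self)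
open Pool.Agent.KRFX Pool.Agent.KRFF.NF Pool.Agent.KRFG Pool.Agent.KRFCh.Cp

variable {n l : ℕ}

/-- `|f₁|² + |f₂|²` -/
noncomputable def iS (f₁ f₂ : Cn n → ℂ) (z : Cn n) : ℝ := ‖f₁ z‖ ^ 2 + ‖f₂ z‖ ^ 2

/-- `|f₁|² / (|f₁|² + |f₂|²)` -/
noncomputable def iR (f₁ f₂ : Cn n → ℂ) (z : Cn n) : ℝ := ‖f₁ z‖ ^ 2 / iS f₁ f₂ z

theorem iS_pos {f₁ f₂ : Cn n → ℂ} {z : Cn n} (h0 : f₁ z ≠ 0 ∨ f₂ z ≠ 0) : 0 < iS f₁ f₂ z := by
  unfold iS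
  rcases h0 with h | h
  · have := norm_pos_iff.2 h
    positivity
  · have := norm_pos_iff.2 h
    positivity

theorem iS_eq_nsq (f₁ f₂ : Cn n → ℂ) (z : Cn n) : iS f₁ f₂ z = nsq (cutH ![f₁, f₂] z) := by
  rw [cut_nsq_H, Fin.sum_univ_two]
  rfl

theorem idem_fs (z u : Cn 2) :
    NC.fs z u = ‖cc z 1 * cc u 0 - cc z 0 * cc u 1‖ ^ 2 := by
  rw [← Complex.normSq_eq_norm_sq, Complex.normSq_apply]
  simp only [NC.fs, nsq, ip, J, cc, dotProduct, Fin.sum_univ_two, Complex.sub_re, Complex.sub_im,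
    Complex.mul_re, Complex.mul_im, Pi.neg_apply]
  ring

theorem cc_fderiv_cutH {L : ℕ} {F : Fin L → Cn n → ℂ} {S : Set (Cn n)} (hS : IsOpen S)
    (hF : ∀ i, HolC (F i) S) {z : Cn n} (hz : z ∈ S) (u : Cn n) (i : Fin L) :
    cc (fderiv ℝ (cutH F) z u) i = fderiv ℝ (F i) z u := by
  have hd : ∀ i, HasFDerivAt (F i) (fderiv ℝ (F i) z) z := fun i =>
    (((hF i).1.differentiableOn (by simp)).differentiableAt (hS.mem_nhds hz)).hasFDerivAt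
  have h1 : HasFDerivAt (fun z => fun i => (F i z).re)
      (ContinuousLinearMap.pi fun i => Complex.reCLM.comp (fderiv ℝ (F i) z)) z :=
    hasFDerivAt_pi.2 fun i => Complex.reCLM.hasFDerivAt.comp z (hd i)
  have h2 : HasFDerivAt (fun z => fun i => (F i z).im)
      (ContinuousLinearMap.pi fun i => Complex.imCLM.comp (fderiv ℝ (F i) z)) z :=
    hasFDerivAt_pi.2 fun i => Complex.imCLM.hasFDerivAt.comp z (hd i)
  have h3 : fderiv ℝ (cutH F) z = _ := (h1.prodMk h2).fderiv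
  rw [h3]
  apply Complex.ext <;> simp [cc]

/-- the Levi form of `log (|f₁|² + |f₂|²)` -/
theorem idem_levz {f₁ f₂ : Cn n → ℂ} {S : Set (Cn n)} (hS : IsOpen S) (h₁ : HolC f₁ S)
    (h₂ : HolC f₂ S) {z : Cn n} (hz : z ∈ S) (h0 : f₁ z ≠ 0 ∨ f₂ z ≠ 0) (u : Cn n) :
    levz (fun z => Real.log (iS f₁ f₂ z)) u z =
      ‖f₂ z * fderiv ℝ f₁ z u - f₁ z * fderiv ℝ f₂ z u‖ ^ 2 / iS f₁ f₂ z ^ 2 := by
  have hF : ∀ i, HolC ((![f₁, f₂] : Fin 2 → Cn n → ℂ) i) S := by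
    intro i
    fin_cases i
    · exact h₁
    · exact h₂
  have h1 : (fun z => Real.log (iS f₁ f₂ z)) =
      fun z => (fun w : Cn 2 => Real.log (nsq w)) (cutH ![f₁, f₂] z) := by
    funext z
    rw [iS_eq_nsq]
  have hpos := iS_pos h0
  have hne : nsq (cutH ![f₁, f₂] z) ≠ 0 := by
    rw [← iS_eq_nsq]
    exact hpos.ne'
  have ho : IsOpen {w : Cn 2 | nsq w ≠ 0} :=
    isOpen_ne.preimage (NC.contDiff_nsq (l := 2)).continuous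
  rw [h1, levz_comp ho NC.contDiffOn_log_nsq hS (cut_holOn_H hS hF) hz hne,
    NC.levz_log_nsq hne, idem_fs, cc_fderiv_cutH hS hF hz, cc_fderiv_cutH hS hF hz, ← iS_eq_nsq]
  rfl

theorem idem_levz_nonneg {f₁ f₂ : Cn n → ℂ} {S : Set (Cn n)} (hS : IsOpen S) (h₁ : HolC f₁ S)
    (h₂ : HolC f₂ S) {z : Cn n} (hz : z ∈ S) (h0 : f₁ z ≠ 0 ∨ f₂ z ≠ 0) (u : Cn n) :
    0 ≤ levz (fun z => Real.log (iS f₁ f₂ z)) u z := by
  rw [idem_levz hS h₁ h₂ hz h0]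
  positivity

theorem contDiffOn_normsq {f : Cn n → ℂ} {S : Set (Cn n)} (h : HolC f S) :
    ContDiffOn ℝ ∞ (fun z => ‖f z‖ ^ 2) S := by
  have h1 := h.1
  have h2 : (fun z => ‖f z‖ ^ 2) = fun z => (f z).re * (f z).re + (f z).im * (f z).im := by
    funext z
    rw [← Complex.normSq_eq_norm_sq, Complex.normSq_apply]
  rw [h2]
  have hre : ContDiffOn ℝ ∞ (fun z : Cn n => (f z).re) S :=
    Complex.reCLM.contDiff.comp_contDiffOn h1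
  have him : ContDiffOn ℝ ∞ (fun z : Cn n => (f z).im) S :=
    Complex.imCLM.contDiff.comp_contDiffOn h1
  exact (hre.mul hre).add (him.mul him)

theorem contDiffOn_iS {f₁ f₂ : Cn n → ℂ} {S : Set (Cn n)} (h₁ : HolC f₁ S)
    (h₂ : HolC f₂ S) : ContDiffOn ℝ ∞ (iS f₁ f₂) S :=
  (contDiffOn_normsq h₁).add (contDiffOn_normsq h₂)

theorem contDiffOn_log_iS {f₁ f₂ : Cn n → ℂ} {S : Set (Cn n)} (h₁ : HolC f₁ S)
    (h₂ : HolC f₂ S) (h0 : ∀ z ∈ S, f₁ z ≠ 0 ∨ f₂ z ≠ 0) :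
    ContDiffOn ℝ ∞ (fun z => Real.log (iS f₁ f₂ z)) S :=
  (contDiffOn_iS h₁ h₂).log fun z hz => (iS_pos (h0 z hz)).ne'

theorem contDiffOn_iR {f₁ f₂ : Cn n → ℂ} {S : Set (Cn n)} (h₁ : HolC f₁ S)
    (h₂ : HolC f₂ S) (h0 : ∀ z ∈ S, f₁ z ≠ 0 ∨ f₂ z ≠ 0) :
    ContDiffOn ℝ ∞ (iR f₁ f₂) S :=
  (contDiffOn_normsq h₁).div (contDiffOn_iS h₁ h₂) fun z hz => (iS_pos (h0 z hz)).ne'

theorem D_normsq {f : Cn n → ℂ} {z : Cn n} (h : DifferentiableAt ℝ f z) (u : Cn n) :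
    D u (fun z => ‖f z‖ ^ 2) z =
      2 * ((f z).re * (fderiv ℝ f z u).re + (f z).im * (fderiv ℝ f z u).im) := by
  have h2 : (fun z => ‖f z‖ ^ 2) = fun z => (f z).re * (f z).re + (f z).im * (f z).im := by
    funext z
    rw [← Complex.normSq_eq_norm_sq, Complex.normSq_apply]
  have hre : HasFDerivAt (fun z : Cn n => (f z).re) (Complex.reCLM.comp (fderiv ℝ f z)) z :=
    Complex.reCLM.hasFDerivAt.comp z h.hasFDerivAt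
  have him : HasFDerivAt (fun z : Cn n => (f z).im) (Complex.imCLM.comp (fderiv ℝ f z)) z :=
    Complex.imCLM.hasFDerivAt.comp z h.hasFDerivAt
  have h3 := ((hre.fun_mul hre).fun_add (him.fun_mul him)).fderiv
  unfold D
  rw [h2, h3]
  simp
  ring

theorem idem_alg (a₁ b₁ a₂ b₂ p₁ q₁ p₂ q₂ N₁ N₂ : ℝ) (e₁ : N₁ = a₁ * a₁ + b₁ * b₁)
    (e₂ : N₂ = a₂ * a₂ + b₂ * b₂) (h : N₁ + N₂ ≠ 0) :
    (((2 * (a₁ * p₁ + b₁ * q₁) * N₂ - N₁ * (2 * (a₂ * p₂ + b₂ * q₂))) / (N₁ + N₂) ^ 2) ^ 2 +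
      ((2 * (a₁ * -q₁ + b₁ * p₁) * N₂ - N₁ * (2 * (a₂ * -q₂ + b₂ * p₂))) /
        (N₁ + N₂) ^ 2) ^ 2) / 4 =
    N₁ / (N₁ + N₂) * (1 - N₁ / (N₁ + N₂)) *
      (((a₂ * p₁ - b₂ * q₁ - (a₁ * p₂ - b₁ * q₂)) * (a₂ * p₁ - b₂ * q₁ - (a₁ * p₂ - b₁ * q₂)) +
        (a₂ * q₁ + b₂ * p₁ - (a₁ * q₂ + b₁ * p₂)) * (a₂ * q₁ + b₂ * p₁ - (a₁ * q₂ + b₁ * p₂))) /
        (N₁ + N₂) ^ 2) := by
  have h1 : 1 - N₁ / (N₁ + N₂) = N₂ / (N₁ + N₂) := by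
    field_simp
    ring
  rw [h1]
  simp only [div_eq_mul_inv, ← inv_pow]
  generalize (N₁ + N₂)⁻¹ = i
  rw [e₁, e₂]
  ring

/-- `|∂ R|²` for `R = |f₁|² / (|f₁|² + |f₂|²)` -/
theorem idem_dsq {f₁ f₂ : Cn n → ℂ} {S : Set (Cn n)} (hS : IsOpen S) (h₁ : HolC f₁ S)
    (h₂ : HolC f₂ S) {z : Cn n} (hz : z ∈ S) (h0 : f₁ z ≠ 0 ∨ f₂ z ≠ 0) (u : Cn n) :
    dsq (iR f₁ f₂) u z = iR f₁ f₂ z * (1 - iR f₁ f₂ z) *
      levz (fun z => Real.log (iS f₁ f₂ z)) u z := by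
  have hd₁ : DifferentiableAt ℝ f₁ z :=
    (h₁.1.differentiableOn (by simp)).differentiableAt (hS.mem_nhds hz)
  have hd₂ : DifferentiableAt ℝ f₂ z :=
    (h₂.1.differentiableOn (by simp)).differentiableAt (hS.mem_nhds hz)
  have hn₁ : DifferentiableAt ℝ (fun z => ‖f₁ z‖ ^ 2) z :=
    ((contDiffOn_normsq h₁).differentiableOn (by simp)).differentiableAt (hS.mem_nhds hz)
  have hn₂ : DifferentiableAt ℝ (fun z => ‖f₂ z‖ ^ 2) z :=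
    ((contDiffOn_normsq h₂).differentiableOn (by simp)).differentiableAt (hS.mem_nhds hz)
  have hpos := iS_pos h0
  have key : ∀ w : Cn n, D w (iR f₁ f₂) z =
      (D w (fun z => ‖f₁ z‖ ^ 2) z * ‖f₂ z‖ ^ 2 - ‖f₁ z‖ ^ 2 * D w (fun z => ‖f₂ z‖ ^ 2) z) /
        iS f₁ f₂ z ^ 2 := by
    intro w
    have hs : HasFDerivAt (iS f₁ f₂) (fderiv ℝ (fun z => ‖f₁ z‖ ^ 2) z +
        fderiv ℝ (fun z => ‖f₂ z‖ ^ 2) z) z := hn₁.hasFDerivAt.fun_add hn₂.hasFDerivAt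
    have hi : HasFDerivAt (fun z => (iS f₁ f₂ z)⁻¹)
        (-((iS f₁ f₂ z) ^ 2)⁻¹ • (fderiv ℝ (fun z => ‖f₁ z‖ ^ 2) z +
        fderiv ℝ (fun z => ‖f₂ z‖ ^ 2) z)) z := (hasDerivAt_inv hpos.ne').comp_hasFDerivAt z hs
    have h3 := (hn₁.hasFDerivAt.fun_mul hi).fderiv
    have h4 : iR f₁ f₂ = fun z => ‖f₁ z‖ ^ 2 * (iS f₁ f₂ z)⁻¹ := by
      funext z
      rw [iR, div_eq_mul_inv]
    unfold D
    rw [h4, h3]
    simp only [smul_apply, add_apply, smul_eq_mul]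
    have h5 : iS f₁ f₂ z = ‖f₁ z‖ ^ 2 + ‖f₂ z‖ ^ 2 := rfl
    have h6 : ‖f₁ z‖ ^ 2 + ‖f₂ z‖ ^ 2 ≠ 0 := by
      rw [← h5]
      exact hpos.ne'
    rw [h5]
    field_simp
    ring
  have hJ₁ := h₁.2 z hz u
  have hJ₂ := h₂.2 z hz u
  rw [idem_levz hS h₁ h₂ hz h0]
  unfold dsq
  rw [key, key, D_normsq hd₁, D_normsq hd₂, D_normsq hd₁, D_normsq hd₂, hJ₁, hJ₂]
  have h6 : iR f₁ f₂ z = ‖f₁ z‖ ^ 2 / (‖f₁ z‖ ^ 2 + ‖f₂ z‖ ^ 2) := rfl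
  rw [h6, ← Complex.normSq_eq_norm_sq (f₂ z * fderiv ℝ f₁ z u - f₁ z * fderiv ℝ f₂ z u),
    Complex.normSq_apply]
  have e₁ : ‖f₁ z‖ ^ 2 = (f₁ z).re * (f₁ z).re + (f₁ z).im * (f₁ z).im := by
    rw [← Complex.normSq_eq_norm_sq, Complex.normSq_apply]
  have e₂ : ‖f₂ z‖ ^ 2 = (f₂ z).re * (f₂ z).re + (f₂ z).im * (f₂ z).im := by
    rw [← Complex.normSq_eq_norm_sq, Complex.normSq_apply]
  have h := idem_alg _ _ _ _ (fderiv ℝ f₁ z u).re (fderiv ℝ f₁ z u).im (fderiv ℝ f₂ z u).re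
    (fderiv ℝ f₂ z u).im _ _ e₁ e₂ hpos.ne'
  have i1 : ∀ c : ℂ, (Complex.I * c).re = -c.im := fun c => by simp
  have i2 : ∀ c : ℂ, (Complex.I * c).im = c.re := fun c => by simp
  simp only [i1, i2, Complex.sub_re, Complex.sub_im, Complex.mul_re, Complex.mul_im]
  exact h

theorem cn_sum (v : Cn n) : v = ∑ k, (v.1 k • eR k + v.2 k • eI k) := by
  rw [Finset.sum_add_distrib]
  exact cn_eq_sum v

/-- the `∂bar`-derivative of a real function -/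
theorem dzb_real_sum {r : Cn n → ℝ} {z : Cn n} (hr : DifferentiableAt ℝ r z) (v : Cn n) :
    ‖∑ j, dzb j (fun z => ((r z : ℝ) : ℂ)) z * (starRingEnd ℂ) (cc v j)‖ ^ 2 = dsq r v z := by
  have h1 : HasFDerivAt (fun z => ((r z : ℝ) : ℂ)) (Complex.ofRealCLM.comp (fderiv ℝ r z)) z :=
    Complex.ofRealCLM.hasFDerivAt.comp z hr.hasFDerivAt
  have h2 : ∀ j, dzb j (fun z => ((r z : ℝ) : ℂ)) z * (starRingEnd ℂ) (cc v j) =
      ⟨(v.1 j * D (eR j) r z + v.2 j * D (eI j) r z) / 2,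
        (-v.2 j * D (eR j) r z + v.1 j * D (eI j) r z) / 2⟩ := by
    intro j
    unfold dzb D
    rw [h1.fderiv]
    apply Complex.ext
    · simp [cc]
      ring
    · simp [cc]
      ring
  have hlin : ∀ w : Cn n, D w r z = ∑ j, (w.1 j * D (eR j) r z + w.2 j * D (eI j) r z) := by
    intro w
    unfold D
    conv_lhs => rw [cn_sum w]
    rw [map_sum]
    refine Finset.sum_congr rfl fun j _ => ?_
    rw [map_add, map_smul, map_smul]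
    rfl
  rw [← Complex.normSq_eq_norm_sq, Complex.normSq_apply, Complex.re_sum, Complex.im_sum]
  simp only [h2]
  rw [← Finset.sum_div, ← Finset.sum_div, ← hlin v]
  have h3 : ∑ j, (-v.2 j * D (eR j) r z + v.1 j * D (eI j) r z) = D (J v) r z :=
    (hlin (J v)).symm
  rw [h3]
  unfold dsq
  ring

theorem iR_mul_le {f₁ f₂ : Cn n → ℂ} {z : Cn n} (h0 : f₁ z ≠ 0 ∨ f₂ z ≠ 0) :
    0 ≤ iR f₁ f₂ z ∧ iR f₁ f₂ z ≤ 1 ∧ iR f₁ f₂ z * (1 - iR f₁ f₂ z) ≤ 1 := by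
  have hpos := iS_pos h0
  have h1 : 0 ≤ iR f₁ f₂ z := by
    unfold iR
    positivity
  have h2 : iR f₁ f₂ z ≤ 1 := by
    unfold iR
    rw [div_le_one hpos]
    unfold iS
    nlinarith [sq_nonneg ‖f₂ z‖]
  exact ⟨h1, h2, by nlinarith⟩

/-- the `∂bar`-derivative of `φ (R)` -/
theorem idem_dbar {f₁ f₂ : Cn n → ℂ} {S : Set (Cn n)} (hS : IsOpen S) (h₁ : HolC f₁ S)
    (h₂ : HolC f₂ S) {z : Cn n} (hz : z ∈ S) (h0 : ∀ z ∈ S, f₁ z ≠ 0 ∨ f₂ z ≠ 0)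
    {φ : ℝ → ℝ} (hφ : ContDiff ℝ ∞ φ) (v : Cn n) :
    ‖∑ j, dzb j (fun z => ((φ (iR f₁ f₂ z) : ℝ) : ℂ)) z * (starRingEnd ℂ) (cc v j)‖ ^ 2 =
      deriv φ (iR f₁ f₂ z) ^ 2 * (iR f₁ f₂ z * (1 - iR f₁ f₂ z)) *
        levz (fun z => Real.log (iS f₁ f₂ z)) v z := by
  have hR : DifferentiableAt ℝ (iR f₁ f₂) z :=
    ((contDiffOn_iR h₁ h₂ h0).differentiableOn (by simp)).differentiableAt (hS.mem_nhds hz)
  have hφ' : DifferentiableAt ℝ φ (iR f₁ f₂ z) := (hφ.differentiable (by simp)) _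
  rw [dzb_real_sum (r := fun z => φ (iR f₁ f₂ z)) (hφ'.comp z hR), dsq_fun hφ' hR,
    idem_dsq hS h₁ h₂ hz (h0 z hz)]
  ring

end Pool.Agent.Odp2
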