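import Pool.Agent.Odp2.Eq.IdemDefs
import Pool.Agent.Odp2.Eq.IdemCalc

open scoped ContDiff Topology ENNReal NNReal WithZero
open Set MeasureTheory Filter MvPolynomial Pool.Agent.ODP
  Pool.Agent.ToricKRF
  Pool.Agent.ToricKRF.G Pool.Agent.KRFS Pool.Agent.KRFQ

namespace Pool.Agent.Odp2

theorem contDiff_stp : ContDiff ℝ ∞ stp := by
  unfold stp
  exact (Real.smoothTransition.contDiff (n := ⊤)).comp
    ((contDiff_const.mul contDiff_id).sub contDiff_const)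

/-- Calculus: the Levi form of `log (|f|² + |g|²)` and the `∂bar` of the cut-off function. -/
theorem lev_logsum {n : ℕ} {Ω : Set (Fin n → ℂ)} (hΩ : IsOpen Ω) {f g : (Fin n → ℂ) → ℂ}
    (hf : DifferentiableOn ℂ f Ω) (hg : DifferentiableOn ℂ g Ω)
    (hne : ∀ w ∈ Ω, f w ≠ 0 ∨ g w ≠ 0) (z : Cn n) (hz : cc z ∈ Ω) (v : Cn n) :
    0 ≤ levz (fun z => Real.log (‖f (cc z)‖ ^ 2 + ‖g (cc z)‖ ^ 2)) v z ∧
      ‖∑ j, dzb j (fun z => ((stp (rat (f (cc z)) (g (cc z))) : ℝ) : ℂ)) z *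
          (starRingEnd ℂ) (cc v j)‖ ^ 2 ≤
        (deriv stp (rat (f (cc z)) (g (cc z)))) ^ 2 *
          levz (fun z => Real.log (‖f (cc z)‖ ^ 2 + ‖g (cc z)‖ ^ 2)) v z := by
  have hS : IsOpen {z : Cn n | cc z ∈ Ω} := cut_isOpen hΩ
  have h1 := cut_holC hΩ hf
  have h2 := cut_holC hΩ hg
  have h3 : 0 ≤ levz (fun z => Real.log (‖f (cc z)‖ ^ 2 + ‖g (cc z)‖ ^ 2)) v z :=
    idem_levz_nonneg hS h1 h2 (z := z) hz (hne _ hz) v
  refine ⟨h3, ?_⟩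
  have h4 := idem_dbar hS h1 h2 (z := z) hz (fun z hz => hne _ hz) contDiff_stp v
  have h5 := (iR_mul_le (f₁ := fun z : Cn n => f (cc z)) (f₂ := fun z : Cn n => g (cc z))
    (z := z) (hne _ hz)).2.2
  refine (le_of_eq h4).trans ?_
  refine mul_le_mul_of_nonneg_right ?_ h3
  exact mul_le_of_le_one_right (sq_nonneg _) h5

end Pool.Agent.Odp2
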