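import Pool.Agent.Odp2.Eq.Defs

open scoped ContDiff Topology ENNReal NNReal WithZero
open Set MeasureTheory Filter MvPolynomial Pool.Agent.ODP

namespace Pool.Agent.Odp2

/-- A smooth step function: `0` for `t ≤ 1/3`, `1` for `t ≥ 2/3`. -/
noncomputable def stp (t : ℝ) : ℝ := Real.smoothTransition (3 * t - 1)

/-- `|f|² / (|f|² + |g|²)` -/
noncomputable def rat (f g : ℂ) : ℝ := ‖f‖ ^ 2 / (‖f‖ ^ 2 + ‖g‖ ^ 2)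

/-- The hypotheses of the idempotent lemma. -/
structure IsPair {n d : ℕ} {B : Type} [CommRing B] [Algebra ℂ B] (G : Germ n d B) (sg : B) (ρ : ℝ)
    (A : (Fin n → ℂ) → ℂ) (o : ℕ) (f₁ f₂ : Pt B → ℂ) (M : ℕ) : Prop where
  A_holo : DifferentiableOn ℂ A (bal n ρ)
  o_pos : 1 ≤ o
  A_ord : ¬ OrdGe A (o + 1)
  holo₁ : HolV G (VV G sg (fun w => eval w G.D) ρ) f₁
  holo₂ : HolV G (VV G sg (fun w => eval w G.D) ρ) f₂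
  bdd : ∃ C : ℝ, ∀ χ ∈ VV G sg (fun w => eval w G.D) ρ, ‖f₁ χ‖ ≤ C ∧ ‖f₂ χ‖ ≤ C
  sum : ∀ χ ∈ VV G sg (fun w => eval w G.D) ρ, f₁ χ + f₂ χ = A (proj G.y χ)
  mul : ∃ C : ℝ, ∀ χ ∈ VV G sg (fun w => eval w G.D) ρ,
    ‖f₁ χ * f₂ χ‖ ≤ C * √(nq (proj G.y χ)) ^ M

end Pool.Agent.Odp2
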