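import Pool.Agent.Odp2.Defs

/-!
# Local integrability of `|A|^(-2s)` for `s < 1 / ord A`
-/

open Set MeasureTheory Filter Metric
open scoped ENNReal NNReal Topology

namespace Pool.Agent.Odp2

/-! ### Divided differences -/

theorem inta_dslope_bound {R M : ℝ} (hR : 0 < R) {h : ℂ → ℂ}
    (hh : DifferentiableOn ℂ h (ball 0 R)) (hM : ∀ z ∈ ball (0 : ℂ) R, ‖h z‖ ≤ M) {b : ℂ}
    (hb : ‖b‖ < R / 2) : ∀ z ∈ ball (0 : ℂ) R, ‖dslope h b z‖ ≤ 8 / R * M := by
  intro z hz
  have hb' : b ∈ ball (0 : ℂ) R := by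
    rw [mem_ball_zero_iff]
    linarith
  have hd : DifferentiableOn ℂ (dslope h b) (ball 0 R) :=
    (Complex.differentiableOn_dslope (isOpen_ball.mem_nhds hb')).2 hh
  rw [mem_ball_zero_iff] at hz
  obtain ⟨R', h1, h2⟩ := exists_between (max_lt hz (by linarith : 3 * R / 4 < R))
  have h3 : ‖z‖ < R' := (le_max_left _ _).trans_lt h1
  have h4 : 3 * R / 4 < R' := (le_max_right _ _).trans_lt h1
  have h5 : DiffContOnCl ℂ (dslope h b) (ball 0 R') := by
    apply DifferentiableOn.diffContOnCl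
    refine hd.mono ?_
    refine (closure_ball_subset_closedBall).trans ?_
    exact closedBall_subset_ball h2
  refine Complex.norm_le_of_forall_mem_frontier_norm_le isBounded_ball h5 ?_
    (subset_closure (mem_ball_zero_iff.2 h3))
  intro w hw
  rw [frontier_ball _ (by linarith), mem_sphere_zero_iff_norm] at hw
  have h6 : R / 4 ≤ ‖w - b‖ := by
    have := norm_sub_norm_le w b
    linarith
  have h7 : w ≠ b := by
    rintro rfl
    rw [sub_self, norm_zero] at h6
    linarith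
  rw [dslope_of_ne _ h7, slope_def_field, norm_div]
  have h8 : ‖h w - h b‖ ≤ 2 * M := by
    have h9 := hM w (mem_ball_zero_iff.2 (by linarith))
    have h10 := hM b hb'
    linarith [norm_sub_le (h w) (h b)]
  have hM0 : 0 ≤ M := (norm_nonneg _).trans (hM b hb')
  calc ‖h w - h b‖ / ‖w - b‖ ≤ 2 * M / (R / 4) := by
        apply div_le_div₀ (by linarith) h8 (by linarith) h6
    _ = 8 / R * M := by
        field_simp
        ring

theorem inta_lower {R δ : ℝ} (hR : 0 < R) (hδ : 0 < δ) (a : ℂ) : ∀ (j : ℕ)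
    (q : Polynomial ℂ), q.Monic → q.natDegree = j → ∀ (h : ℂ → ℂ) (M ε : ℝ),
    DifferentiableOn ℂ h (ball 0 R) → (∀ z ∈ ball (0 : ℂ) R, ‖h z‖ ≤ M) →
    ∀ z : Fin (j + 1) → ℂ, (∀ i, ‖z i‖ < R / 2) → (∀ i k, i ≠ k → δ ≤ ‖z i - z k‖) →
    (∀ i, ‖a * q.eval (z i) + h (z i)‖ ≤ ε) →
    ‖a‖ ≤ (2 / δ) ^ j * ε + (8 / R) ^ j * M := by
  intro j
  induction j with
  | zero =>
    intro q hq hd h M ε hh hM z hz hs hε
    have h1 : q = 1 := hq.natDegree_eq_zero.1 hd
    have h2 := hε 0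
    rw [h1, Polynomial.eval_one, mul_one] at h2
    have h3 := hM (z 0) (mem_ball_zero_iff.2 (by linarith [hz 0]))
    rw [pow_zero, pow_zero, one_mul, one_mul]
    calc ‖a‖ = ‖a + h (z 0) - h (z 0)‖ := by rw [add_sub_cancel_right]
      _ ≤ _ := (norm_sub_le _ _).trans (add_le_add h2 h3)
  | succ j ih =>
    intro q hq hd h M ε hh hM z hz hs hε
    set b := z 0 with hb
    have hbR := hz 0
    have hb' : b ∈ ball (0 : ℂ) R := by
      rw [mem_ball_zero_iff]
      linarith
    have hmon : (Polynomial.X - Polynomial.C b : Polynomial ℂ).Monic := Polynomial.monic_X_sub_C b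
    set q' := q /ₘ (Polynomial.X - Polynomial.C b) with hq'
    have hqq : q = Polynomial.C (q.eval b) + (Polynomial.X - Polynomial.C b) * q' := by
      conv_lhs => rw [← Polynomial.modByMonic_add_div q (Polynomial.X - Polynomial.C b)]
      rw [Polynomial.modByMonic_X_sub_C_eq_C_eval]
    have hq'd : q'.natDegree = j := by
      rw [hq', Polynomial.natDegree_divByMonic _ hmon, hd, Polynomial.natDegree_X_sub_C]
      rfl
    have hq'm : q'.Monic := by
      have h1 := Polynomial.leadingCoeff_divByMonic_of_monic (p := q) hmon (by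
        rw [Polynomial.degree_X_sub_C, Polynomial.degree_eq_natDegree hq.ne_zero, hd]
        norm_cast
        omega)
      rw [Polynomial.Monic, hq', h1, hq.leadingCoeff]
    have h1 := ih q' hq'm hq'd (dslope h b) (8 / R * M) (2 / δ * ε)
      ((Complex.differentiableOn_dslope (isOpen_ball.mem_nhds hb')).2 hh)
      (inta_dslope_bound hR hh hM hbR) (fun i => z i.succ) (fun i => hz _)
      (fun i k hik => hs _ _ (fun h => hik (Fin.succ_injective _ h))) (fun i => by
        have h2 : δ ≤ ‖z i.succ - b‖ := hs _ _ (Fin.succ_ne_zero i)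
        have h3 : z i.succ ≠ b := by
          intro h4
          rw [h4, sub_self, norm_zero] at h2
          linarith
        have h3' : z i.succ - b ≠ 0 := sub_ne_zero.2 h3
        have h4 : a * q'.eval (z i.succ) + dslope h b (z i.succ) =
            ((a * q.eval (z i.succ) + h (z i.succ)) - (a * q.eval b + h b)) / (z i.succ - b) := by
          rw [dslope_of_ne _ h3, slope_def_field]
          conv_rhs => rw [hqq]
          simp only [Polynomial.eval_add, Polynomial.eval_mul, Polynomial.eval_sub,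
            Polynomial.eval_X, Polynomial.eval_C, sub_self, zero_mul, add_zero]
          field_simp
          ring
        rw [h4, norm_div]
        have h5 : ‖(a * q.eval (z i.succ) + h (z i.succ)) - (a * q.eval b + h b)‖ ≤ 2 * ε := by
          have h6 := hε i.succ
          have h7 := hε 0
          linarith [norm_sub_le (a * q.eval (z i.succ) + h (z i.succ)) (a * q.eval b + h b)]
        calc _ ≤ 2 * ε / δ := by
              apply div_le_div₀ ((norm_nonneg _).trans h5) h5 hδ h2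
          _ = _ := by ring)
    calc ‖a‖ ≤ (2 / δ) ^ j * (2 / δ * ε) + (8 / R) ^ j * (8 / R * M) := h1
      _ = _ := by ring

/-! ### Coverings -/

theorem inta_cover {X : Type*} [PseudoMetricSpace X] (S : Set X) (δ : ℝ) : ∀ j : ℕ,
    (∃ z : Fin (j + 1) → X, (∀ i, z i ∈ S) ∧ ∀ i k, i ≠ k → δ ≤ dist (z i) (z k)) ∨
      ∃ T : Finset X, T.card ≤ j ∧ S ⊆ ⋃ t ∈ T, ball t δ := by
  classical
  intro j
  induction j with
  | zero =>
    rcases S.eq_empty_or_nonempty with h | ⟨x, hx⟩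
    · exact Or.inr ⟨∅, le_rfl, by rw [h]; exact empty_subset _⟩
    · refine Or.inl ⟨fun _ => x, fun _ => hx, fun i k hik => absurd (Fin.ext (by omega)) hik⟩
  | succ j ih =>
    rcases ih with ⟨z, hz, hs⟩ | ⟨T, hT, hS⟩
    · by_cases hc : S ⊆ ⋃ t ∈ Finset.univ.image z, ball t δ
      · refine Or.inr ⟨Finset.univ.image z, ?_, hc⟩
        exact Finset.card_image_le.trans (by rw [Finset.card_univ, Fintype.card_fin])
      · rw [not_subset] at hc
        obtain ⟨x, hx, hx'⟩ := hc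
        have h1 : ∀ i, δ ≤ dist x (z i) := by
          intro i
          by_contra h
          rw [not_le] at h
          exact hx' (mem_iUnion₂.2 ⟨z i, Finset.mem_image_of_mem _ (Finset.mem_univ i), h⟩)
        refine Or.inl ⟨Fin.cons x z, ?_, ?_⟩
        · intro i
          refine Fin.cases ?_ (fun i => ?_) i
          · exact hx
          · rw [Fin.cons_succ]
            exact hz i
        · intro i k
          refine Fin.cases ?_ (fun i => ?_) i
          · refine Fin.cases ?_ (fun k => ?_) k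
            · intro h
              exact absurd rfl h
            · intro _
              rw [Fin.cons_zero, Fin.cons_succ]
              exact h1 k
          · refine Fin.cases ?_ (fun k => ?_) k
            · intro _
              rw [Fin.cons_zero, Fin.cons_succ, dist_comm]
              exact h1 i
            · intro h
              rw [Fin.cons_succ, Fin.cons_succ]
              exact hs i k (fun h' => h (by rw [h']))
    · exact Or.inr ⟨T, hT.trans (Nat.le_succ j), hS⟩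

/-- The distribution function on a slice. -/
theorem inta_slice {R M : ℝ} (hR : 0 < R) {a : ℂ} (ha : a ≠ 0) {j : ℕ} (hj : 0 < j)
    {h : ℂ → ℂ} (hh : DifferentiableOn ℂ h (ball 0 R)) (hM : ∀ z ∈ ball (0 : ℂ) R, ‖h z‖ ≤ M)
    (hMa : (8 / R) ^ j * M ≤ ‖a‖ / 2) {ε : ℝ} (hε : 0 < ε) :
    volume {z : ℂ | z ∈ ball (0 : ℂ) (R / 2) ∧ ‖a * z ^ j + h z‖ ≤ ε} ≤
      j * (ENNReal.ofReal (((2 ^ (j + 2) / ‖a‖) ^ (1 / (j : ℝ))) * ε ^ (1 / (j : ℝ))) ^ 2 *
        NNReal.pi) := by
  have ha' : 0 < ‖a‖ := norm_pos_iff.2 ha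
  set δ : ℝ := ((2 ^ (j + 2) / ‖a‖) ^ (1 / (j : ℝ))) * ε ^ (1 / (j : ℝ)) with hδ
  have hδ0 : 0 < δ := by positivity
  have hδj : δ ^ j = 2 ^ (j + 2) / ‖a‖ * ε := by
    rw [hδ, mul_pow, one_div, Real.rpow_inv_natCast_pow (by positivity) hj.ne',
      Real.rpow_inv_natCast_pow hε.le hj.ne']
  rcases inta_cover {z : ℂ | z ∈ ball (0 : ℂ) (R / 2) ∧ ‖a * z ^ j + h z‖ ≤ ε} δ j with
    ⟨z, hz, hs⟩ | ⟨T, hT, hS⟩
  · exfalso
    have h1 := inta_lower hR hδ0 a j (Polynomial.X ^ j) (Polynomial.monic_X_pow j)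
      (Polynomial.natDegree_X_pow j) h M ε hh hM z (fun i => mem_ball_zero_iff.1 (hz i).1)
      (fun i k hik => by rw [← dist_eq_norm]; exact hs i k hik) (fun i => by
        rw [Polynomial.eval_pow, Polynomial.eval_X]
        exact (hz i).2)
    have h2 : (2 / δ) ^ j * ε = ‖a‖ / 4 := by
      rw [div_pow, hδj, pow_add]
      field_simp
      norm_num
    linarith
  · calc volume {z : ℂ | z ∈ ball (0 : ℂ) (R / 2) ∧ ‖a * z ^ j + h z‖ ≤ ε}
        ≤ volume (⋃ t ∈ T, ball t δ) := measure_mono hS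
      _ ≤ ∑ t ∈ T, volume (ball t δ) := measure_biUnion_finset_le T _
      _ = T.card * (ENNReal.ofReal δ ^ 2 * NNReal.pi) := by
          simp only [Complex.volume_ball, Finset.sum_const, nsmul_eq_mul]
      _ ≤ _ := by gcongr

/-! ### From the distribution function to the integral -/

theorem inta_one_le {a : ℝ≥0∞} {p : ℝ} (ha : 1 ≤ a) (hp : 0 ≤ p) : 1 ≤ a ^ p := by
  calc (1 : ℝ≥0∞) = 1 ^ p := (ENNReal.one_rpow p).symm
    _ ≤ a ^ p := ENNReal.rpow_le_rpow ha hp

theorem inta_point {p : ℝ} (hp : 0 ≤ p) (g : ℝ≥0∞) :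
    g ^ (-p) ≤ 1 + ∑' m : ℕ, if g ≤ (2 : ℝ≥0∞) ^ (-(m : ℝ)) then
      (2 : ℝ≥0∞) ^ (p * ((m : ℝ) + 1)) else 0 := by
  rcases eq_or_ne g 0 with h0 | h0
  · have h1 : ∀ m : ℕ, (1 : ℝ≥0∞) ≤ if g ≤ (2 : ℝ≥0∞) ^ (-(m : ℝ)) then
        (2 : ℝ≥0∞) ^ (p * ((m : ℝ) + 1)) else 0 := by
      intro m
      rw [if_pos (by rw [h0]; exact zero_le)]
      exact inta_one_le (by norm_num) (by positivity)
    have h2 : (∑' m : ℕ, if g ≤ (2 : ℝ≥0∞) ^ (-(m : ℝ)) then
        (2 : ℝ≥0∞) ^ (p * ((m : ℝ) + 1)) else 0) = ⊤ := by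
      refine top_unique ((ENNReal.tsum_const_eq_top_of_ne_zero (α := ℕ)
        (one_ne_zero (α := ℝ≥0∞))).symm.le.trans ?_)
      exact ENNReal.tsum_le_tsum h1
    rw [h2, add_top]
    exact le_top
  rcases lt_or_ge 1 g with h1 | h1
  · refine le_trans ?_ le_self_add
    rw [ENNReal.rpow_neg]
    exact ENNReal.inv_le_one.2 (inta_one_le h1.le hp)
  · have hex : ∃ m : ℕ, ¬ g ≤ (2 : ℝ≥0∞) ^ (-((m : ℝ) + 1)) := by
      have h2 : Tendsto (fun m : ℕ => ((2 : ℝ≥0∞)⁻¹) ^ m) atTop (𝓝 0) :=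
        ENNReal.tendsto_pow_atTop_nhds_zero_of_lt_one (by
          rw [ENNReal.inv_lt_one]
          norm_num)
      obtain ⟨m, hm⟩ := ((tendsto_order.1 h2).2 g (pos_iff_ne_zero.2 h0)).exists
      refine ⟨m, fun h => absurd h (not_le.2 (lt_of_le_of_lt ?_ hm))⟩
      rw [ENNReal.rpow_neg, ← ENNReal.inv_pow, ENNReal.inv_le_inv, ← ENNReal.rpow_natCast]
      exact ENNReal.rpow_le_rpow_of_exponent_le (by norm_num) (by linarith)
    classical
    have hm := Nat.find_spec hex
    set m := Nat.find hex with hmdef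
    have hle : g ≤ (2 : ℝ≥0∞) ^ (-(m : ℝ)) := by
      rcases Nat.eq_zero_or_pos m with h2 | h2
      · rw [h2, Nat.cast_zero, neg_zero, ENNReal.rpow_zero]
        exact h1
      · have h3 := Nat.find_min hex (m := m - 1) (by omega)
        rw [not_not] at h3
        have h4 : (((m - 1 : ℕ) : ℝ) + 1) = m := by
          rw [Nat.cast_sub h2, Nat.cast_one, sub_add_cancel]
        rwa [h4] at h3
    refine le_trans ?_ (le_add_left (ENNReal.le_tsum m))
    rw [if_pos hle, ENNReal.rpow_neg, mul_comm, ENNReal.rpow_mul, ← ENNReal.inv_rpow]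
    refine ENNReal.rpow_le_rpow ?_ hp
    rw [not_le, ENNReal.rpow_neg] at hm
    rw [ENNReal.inv_le_iff_inv_le]
    exact hm.le

theorem inta_dyadic {α : Type*} [MeasurableSpace α] (μ : Measure α) {g : α → ℝ≥0∞}
    (hg : Measurable g) {D K : ℝ≥0∞} {p q : ℝ} (hp : 0 ≤ p) (h0 : μ univ ≤ D)
    (h1 : ∀ m : ℕ, μ {x | g x ≤ (2 : ℝ≥0∞) ^ (-(m : ℝ))} ≤ K * (2 : ℝ≥0∞) ^ (-(m : ℝ) * q)) :
    ∫⁻ x, g x ^ (-p) ∂μ ≤ D + K * 2 ^ p * ∑' m : ℕ, ((2 : ℝ≥0∞) ^ (p - q)) ^ m := by
  calc ∫⁻ x, g x ^ (-p) ∂μ ≤ ∫⁻ x, (1 + ∑' m : ℕ, if g x ≤ (2 : ℝ≥0∞) ^ (-(m : ℝ)) then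
      (2 : ℝ≥0∞) ^ (p * ((m : ℝ) + 1)) else 0) ∂μ := lintegral_mono fun x => inta_point hp (g x)
    _ = μ univ + ∑' m : ℕ, (2 : ℝ≥0∞) ^ (p * ((m : ℝ) + 1)) *
        μ {x | g x ≤ (2 : ℝ≥0∞) ^ (-(m : ℝ))} := by
      rw [lintegral_add_left measurable_const, lintegral_const, one_mul, lintegral_tsum]
      · congr 1
        refine tsum_congr fun m => ?_
        rw [← lintegral_indicator_const (measurableSet_le hg measurable_const)]
        refine lintegral_congr fun y => ?_
        rw [indicator_apply]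
        rfl
      · intro m
        exact (Measurable.ite (measurableSet_le hg measurable_const) measurable_const
          measurable_const).aemeasurable
    _ ≤ D + ∑' m : ℕ, (2 : ℝ≥0∞) ^ (p * ((m : ℝ) + 1)) *
        (K * (2 : ℝ≥0∞) ^ (-(m : ℝ) * q)) := by
      gcongr with m
      exact h1 m
    _ = _ := by
      rw [← ENNReal.tsum_mul_left]
      congr 1
      refine tsum_congr fun m => ?_
      rw [← ENNReal.rpow_natCast, ← ENNReal.rpow_mul, mul_left_comm, mul_assoc,
        ← ENNReal.rpow_add _ _ (by norm_num) (by norm_num),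
        ← ENNReal.rpow_add _ _ (by norm_num) (by norm_num)]
      congr 2
      ring

theorem inta_geom {p q : ℝ} (h : p < q) {D K : ℝ≥0∞} (hD : D ≠ ⊤) (hK : K ≠ ⊤) :
    D + K * 2 ^ p * ∑' m : ℕ, ((2 : ℝ≥0∞) ^ (p - q)) ^ m ≠ ⊤ := by
  have h1 : (2 : ℝ≥0∞) ^ (p - q) < 1 := ENNReal.rpow_lt_one_of_one_lt_of_neg (by norm_num)
    (by linarith)
  rw [ENNReal.tsum_geometric]
  refine ENNReal.add_ne_top.2 ⟨hD, ENNReal.mul_ne_top (ENNReal.mul_ne_top hK
    (ENNReal.rpow_ne_top_of_ne_zero (by norm_num) (by norm_num))) ?_⟩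
  rw [Ne, ENNReal.inv_eq_top, tsub_eq_zero_iff_le, not_le]
  exact h1

/-! ### Fubini -/

theorem inta_fubini {n : ℕ} {F : (Fin n → ℂ) → ℝ≥0∞} (hF : Measurable F) {S S' : Set (Fin n → ℂ)}
    (hS : MeasurableSet S) (hS' : MeasurableSet S') (u : Fin n → ℂ) {D : Set ℂ}
    (hD : MeasurableSet D) (h : ∀ w ∈ S, ∀ t ∈ D, w - t • u ∈ S') :
    volume D * ∫⁻ w in S, F w ≤ ∫⁻ w in S', ∫⁻ t in D, F (w + t • u) := by
  have hm : Measurable fun x : (Fin n → ℂ) × ℂ => F (x.1 + x.2 • u) :=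
    hF.comp (by fun_prop)
  calc volume D * ∫⁻ w in S, F w = ∫⁻ _ in D, ∫⁻ w in S, F w := by
        rw [lintegral_const, Measure.restrict_apply_univ, mul_comm]
    _ ≤ ∫⁻ t in D, ∫⁻ w in S', F (w + t • u) := by
      refine setLIntegral_mono' hD fun t ht => ?_
      rw [← lintegral_indicator hS, ← lintegral_indicator hS',
        ← lintegral_add_right_eq_self (fun w => S.indicator F w) (t • u)]
      refine lintegral_mono fun w => ?_
      by_cases hw : w + t • u ∈ S
      · have h1 : w ∈ S' := by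
          have h2 := h _ hw t ht
          rwa [add_sub_cancel_right] at h2
        rw [indicator_of_mem hw, indicator_of_mem h1]
      · rw [indicator_of_notMem hw]
        exact zero_le
    _ = ∫⁻ w in S', ∫⁻ t in D, F (w + t • u) := by
      rw [lintegral_lintegral_swap]
      exact (hm.comp measurable_swap).aemeasurable

end Pool.Agent.Odp2
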