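import Pool.Agent.Odp2.Eq.Defs
import Pool.Agent.Odp2.Eq.LinB
import Pool.Agent.Odp2.Lim.Ideal
import Pool.Agent.ODP.LinChange

/-!
# Linear changes of the coordinates `y`

Lemma 0.14: all data is unchanged by a linear change of the coordinates `y`.
-/

open scoped ContDiff Topology ENNReal NNReal WithZero
open Set MeasureTheory Filter MvPolynomial Pool.Agent.ODP

namespace Pool.Agent.Odp2

variable {n d : ℕ} {B : Type} [CommRing B] [IsDomain B] [Algebra ℂ B] {G : Germ n d B} {x : Pt B}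
  {h : B} {s κ : ℝ} {sg : B} {m : ℕ} {ρ₁ : ℝ}

/-- Linear change of the coordinates `y`: everything is unchanged. -/
theorem Std.lin (H : Std G x h s κ sg m ρ₁) (p : Pts G x) (M : Matrix (Fin n) (Fin n) ℂ)
    (hM : IsUnit M.det) : ∃ (G' : Germ n d B) (p' : Pts G' x) (ρ' : ℝ),
      G'.y = linChange M G.y ∧ Std G' x h s κ sg m ρ' ∧
      (∀ N, JI p' (one n) N = JI p (one n) N) ∧ nvol G'.y h s x = nvol G.y h s x := by
  have hNM : M⁻¹ * M = 1 := Matrix.nonsing_inv_mul M hM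
  obtain ⟨r₁, hr₁, h₁⟩ := H.meas.lin hNM
  obtain ⟨r₂, hr₂, h₂⟩ := klt_lin G hNM H.meas.pos _ H.klt
  refine ⟨G.lin M M⁻¹ hNM, p.lin M M⁻¹ hNM, min r₁ r₂, rfl,
    { hn := H.hn
      hm := (totalDegree_lsub_le M⁻¹ G.D).trans_lt H.hm
      sep := H.sep.lin M M⁻¹ hNM
      meas := h₁ _ (lt_min hr₁ hr₂) (min_le_left _ _)
      κ_pos := H.κ_pos
      klt := h₂ _ (lt_min hr₁ hr₂) (min_le_right _ _)
      red := ?_ }, fun N => JI_lin p M M⁻¹ hNM N, ?_⟩
  · haveI : (RingHom.ker x).IsPrime := RingHom.ker_isPrime x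
    exact isReductionAt_linChange M M⁻¹ hNM _ G.y H.red
  · exact nvol_lin hNM G.y h s x

end Pool.Agent.Odp2
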