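import Pool.Agent.Odp2.Eq.Defs
import Pool.Agent.Odp2.Lim.Ideal
import Pool.Agent.ODP.LinChange

/-!
# Linear changes of the coordinates `y`: the algebraic part
-/

open scoped ContDiff Topology ENNReal NNReal WithZero
open Set MeasureTheory Filter MvPolynomial Pool.Agent.ODP

namespace Pool.Agent.Odp2

/-! ### The substitution `P(X) ↦ P(A X)` -/

section

variable {n : ℕ}

/-- The substitution `P(X) ↦ P(A X)`. -/
noncomputable def lsub (A : Matrix (Fin n) (Fin n) ℂ) :
    MvPolynomial (Fin n) ℂ →ₐ[ℂ] MvPolynomial (Fin n) ℂ := aeval (linChange A X)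

theorem aeval_lsub {B : Type*} [CommRing B] [Algebra ℂ B] (A : Matrix (Fin n) (Fin n) ℂ)
    (w : Fin n → B) (P : MvPolynomial (Fin n) ℂ) :
    aeval w (lsub A P) = aeval (linChange A w) P := by
  have h : (aeval w : MvPolynomial (Fin n) ℂ →ₐ[ℂ] B).comp (lsub A) = aeval (linChange A w) := by
    apply MvPolynomial.algHom_ext
    intro i
    simp [lsub, linChange]
  exact DFunLike.congr_fun h P

theorem linChange_eq_mulVec (A : Matrix (Fin n) (Fin n) ℂ) (w : Fin n → ℂ) :
    linChange A w = A.mulVec w := by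
  funext i
  simp [linChange, Matrix.mulVec, dotProduct]

theorem eval_lsub (A : Matrix (Fin n) (Fin n) ℂ) (w : Fin n → ℂ) (P : MvPolynomial (Fin n) ℂ) :
    eval w (lsub A P) = eval (A.mulVec w) P := by
  have h := aeval_lsub A w P
  rw [linChange_eq_mulVec] at h
  simpa [MvPolynomial.aeval_eq_eval] using h

theorem lsub_lsub (A A' : Matrix (Fin n) (Fin n) ℂ) (P : MvPolynomial (Fin n) ℂ) :
    lsub A' (lsub A P) = lsub (A * A') P := by
  have h := aeval_lsub A (linChange A' (X : Fin n → MvPolynomial (Fin n) ℂ)) P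
  rw [← linChange_mul] at h
  exact h

theorem lsub_one (P : MvPolynomial (Fin n) ℂ) : lsub 1 P = P := by
  rw [lsub, linChange_one]
  exact MvPolynomial.aeval_X_left_apply P

theorem lsub_inj {M N : Matrix (Fin n) (Fin n) ℂ} (h : N * M = 1) :
    Function.Injective (lsub N) := by
  intro P Q hPQ
  have h1 := congrArg (lsub M) hPQ
  rwa [lsub_lsub, lsub_lsub, h, lsub_one, lsub_one] at h1

theorem proj_linChange {B : Type} [CommRing B] [Algebra ℂ B] (A : Matrix (Fin n) (Fin n) ℂ)
    (y : Fin n → B) (χ : Pt B) : proj (linChange A y) χ = A.mulVec (proj y χ) := by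
  funext i
  simp [proj, linChange, Matrix.mulVec, dotProduct]

theorem proj_linChange_iff {B : Type} [CommRing B] [Algebra ℂ B]
    {M N : Matrix (Fin n) (Fin n) ℂ} (h : N * M = 1)
    (y : Fin n → B) (χ : Pt B) (w : Fin n → ℂ) :
    proj (linChange M y) χ = w ↔ proj y χ = N.mulVec w := by
  have h' : M * N = 1 := mul_eq_one_comm.mp h
  rw [proj_linChange]
  constructor
  · rintro rfl
    rw [Matrix.mulVec_mulVec, h, Matrix.one_mulVec]
  · intro h1
    rw [h1, Matrix.mulVec_mulVec, h', Matrix.one_mulVec]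

end

variable {n d : ℕ} {B : Type} [CommRing B] [Algebra ℂ B]

/-- The working data in the coordinates `M y`. -/
noncomputable def Germ.lin (G : Germ n d B) (M N : Matrix (Fin n) (Fin n) ℂ) (h : N * M = 1) :
    Germ n d B where
  y := linChange M G.y
  e := G.e
  cf := fun b i => lsub N (G.cf b i)
  cf_spec := fun b => by
    conv_lhs => rw [G.cf_spec b]
    refine Finset.sum_congr rfl fun i _ => ?_
    rw [aeval_lsub, linChange_inv M N h]
  cf_unique := fun b c hb => by
    have h' : M * N = 1 := mul_eq_one_comm.mp h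
    have h1 : (fun i => lsub M (c i)) = G.cf b := by
      apply G.cf_unique
      rw [hb]
      refine Finset.sum_congr rfl fun i _ => ?_
      rw [aeval_lsub]
    funext i
    rw [← h1, lsub_lsub, h', lsub_one]
  D := lsub N G.D
  D_ne := fun h0 => G.D_ne (lsub_inj h (by rw [h0, map_zero]))
  du := G.du
  du_tr := fun i j => by
    rw [← map_sum, G.du_tr]
    split_ifs
    · rfl
    · exact map_zero _
  card := fun w hw => by
    rw [eval_lsub] at hw
    have h1 := G.card _ hw
    have h2 : {χ : Pt B | proj (linChange M G.y) χ = w} =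
        {χ : Pt B | proj G.y χ = N.mulVec w} := by
      ext χ
      exact proj_linChange_iff h _ _ _
    rw [h2]
    exact h1
  du_spec := fun w hw χ χ' hχ hχ' => by
    rw [eval_lsub] at hw
    rw [proj_linChange_iff h] at hχ hχ'
    rw [eval_lsub]
    exact G.du_spec _ hw χ χ' hχ hχ'

theorem totalDegree_lsub_le (A : Matrix (Fin n) (Fin n) ℂ) (P : MvPolynomial (Fin n) ℂ) :
    (lsub A P).totalDegree ≤ P.totalDegree := by
  classical
  have h1 : ∀ i, (linChange A (X : Fin n → MvPolynomial (Fin n) ℂ) i).totalDegree ≤ 1 := by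
    intro i
    refine totalDegree_finsetSum_le fun j _ => ?_
    exact (totalDegree_smul_le _ _).trans (totalDegree_X (R := ℂ) j).le
  have h2 : lsub A P = ∑ m ∈ P.support, C (P.coeff m) * ∏ i, linChange A X i ^ m i := by
    rw [lsub, aeval_def, eval₂_eq']
    rfl
  rw [h2]
  refine totalDegree_finsetSum_le fun m hm => ?_
  refine (totalDegree_mul _ _).trans ?_
  rw [totalDegree_C, zero_add]
  refine (totalDegree_finsetProd _ _).trans ?_
  calc ∑ i, (linChange A X i ^ m i).totalDegree ≤ ∑ i, m i := by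
        refine Finset.sum_le_sum fun i _ => ?_
        refine (totalDegree_pow _ _).trans ?_
        calc m i * _ ≤ m i * 1 := Nat.mul_le_mul_left _ (h1 i)
          _ = m i := mul_one _
    _ = m.sum fun _ e => e := by rw [Finsupp.sum_fintype]; simp
    _ ≤ P.totalDegree := le_totalDegree hm

theorem IsSep.lin {G : Germ n d B} {x : Pt B} {m : ℕ} {sg : B} (H : IsSep G x m sg)
    (M N : Matrix (Fin n) (Fin n) ℂ) (h : N * M = 1) : IsSep (G.lin M N h) x m sg where
  x_y := by
    change proj (linChange M G.y) x = 0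
    rw [proj_linChange, H.x_y, Matrix.mulVec_zero]
  x_sg := H.x_sg
  idem := by
    change _ ∈ Ideal.span (Set.range (linChange M G.y)) ^ m
    rw [span_linChange M N h]
    exact H.idem
  nil := by
    change ∀ b, x b = 0 → ∃ L : ℕ, b ^ L * sg ∈ Ideal.span (Set.range (linChange M G.y))
    rw [span_linChange M N h]
    exact H.nil

/-- The sequence of pairs of points in the coordinates `M y`. -/
noncomputable def Pts.lin {G : Germ n d B} {x : Pt B} (p : Pts G x)
    (M N : Matrix (Fin n) (Fin n) ℂ) (h : N * M = 1) : Pts (G.lin M N h) x where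
  q := fun ν => M.mulVec (p.q ν)
  p := p.p
  proj_p := fun i ν => by
    change proj (linChange M G.y) _ = _
    rw [proj_linChange, p.proj_p]
  D_ne := fun ν => by
    change eval _ (lsub N G.D) ≠ 0
    rw [eval_lsub, Matrix.mulVec_mulVec, h, Matrix.one_mulVec]
    exact p.D_ne ν
  ne := p.ne
  tendsto_q := by
    have h1 : Continuous fun w : Fin n → ℂ => M.mulVec w := by fun_prop
    have h2 := (h1.tendsto 0).comp p.tendsto_q
    rwa [Matrix.mulVec_zero] at h2
  tendsto_p := p.tendsto_p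

/-! ### The ideals `J_N` -/

theorem TendsP.lsub {l : Filter ℕ} [l.NeBot] {P : ℕ → MvPolynomial (Fin n) ℂ}
    {P' : MvPolynomial (Fin n) ℂ} (h : TendsP l P P') (A : Matrix (Fin n) (Fin n) ℂ) :
    TendsP l (fun ν => lsub A (P ν)) (lsub A P') := by
  classical
  obtain ⟨⟨Λ, hΛ⟩, hc⟩ := h
  have hsum : ∀ (Q : MvPolynomial (Fin n) ℂ), Q.support ⊆ Λ →
      Odp2.lsub A Q = ∑ m ∈ Λ, C (Q.coeff m) * ∏ i, linChange A X i ^ m i := by
    intro Q hQ
    rw [Odp2.lsub, aeval_def, eval₂_eq']
    refine Finset.sum_subset hQ fun m _ hm => ?_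
    rw [MvPolynomial.notMem_support_iff.1 hm, map_zero, zero_mul]
  have hP' : P'.support ⊆ Λ := by
    intro m hm
    by_contra hmΛ
    have h0 : ∀ᶠ ν in l, (P ν).coeff m = 0 := by
      filter_upwards [hΛ] with ν h1
      by_contra h2
      exact hmΛ (h1 (MvPolynomial.mem_support_iff.2 h2))
    have h1 : Tendsto (fun ν => (P ν).coeff m) l (nhds 0) :=
      tendsto_const_nhds.congr' (h0.mono fun ν hν => hν.symm)
    exact (MvPolynomial.mem_support_iff.1 hm) (tendsto_nhds_unique (hc m) h1)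
  have h2 : TendsP l (fun ν => ∑ m ∈ Λ, C ((P ν).coeff m) * ∏ i, linChange A X i ^ m i)
      (∑ m ∈ Λ, C (P'.coeff m) * ∏ i, linChange A X i ^ m i) :=
    TendsP.sum _ fun m _ => (tendsP_C (hc m)).mul (tendsP_const _)
  rw [← hsum _ hP'] at h2
  obtain ⟨⟨Λ', hΛ'⟩, hc'⟩ := h2
  refine ⟨⟨Λ', ?_⟩, fun m => ?_⟩
  · filter_upwards [hΛ, hΛ'] with ν h3 h4
    rwa [hsum _ h3]
  · refine (hc' m).congr' ?_
    filter_upwards [hΛ] with ν h3
    rw [hsum _ h3]

theorem TendsB.lin {G : Germ n d B} {F : ℕ → B} {F' : B} (hF : TendsB G F F')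
    (M N : Matrix (Fin n) (Fin n) ℂ) (h : N * M = 1) : TendsB (G.lin M N h) F F' := by
  rw [tendsB_iff] at hF ⊢
  exact fun i => (hF i).lsub N

theorem WW_one_eq (G : Germ n d B) (N : ℕ) (χ : Pt B) : WW G (one n) N χ = PP G χ ^ N := by
  apply le_antisymm
  · rw [WW, Ideal.span_le]
    rintro _ ⟨m, hm, rfl⟩
    have h2 : ∀ j, G.y j - algebraMap ℂ B (χ (G.y j)) ∈ PP G χ := fun j =>
      Ideal.subset_span (Set.mem_range_self j)
    have h1 : ∏ j, (G.y j - algebraMap ℂ B (χ (G.y j))) ^ m j ∈ PP G χ ^ (∑ j, m j) := by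
      rw [← Finset.prod_pow_eq_pow_sum]
      exact Ideal.prod_mem_prod fun j _ => Ideal.pow_mem_pow (h2 j) _
    refine Ideal.pow_le_pow_right ?_ h1
    simpa [one] using hm
  · exact PP_pow_le (a := one n) (fun _ => le_rfl) N χ

theorem WW_lin (G : Germ n d B) (M N : Matrix (Fin n) (Fin n) ℂ) (h : N * M = 1) (K : ℕ)
    (χ : Pt B) : WW (G.lin M N h) (one n) K χ = WW G (one n) K χ := by
  rw [WW_one_eq, WW_one_eq]
  congr 1
  rw [PP, PP]
  have h1 : (fun j => (G.lin M N h).y j - algebraMap ℂ B (χ ((G.lin M N h).y j))) =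
      linChange M (fun j => G.y j - algebraMap ℂ B (χ (G.y j))) := by
    funext j
    change linChange M G.y j - algebraMap ℂ B (χ (linChange M G.y j)) = _
    simp only [linChange, map_sum, smul_sub, Finset.sum_sub_distrib]
    congr 1
    refine Finset.sum_congr rfl fun i _ => ?_
    rw [map_smul, smul_eq_mul, map_mul, Algebra.smul_def]
  rw [h1, span_linChange M N h]

theorem VanAt_lin {G : Germ n d B} (M N : Matrix (Fin n) (Fin n) ℂ) (h : N * M = 1) {K : ℕ}
    {χ : Pt B} {F : B} : VanAt (G.lin M N h) (one n) K χ F ↔ VanAt G (one n) K χ F := by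
  rw [vanAt_iff, vanAt_iff, WW_lin]

theorem TendsB_lin {G : Germ n d B} {F : ℕ → B} {F' : B}
    (M N : Matrix (Fin n) (Fin n) ℂ) (h : N * M = 1) :
    TendsB (G.lin M N h) F F' ↔ TendsB G F F' := by
  refine ⟨fun hF => ?_, fun hF => hF.lin M N h⟩
  rw [tendsB_iff] at hF ⊢
  intro i
  have h1 := (hF i).lsub M
  have h' : M * N = 1 := mul_eq_one_comm.mp h
  have h2 : ∀ b, Odp2.lsub M ((G.lin M N h).cf b i) = G.cf b i := by
    intro b
    change Odp2.lsub M (Odp2.lsub N (G.cf b i)) = _
    rw [lsub_lsub, h, lsub_one]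
  simpa only [h2] using h1

theorem JI_lin {G : Germ n d B} {x : Pt B} (p : Pts G x)
    (M N : Matrix (Fin n) (Fin n) ℂ) (h : N * M = 1) (K : ℕ) :
    JI (p.lin M N h) (one n) K = JI p (one n) K := by
  rw [JI, JI]
  congr 1
  ext F'
  constructor
  · rintro ⟨F, hF, hF'⟩
    refine ⟨F, ?_, (TendsB_lin M N h).1 hF'⟩
    filter_upwards [hF] with ν h1 i
    exact (VanAt_lin M N h).1 (h1 i)
  · rintro ⟨F, hF, hF'⟩
    refine ⟨F, ?_, (TendsB_lin M N h).2 hF'⟩
    filter_upwards [hF] with ν h1 i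
    exact (VanAt_lin M N h).2 (h1 i)

end Pool.Agent.Odp2
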