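import Pool.Agent.Odp2.Eq.Defs
import Pool.Agent.Odp2.Pt.Sheets
import Pool.Agent.Odp2.Pt.Sect
import Pool.Agent.Odp2.An.Ext
import Pool.Agent.Odp2.An.Null

open scoped ContDiff Topology ENNReal NNReal WithZero
open Set MeasureTheory Filter MvPolynomial Pool.Agent.ODP

namespace Pool.Agent.Odp2

/-! ### Preliminaries -/

theorem sym_continuous_nq (n : ℕ) : Continuous (fun w : Fin n → ℂ => nq w) := by
  unfold nq
  fun_prop

theorem sym_isOpen_bal (n : ℕ) (ρ : ℝ) : IsOpen (bal n ρ) :=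
  isOpen_lt (sym_continuous_nq n) continuous_const

theorem sym_exists_ne {n : ℕ} {D : MvPolynomial (Fin n) ℂ} (hD : D ≠ 0) {ρ : ℝ} (hρ : 0 < ρ) :
    ∃ w ∈ bal n ρ, eval w D ≠ 0 := by
  by_contra! hcon
  apply hD
  have hε : 0 < ρ / (n + 1) := by positivity
  refine MvPolynomial.funext_set (fun _ => Metric.ball (0 : ℂ) (ρ / (n + 1)))
    (fun _ => infinite_of_mem_nhds (0 : ℂ) (Metric.ball_mem_nhds _ hε)) ?_
  intro w hw
  rw [map_zero]
  apply hcon
  show nq w < ρ ^ 2
  have h3 : nq w ≤ ∑ _j : Fin n, (ρ / (n + 1)) ^ 2 := Finset.sum_le_sum fun j _ => by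
    have h4 := hw j (mem_univ j)
    rw [mem_ball_zero_iff] at h4
    have := h4.le
    gcongr
  rw [Finset.sum_const, Finset.card_univ, Fintype.card_fin, nsmul_eq_mul] at h3
  refine h3.trans_lt ?_
  have hn : (0:ℝ) < n + 1 := by positivity
  rw [div_pow, ← mul_div_assoc, div_lt_iff₀ (by positivity)]
  nlinarith [sq_pos_of_pos hρ, sq_nonneg (n:ℝ)]

theorem sym_diff_eval {n : ℕ} (p : MvPolynomial (Fin n) ℂ) :
    Differentiable ℂ (fun w : Fin n → ℂ => eval w p) := by
  induction p using MvPolynomial.induction_on with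
  | C a => simp
  | add p q hp hq =>
    simp only [map_add]
    exact hp.add hq
  | mul_X p i hp =>
    simp only [map_mul, eval_X]
    exact hp.mul (differentiable_apply i)

theorem sym_diff_prod {n : ℕ} {ι : Type} (u : Finset ι) {f : ι → (Fin n → ℂ) → ℂ}
    {w₀ : Fin n → ℂ} (h : ∀ i, DifferentiableAt ℂ (f i) w₀) :
    DifferentiableAt ℂ (fun w => ∏ i ∈ u, f i w) w₀ := by
  classical
  induction u using Finset.induction_on with
  | empty => simp
  | insert a u ha ih =>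
    simp only [Finset.prod_insert ha]
    exact (h a).mul ih

theorem sym_volume_bal (n : ℕ) (ρ : ℝ) : volume (bal n ρ) < ⊤ := by
  have hsub : bal n ρ ⊆ Metric.closedBall (0 : Fin n → ℂ) |ρ| := by
    intro w hw
    rw [mem_closedBall_zero_iff, pi_norm_le_iff_of_nonneg (abs_nonneg ρ)]
    intro j
    refine (norm_le_sqrt_nq w j).trans ?_
    rw [← Real.sqrt_sq_eq_abs]
    exact Real.sqrt_le_sqrt (le_of_lt hw)
  exact (measure_mono hsub).trans_lt (isCompact_closedBall _ _).measure_lt_top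

/-- an enumeration of the sheets near `x` -/
def symEnum {n d : ℕ} {B : Type} [CommRing B] [Algebra ℂ B] (G : Germ n d B) (sg : B) (e : ℕ)
    (w : Fin n → ℂ) (r : Fin e → Pt B) : Prop :=
  Function.Injective r ∧ ∀ χ : Pt B, (proj G.y χ = w ∧ ‖χ sg - 1‖ < 1 / 2) ↔ ∃ j, r j = χ

theorem symEnum_exists {n d : ℕ} {B : Type} [CommRing B] [Algebra ℂ B] {G : Germ n d B}
    {sg : B} {e : ℕ} {w : Fin n → ℂ} (hw : eval w G.D ≠ 0)
    (h : {χ : Pt B | proj G.y χ = w ∧ ‖χ sg - 1‖ < 1 / 2}.ncard = e) :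
    ∃ r : Fin e → Pt B, symEnum G sg e w r := by
  have hfin : {χ : Pt B | proj G.y χ = w ∧ ‖χ sg - 1‖ < 1 / 2}.Finite := by
    rcases Nat.eq_zero_or_pos d with hd | hd
    · -- no points at all: `B = 0`
      have h1 : ∀ χ : Pt B, False := by
        intro χ
        have h2 := congrArg χ (G.cf_spec 1)
        rw [map_one] at h2
        subst hd
        simp at h2
      have h2 : {χ : Pt B | proj G.y χ = w ∧ ‖χ sg - 1‖ < 1 / 2} = ∅ := by
        ext χ
        exact (h1 χ).elim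
      rw [h2]
      exact finite_empty
    · have h1 : {χ : Pt B | proj G.y χ = w}.Finite := by
        apply finite_of_ncard_ne_zero
        rw [G.card w hw]
        exact hd.ne'
      exact h1.subset fun χ hχ => hχ.1
  have h2 : hfin.toFinset.card = e := by rw [← h, ncard_eq_toFinset_card _ hfin]
  let f := (hfin.toFinset.equivFinOfCardEq h2).symm
  refine ⟨fun j => (f j : Pt B), fun i j hij => f.injective (Subtype.ext hij), fun χ => ?_⟩
  constructor
  · intro hχ
    refine ⟨f.symm ⟨χ, by simpa using hχ⟩, ?_⟩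
    simp
  · rintro ⟨j, rfl⟩
    have h3 := (f j).2
    rw [Set.Finite.mem_toFinset] at h3
    exact h3

/-- the multiset of values does not depend on the enumeration -/
theorem symEnum_multiset {n d : ℕ} {B : Type} [CommRing B] [Algebra ℂ B] {G : Germ n d B}
    {sg : B} {e : ℕ} {w : Fin n → ℂ} {r : Fin e → Pt B} (hr : symEnum G sg e w r) {ι : Type}
    (I : Finset ι) (s : ι → Pt B) (hs : Set.InjOn s I)
    (hI : ∀ χ : Pt B, (proj G.y χ = w ∧ ‖χ sg - 1‖ < 1 / 2) ↔ ∃ i ∈ I, s i = χ) (g : B) :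
    (Finset.univ.val.map fun j => r j g) = I.val.map fun i => s i g := by
  classical
  have h1 : Finset.univ.image r = I.image s := by
    ext χ
    simp only [Finset.mem_image, Finset.mem_univ, true_and]
    rw [← hr.2 χ, hI χ]
  have h2 : (Finset.univ.image r).val.map (fun χ => χ g) = Finset.univ.val.map fun j => r j g := by
    rw [Finset.image_val_of_injOn (hr.1.injOn), Multiset.map_map]
    rfl
  have h3 : (I.image s).val.map (fun χ => χ g) = I.val.map fun i => s i g := by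
    rw [Finset.image_val_of_injOn hs, Multiset.map_map]
    rfl
  rw [← h2, ← h3, h1]

variable {n d : ℕ} {B : Type} [CommRing B] [IsDomain B] [Algebra ℂ B] {G : Germ n d B} {x : Pt B}
  {h : B} {s κ : ℝ} {sg : B} {m : ℕ} {ρ₁ : ℝ}

omit [IsDomain B] in
/-- the elementary symmetric functions are holomorphic off the discriminant -/
theorem sym_holo {e : ℕ} {ρ₀ C : ℝ} {m : ℕ}
    (hdich : ∀ χ : Pt B, nq (proj G.y χ) < ρ₀ ^ 2 →
      (‖χ sg - 1‖ < 1 / 4 ∧ ‖χ sg - 1‖ ≤ C * √(nq (proj G.y χ)) ^ m) ∨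
      (‖χ sg‖ < 1 / 4 ∧ ‖χ sg‖ ≤ C * √(nq (proj G.y χ)) ^ m))
    {ρ : ℝ} (hρ : ρ ^ 2 ≤ ρ₀ ^ 2) {r : (Fin n → ℂ) → Fin e → Pt B}
    (hr : ∀ w ∈ bal n ρ, eval w G.D ≠ 0 → symEnum G sg e w (r w)) (g : B) (k : ℕ) :
    DifferentiableOn ℂ (fun w => ((Finset.univ.val.map fun j => r w j g) : Multiset ℂ).esymm k)
      {w | w ∈ bal n ρ ∧ eval w G.D ≠ 0} := by
  classical
  rintro w₀ ⟨hw₀, hD₀⟩
  apply DifferentiableAt.differentiableWithinAt
  obtain ⟨Ω, hΩ, hw₀Ω, t, ht, hinj, hall⟩ := G.exists_sections hD₀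
  have htd : ∀ (b : B) (i : Fin d), DifferentiableAt ℂ (fun w => t i w b) w₀ := fun b i =>
    ((ht i).holo b).differentiableAt (hΩ.mem_nhds hw₀Ω)
  set I : Finset (Fin d) := Finset.univ.filter fun i => ‖t i w₀ sg - 1‖ < 1 / 2 with hI
  have hcont : Continuous fun w : Fin n → ℂ => eval w G.D := MvPolynomial.continuous_eval _
  have hev : ∀ᶠ w in 𝓝 w₀, w ∈ Ω ∧ w ∈ bal n ρ ∧ eval w G.D ≠ 0 ∧
      ∀ i, (‖t i w sg - 1‖ < 1 / 2 ↔ i ∈ I) := by
    refine (hΩ.eventually_mem hw₀Ω).and (((sym_isOpen_bal n ρ).eventually_mem hw₀).and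
      ((hcont.continuousAt.eventually_ne hD₀).and ?_))
    rw [eventually_all]
    intro i
    by_cases hi : i ∈ I
    · have h1 : ‖t i w₀ sg - 1‖ < 1 / 2 := (Finset.mem_filter.1 hi).2
      have h2 : ∀ᶠ w in 𝓝 w₀, ‖t i w sg - 1‖ < 1 / 2 :=
        (((htd sg i).continuousAt.sub continuousAt_const).norm).eventually_lt_const h1
      exact h2.mono fun w hw => ⟨fun _ => hi, fun _ => hw⟩
    · have h1 : ¬ ‖t i w₀ sg - 1‖ < 1 / 2 := fun h => hi (Finset.mem_filter.2
        ⟨Finset.mem_univ _, h⟩)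
      have hproj : proj G.y (t i w₀) = w₀ := (ht i).proj w₀ hw₀Ω
      have h3 : ‖t i w₀ sg‖ < 1 / 4 := by
        rcases hdich (t i w₀) (by rw [hproj]; exact lt_of_lt_of_le hw₀ hρ) with h4 | h4
        · exact absurd (h4.1.trans (by norm_num)) h1
        · exact h4.1
      have h2 : ∀ᶠ w in 𝓝 w₀, ‖t i w sg‖ < 1 / 4 :=
        ((htd sg i).continuousAt.norm).eventually_lt_const h3
      refine h2.mono fun w hw => ⟨fun h5 => ?_, fun h5 => absurd h5 hi⟩
      have h6 : (1 : ℝ) ≤ ‖t i w sg‖ + ‖t i w sg - 1‖ := by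
        calc (1:ℝ) = ‖t i w sg - (t i w sg - 1)‖ := by simp
          _ ≤ _ := norm_sub_le _ _
      linarith
  have heq : (fun w => ((Finset.univ.val.map fun j => r w j g) : Multiset ℂ).esymm k) =ᶠ[𝓝 w₀]
      fun w => ∑ u ∈ I.powersetCard k, ∏ i ∈ u, t i w g := by
    filter_upwards [hev] with w hw
    obtain ⟨hwΩ, hwb, hwD, hwI⟩ := hw
    rw [symEnum_multiset (hr w hwb hwD) I (fun i => t i w) (fun i _ j _ hij => hinj w hwΩ hij) ?_ g,
      Finset.esymm_map_val]
    intro χ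
    constructor
    · rintro ⟨h1, h2⟩
      obtain ⟨i, rfl⟩ := hall w hwΩ χ h1
      exact ⟨i, (hwI i).1 h2, rfl⟩
    · rintro ⟨i, hi, rfl⟩
      exact ⟨(ht i).proj w hwΩ, (hwI i).2 hi⟩
  refine DifferentiableAt.congr_of_eventuallyEq ?_ heq
  refine DifferentiableAt.fun_sum fun u _ => ?_
  exact sym_diff_prod u fun i => htd g i

/-- The elementary symmetric functions of the sheets near `x`. -/
theorem exists_sym (H : Std G x h s κ sg m ρ₁) : ∃ ρ₂ : ℝ, 0 < ρ₂ ∧ ∀ ρ : ℝ, 0 < ρ → ρ ≤ ρ₂ →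
    ∀ g : B, ∃ σ : ℕ → (Fin n → ℂ) → ℂ,
      IsSym G sg (paramLength ℂ (RingHom.ker x) G.y) ρ g σ := by
  classical
  have hm1 : 1 ≤ m := Nat.one_le_of_lt H.hm
  set e := paramLength ℂ (RingHom.ker x) G.y with he
  obtain ⟨ρ₀, hρ₀, hsh⟩ := H.sep.sheets hm1
  obtain ⟨ρ₀', C, hρ₀', hdich⟩ := H.sep.dich hm1
  refine ⟨min ρ₀ ρ₀', lt_min hρ₀ hρ₀', fun ρ hρ hρle g => ?_⟩
  have hle1 : ρ ^ 2 ≤ ρ₀ ^ 2 := by
    have := hρle.trans (min_le_left _ _)
    gcongr
  have hle2 : ρ ^ 2 ≤ ρ₀' ^ 2 := by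
    have := hρle.trans (min_le_right _ _)
    gcongr
  have hex : ∀ w ∈ bal n ρ, eval w G.D ≠ 0 → ∃ r : Fin e → Pt B, symEnum G sg e w r :=
    fun w hw hD => symEnum_exists hD (hsh w (lt_of_lt_of_le hw hle1) hD)
  have : Nonempty (Fin e → Pt B) := by
    exact ⟨fun _ => x⟩
  choose! r hr using hex
  -- the values are bounded
  obtain ⟨Cg, hCg⟩ := G.bdd g (ρ ^ 2)
  have hbd : ∀ k : ℕ, ∀ w, w ∈ bal n ρ → eval w G.D ≠ 0 →
      ‖((Finset.univ.val.map fun j => r w j g) : Multiset ℂ).esymm k‖ ≤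
        ((Finset.univ : Finset (Fin e)).powersetCard k).card * |Cg| ^ k := by
    intro k w hw hD
    rw [Finset.esymm_map_val]
    refine (norm_sum_le _ _).trans ?_
    rw [← nsmul_eq_mul]
    refine Finset.sum_le_card_nsmul _ _ _ fun u hu => ?_
    rw [norm_prod]
    have hcard := (Finset.mem_powersetCard.1 hu).2
    rw [← hcard, ← Finset.prod_const]
    refine Finset.prod_le_prod (fun _ _ => norm_nonneg _) fun j _ => ?_
    have h1 : proj G.y (r w j) = w := (((hr w hw hD).2 (r w j)).2 ⟨j, rfl⟩).1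
    exact (hCg _ (by rw [h1]; exact le_of_lt hw)).trans (le_abs_self _)
  have hext : ∀ k : ℕ, ∃ σ : (Fin n → ℂ) → ℂ, DifferentiableOn ℂ σ (bal n ρ) ∧
      ∀ w ∈ bal n ρ, eval w G.D ≠ 0 →
        σ w = ((Finset.univ.val.map fun j => r w j g) : Multiset ℂ).esymm k := by
    intro k
    refine ext_L2 (Q := fun w => eval w G.D) ?_ (sym_exists_ne G.D_ne hρ)
      (sym_holo hdich hle2 hr g k) ?_
    · intro w _
      exact (sym_diff_eval G.D w).differentiableWithinAt
    · have hopen : IsOpen {w | w ∈ bal n ρ ∧ eval w G.D ≠ 0} :=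
        (sym_isOpen_bal n ρ).inter ((sym_diff_eval G.D).continuous.isOpen_preimage _
          isOpen_compl_singleton)
      set A : ℝ := ((Finset.univ : Finset (Fin e)).powersetCard k).card * |Cg| ^ k with hA
      have h1 : ∫⁻ w in {w | w ∈ bal n ρ ∧ eval w G.D ≠ 0},
          ‖((Finset.univ.val.map fun j => r w j g) : Multiset ℂ).esymm k‖ₑ ^ 2 ≤
          ∫⁻ _w in {w | w ∈ bal n ρ ∧ eval w G.D ≠ 0}, ENNReal.ofReal A ^ 2 := by
        refine setLIntegral_mono' hopen.measurableSet fun w hw => ?_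
        gcongr
        rw [← ofReal_norm]
        exact ENNReal.ofReal_le_ofReal (hbd k w hw.1 hw.2)
      refine ne_top_of_le_ne_top ?_ h1
      rw [setLIntegral_const]
      refine ENNReal.mul_ne_top (by simp) ?_
      exact ((measure_mono (fun w hw => hw.1)).trans_lt (sym_volume_bal n ρ)).ne
  choose σ hσ hσ2 using hext
  refine ⟨fun k => if k = 0 then fun _ => 1 else σ k, ?_, ?_, ?_⟩
  · intro i
    rcases eq_or_ne i 0 with hi | hi
    · simp only [hi, if_true]
      exact differentiableOn_const _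
    · simp only [hi, if_false]
      exact hσ i
  · intro w _
    simp
  · intro w hw hD
    have hrw := hr w hw hD
    refine ⟨r w, hrw.1, fun j => ?_, fun χ hχ hχw => ?_, ?_⟩
    · have h1 := (hrw.2 (r w j)).2 ⟨j, rfl⟩
      refine ⟨⟨?_, h1.2⟩, h1.1⟩
      rw [h1.1]
      exact hw
    · exact (hrw.2 χ).1 ⟨hχw, hχ.2⟩
    · have h1 := Multiset.prod_X_sub_X_eq_sum_esymm (Finset.univ.val.map fun j => r w j g)
      rw [Multiset.map_map, Multiset.card_map] at h1
      have hcard : Multiset.card (Finset.univ : Finset (Fin e)).val = e := by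
        rw [Finset.card_val, Finset.card_univ, Fintype.card_fin]
      rw [hcard] at h1
      refine Eq.trans h1 (Finset.sum_congr rfl fun i _ => ?_)
      rw [map_mul, map_pow, map_neg, map_one, mul_assoc]
      congr 2
      rcases eq_or_ne i 0 with hi | hi
      · subst hi
        simp [Multiset.esymm]
      · simp only [hi, if_false]
        rw [hσ2 i w hw hD]

end Pool.Agent.Odp2
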