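import Pool.Agent.Odp2.Eq.T2
import Pool.Agent.Odp2.Eq.Lin
import Pool.Agent.Odp2.Eq.T3Aux

open scoped ContDiff Topology ENNReal NNReal WithZero
open Set MeasureTheory Filter MvPolynomial Pool.Agent.ODP

namespace Pool.Agent.Odp2

variable {n d : ℕ} {B : Type} [CommRing B] [IsDomain B] [Algebra ℂ B] {G : Germ n d B} {x : Pt B}
  {h : B} {s κ : ℝ} {sg : B} {m : ℕ} {ρ₁ : ℝ}

/-! ### The graded ring -/

theorem t3_zero_mem (p : Pts G x) (t : ℕ) : (0 : B) ∈ GT p t :=
  ⟨1, t + 1, le_rfl, by omega, by rw [pow_one]; exact Ideal.zero_mem _⟩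

theorem t3_sum_mem {p : Pts G x} {t : ℕ} {ι : Type} (T : Finset ι) {f : ι → B}
    (hf : ∀ i ∈ T, f i ∈ GT p t) : ∑ i ∈ T, f i ∈ GT p t := by
  classical
  induction T using Finset.induction_on with
  | empty => simpa using t3_zero_mem p t
  | insert a T ha ih =>
    rw [Finset.sum_insert ha]
    exact GT_add (hf a (Finset.mem_insert_self a T))
      (ih fun i hi => hf i (Finset.mem_insert_of_mem hi))

/-- The elements of the Rees algebra of `m` with the coefficients in `GT`. -/
def t3I (H : Std G x h s κ sg m ρ₁) (p : Pts G x) : Ideal (reesAlgebra (RingHom.ker x)) where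
  carrier := {f | ∀ N, (f : Polynomial B).coeff N ∈ GT p N}
  zero_mem' := fun N => by simpa using t3_zero_mem p N
  add_mem' := by
    intro f g hf hg N
    show ((f : Polynomial B) + (g : Polynomial B)).coeff N ∈ GT p N
    rw [Polynomial.coeff_add]
    exact GT_add (hf N) (hg N)
  smul_mem' := by
    intro c f hf N
    show ((c : Polynomial B) * (f : Polynomial B)).coeff N ∈ GT p N
    rw [Polynomial.coeff_mul]
    refine t3_sum_mem _ fun ij hij => ?_
    have h1 := (mem_reesAlgebra_iff _ _).1 c.2 ij.1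
    have h2 := GT_mul_pow H (hf ij.2) h1
    rw [Finset.HasAntidiagonal.mem_antidiagonal] at hij
    rwa [mul_comm, ← hij, add_comm]

/-- `b T` -/
noncomputable def t3T {x : Pt B} (b : B) (hb : x b = 0) : reesAlgebra (RingHom.ker x) :=
  ⟨Polynomial.monomial 1 b, reesAlgebra.monomial_mem.2 (by simpa using hb)⟩

omit [IsDomain B] in
/-- the coefficients of a polynomial in the `y_i T` -/
theorem t3_coeff (y : Fin n → B) (c : MvPolynomial (Fin n) ℂ) (N : ℕ) :
    (aeval (fun i => Polynomial.monomial 1 (y i)) c : Polynomial B).coeff N =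
      aeval y (homogeneousComponent N c) := by
  classical
  induction c using MvPolynomial.induction_on' with
  | monomial u a =>
    have h1 : (aeval (fun i => Polynomial.monomial 1 (y i)) (monomial u a) : Polynomial B) =
        Polynomial.monomial (Finsupp.degree u) (aeval y (monomial u a)) := by
      rw [aeval_monomial, aeval_monomial, Finsupp.prod_fintype _ _ (fun _ => pow_zero _),
        Finsupp.prod_fintype _ _ (fun _ => pow_zero _)]
      have h2 : ∀ T : Finset (Fin n), ∏ i ∈ T, (Polynomial.monomial 1 (y i)) ^ u i =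
          Polynomial.monomial (∑ i ∈ T, u i) (∏ i ∈ T, y i ^ u i) := by
        intro T
        induction T using Finset.induction_on with
        | empty => simp
        | insert a T ha ih =>
          rw [Finset.prod_insert ha, Finset.prod_insert ha, Finset.sum_insert ha, ih,
            Polynomial.monomial_pow, Polynomial.monomial_mul_monomial, one_mul]
      rw [h2, Finsupp.degree_eq_sum, Polynomial.algebraMap_apply, Polynomial.C_mul_monomial]
    rw [h1, Polynomial.coeff_monomial,
      homogeneousComponent_of_mem (isHomogeneous_monomial (n := Finsupp.degree u) a rfl)]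
    by_cases hN : Finsupp.degree u = N
    · rw [if_pos hN, if_pos hN.symm]
    · rw [if_neg hN, if_neg (Ne.symm hN), map_zero]
  | add p q hp hq => rw [map_add, Polynomial.coeff_add, hp, hq, map_add, map_add]

omit [IsDomain B] in
theorem t3_form_eq (y : Fin n → B) {c : MvPolynomial (Fin n) ℂ} {N : ℕ} (hc : c.IsHomogeneous N) :
    (aeval (fun i => Polynomial.monomial 1 (y i)) c : Polynomial B) =
      Polynomial.monomial N (aeval y c) := by
  ext k
  rw [t3_coeff, homogeneousComponent_of_mem hc, Polynomial.coeff_monomial]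
  by_cases hk : k = N
  · rw [if_pos hk, if_pos hk.symm]
  · rw [if_neg hk, if_neg (Ne.symm hk), map_zero]

/-- the value in the Rees algebra -/
theorem t3_coe {k : ℕ} (y : Fin k → B) (hy : ∀ i, x (y i) = 0) (c : MvPolynomial (Fin k) ℂ) :
    ((aeval (fun i => t3T (y i) (hy i)) c : reesAlgebra (RingHom.ker x)) : Polynomial B) =
      aeval (fun i => Polynomial.monomial 1 (y i)) c := by
  induction c using MvPolynomial.induction_on with
  | C a => 
    rw [aeval_C, aeval_C]
    rfl
  | add p q hp hq => 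
    rw [map_add, map_add, ← hp, ← hq]
    rfl
  | mul_X p i hp =>
    rw [map_mul, map_mul, ← hp, aeval_X, aeval_X]
    rfl

/-- The values of polynomials with polynomial coefficients. -/
theorem t3_coeff_eval {k : ℕ} (y : Fin k → B) (z : B) (Q : Polynomial (MvPolynomial (Fin k) ℂ)) :
    (Q.eval₂ (aeval (fun i => Polynomial.monomial 1 (y i)) :
      MvPolynomial (Fin k) ℂ →ₐ[ℂ] Polynomial B).toRingHom (Polynomial.monomial 1 z)).coeff
        Q.natDegree =
      ∑ i ∈ Finset.range (Q.natDegree + 1),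
        aeval y (homogeneousComponent i (Q.coeff (Q.natDegree - i))) * z ^ (Q.natDegree - i) := by
  rw [Polynomial.eval₂_eq_sum_range, Polynomial.finsetSum_coeff, ← Finset.sum_range_reflect]
  refine Finset.sum_congr rfl fun i hi => ?_
  have hi' : i ≤ Q.natDegree := Nat.lt_succ_iff.1 (Finset.mem_range.1 hi)
  have h1 : Q.natDegree + 1 - 1 - i = Q.natDegree - i := by omega
  rw [h1, Polynomial.monomial_pow, one_mul]
  have h2 := Polynomial.coeff_mul_monomial
    (aeval (fun i => Polynomial.monomial 1 (y i)) (Q.coeff (Q.natDegree - i)) : Polynomial B)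
    (Q.natDegree - i) i (z ^ (Q.natDegree - i))
  rw [Nat.add_sub_cancel' hi'] at h2
  rw [← t3_coeff]
  exact h2

/-- The graded ring, as an abstract ring. -/
theorem t3_ring (H : Std G x h s κ sg m ρ₁) (p : Pts G x) :
    ∃ (R : Type) (_ : CommRing R) (_ : Algebra ℂ R) (π : reesAlgebra (RingHom.ker x) →ₐ[ℂ] R),
      ∀ f, π f = 0 ↔ ∀ N, (f : Polynomial B).coeff N ∈ GT p N := by
  refine ⟨reesAlgebra (RingHom.ker x) ⧸ t3I H p, inferInstance, inferInstance,
    Ideal.Quotient.mkₐ ℂ (t3I H p), fun f => ?_⟩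
  rw [Ideal.Quotient.mkₐ_eq_mk, Ideal.Quotient.eq_zero_iff_mem]
  rfl

/-- `P_L(c) = ∑ c_i X^(L-i)` is monic. -/
theorem t3_monic {A : Type} [CommRing A] {L : ℕ} {c : ℕ → A} (h0 : c 0 = 1) :
    (∑ i ∈ Finset.range (L + 1), Polynomial.C (c i) * Polynomial.X ^ (L - i)).Monic := by
  classical
  refine Polynomial.monic_of_natDegree_le_of_coeff_eq_one L ?_ ?_
  · refine Polynomial.natDegree_sum_le_of_forall_le _ _ fun i _ => ?_
    exact (Polynomial.natDegree_C_mul_X_pow_le _ _).trans (Nat.sub_le _ _)
  · simp only [Polynomial.finsetSum_coeff, Polynomial.coeff_C_mul, Polynomial.coeff_X_pow]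
    rw [Finset.sum_eq_single 0]
    · simp [h0]
    · intro i hi hi0
      have : L ≠ L - i := by
        have := Finset.mem_range.1 hi
        omega
      rw [if_neg this, mul_zero]
    · intro h
      exact absurd (Finset.mem_range.2 (Nat.succ_pos L)) h

/-- The core: a form in `y` which contains a power of `y_0` kills `z`. -/
theorem t3_core {n' : ℕ} {G : Germ (n' + 1) d B} (H : Std G x h s κ sg m ρ₁) (p : Pts G x)
    {z : B} (hz : x z = 0) (hz1 : z ∉ JI p (one (n' + 1)) 1) {N : ℕ}
    {c : MvPolynomial (Fin (n' + 1)) ℂ} (hc : c.IsHomogeneous N)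
    (hcoef : c.coeff (Finsupp.single 0 N) ≠ 0) (hcz : aeval G.y c * z ∈ GT p (N + 1)) :
    Strict G x h s := by
  classical
  have hy : ∀ i, x (G.y i) = 0 := fun i => congrFun H.sep.x_y i
  obtain ⟨L, cc, hcc, hcc0, hL⟩ := t3_eqn H hz
  obtain ⟨R, _, _, π, hπ⟩ := t3_ring H p
  have hcZ : aeval (fun i => π (t3T (G.y i) (hy i))) c * π (t3T z hz) = 0 := by
    rw [← MvPolynomial.comp_aeval_apply, ← map_mul, hπ]
    intro k
    show (((aeval (fun i => t3T (G.y i) (hy i)) c : reesAlgebra (RingHom.ker x)) :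
      Polynomial B) * Polynomial.monomial 1 z).coeff k ∈ GT p k
    rw [t3_coe, t3_form_eq G.y hc, Polynomial.monomial_mul_monomial, Polynomial.coeff_monomial]
    split_ifs with hk
    · subst hk
      exact hcz
    · exact t3_zero_mem p k
  -- the monic equation of `Z`
  let P : Polynomial (MvPolynomial (Fin (n' + 1)) ℂ) :=
    ∑ i ∈ Finset.range (L + 1), Polynomial.C (cc i) * Polynomial.X ^ (L - i)
  have hP : P.Monic := t3_monic hcc0
  have hPZ : P.eval₂ (aeval (fun i => π (t3T (G.y i) (hy i))) :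
      MvPolynomial (Fin (n' + 1)) ℂ →ₐ[ℂ] R).toRingHom (π (t3T z hz)) = 0 := by
    have h1 : P.eval₂ (aeval (fun i => π (t3T (G.y i) (hy i))) :
        MvPolynomial (Fin (n' + 1)) ℂ →ₐ[ℂ] R).toRingHom (π (t3T z hz)) =
        π (∑ i ∈ Finset.range (L + 1),
          aeval (fun i => t3T (G.y i) (hy i)) (cc i) * (t3T z hz) ^ (L - i)) := by
      simp only [P, Polynomial.eval₂_finsetSum, Polynomial.eval₂_mul, Polynomial.eval₂_C,
        Polynomial.eval₂_pow, Polynomial.eval₂_X, map_sum, map_mul, map_pow]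
      refine Finset.sum_congr rfl fun i _ => ?_
      rw [MvPolynomial.comp_aeval_apply]
      rfl
    rw [h1, hπ]
    intro k
    have h2 : ((∑ i ∈ Finset.range (L + 1),
          aeval (fun i => t3T (G.y i) (hy i)) (cc i) * (t3T z hz) ^ (L - i) :
            reesAlgebra (RingHom.ker x)) : Polynomial B) =
        Polynomial.monomial L (∑ i ∈ Finset.range (L + 1), aeval G.y (cc i) * z ^ (L - i)) := by
      rw [AddSubmonoidClass.coe_finsetSum, map_sum]
      refine Finset.sum_congr rfl fun i hi => ?_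
      have hi' : i ≤ L := Nat.lt_succ_iff.1 (Finset.mem_range.1 hi)
      show ((aeval (fun i => t3T (G.y i) (hy i)) (cc i) : reesAlgebra (RingHom.ker x)) :
        Polynomial B) * (Polynomial.monomial 1 z) ^ (L - i) = _
      rw [t3_coe, t3_form_eq G.y (hcc i), Polynomial.monomial_pow,
        Polynomial.monomial_mul_monomial, one_mul, Nat.add_sub_cancel' hi']
    rw [h2, Polynomial.coeff_monomial]
    split_ifs with hk
    · subst hk
      exact ker_pow_le_GT H hL
    · exact t3_zero_mem p k
  obtain ⟨Q, hQm, hQd, hQZ⟩ := t3_alg (fun i => π (t3T (G.y i) (hy i))) (π (t3T z hz)) hc hcoef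
    hcZ hP hPZ
  -- the coefficients
  have hres : (∑ i ∈ Finset.range (Q.natDegree + 1),
      aeval (fun i : Fin n' => G.y i.succ)
        (homogeneousComponent i (Q.coeff (Q.natDegree - i))) * z ^ (Q.natDegree - i)) ∈
      GT p Q.natDegree := by
    rw [← t3_coeff_eval]
    have h1 : π (Q.eval₂ (aeval (fun i : Fin n' =>
        t3T (G.y i.succ) (hy i.succ)) :
          MvPolynomial (Fin n') ℂ →ₐ[ℂ] reesAlgebra (RingHom.ker x)).toRingHom (t3T z hz)) =
        0 := by
      have h2 := Polynomial.hom_eval₂ Q (aeval (fun i : Fin n' =>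
        t3T (G.y i.succ) (hy i.succ)) :
          MvPolynomial (Fin n') ℂ →ₐ[ℂ] reesAlgebra (RingHom.ker x)).toRingHom
        (π : reesAlgebra (RingHom.ker x) →+* R) (t3T z hz)
      have h3 : (π : reesAlgebra (RingHom.ker x) →+* R).comp (aeval (fun i : Fin n' =>
        t3T (G.y i.succ) (hy i.succ)) :
          MvPolynomial (Fin n') ℂ →ₐ[ℂ] reesAlgebra (RingHom.ker x)).toRingHom =
          (aeval (fun i : Fin n' => π (t3T (G.y i.succ) (hy i.succ))) :
            MvPolynomial (Fin n') ℂ →ₐ[ℂ] R).toRingHom := by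
        refine RingHom.ext fun f => ?_
        exact MvPolynomial.comp_aeval_apply (fun i : Fin n' => t3T (G.y i.succ) (hy i.succ)) π f
      rw [h3] at h2
      exact h2.trans hQZ
    have h4 := (hπ _).1 h1 Q.natDegree
    have h5 := Polynomial.hom_eval₂ Q (aeval (fun i : Fin n' =>
        t3T (G.y i.succ) (hy i.succ)) :
          MvPolynomial (Fin n') ℂ →ₐ[ℂ] reesAlgebra (RingHom.ker x)).toRingHom
        (Subalgebra.val (reesAlgebra (RingHom.ker x)) :
          reesAlgebra (RingHom.ker x) →+* Polynomial B) (t3T z hz)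
    have h6 : (Subalgebra.val (reesAlgebra (RingHom.ker x)) :
          reesAlgebra (RingHom.ker x) →+* Polynomial B).comp
        (aeval (fun i : Fin n' => t3T (G.y i.succ) (hy i.succ)) :
          MvPolynomial (Fin n') ℂ →ₐ[ℂ] reesAlgebra (RingHom.ker x)).toRingHom =
          (aeval (fun i : Fin n' => Polynomial.monomial 1 (G.y i.succ)) :
            MvPolynomial (Fin n') ℂ →ₐ[ℂ] Polynomial B).toRingHom := by
      refine RingHom.ext fun f => ?_
      exact t3_coe _ (fun i : Fin n' => hy i.succ) f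
    rw [h6] at h5
    have h7 : ((Subalgebra.val (reesAlgebra (RingHom.ker x)) :
      reesAlgebra (RingHom.ker x) →+* Polynomial B)) (t3T z hz) =
      Polynomial.monomial 1 z := rfl
    rw [h7] at h5
    rw [← h5]
    exact h4
  refine strict_of_int H p hz hz1 hQd
    (fun i => rename Fin.succ (homogeneousComponent i (Q.coeff (Q.natDegree - i))))
    (fun i => ?_) 0 (fun i => ?_) ?_ ?_
  · exact (homogeneousComponent_isHomogeneous i _).rename_isHomogeneous
  · by_contra hne
    have h1 := mem_vars_iff_degreeOf_ne_zero.2 hne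
    have h2 := vars_rename Fin.succ _ h1
    rw [Finset.mem_image] at h2
    obtain ⟨a, -, ha⟩ := h2
    exact Fin.succ_ne_zero a ha
  · show rename Fin.succ (homogeneousComponent 0 (Q.coeff (Q.natDegree - 0))) = 1
    rw [Nat.sub_zero, hQm.coeff_natDegree, homogeneousComponent_zero]
    simp
  · simp only [aeval_rename]
    exact hres

/-- An invertible matrix with a given first column. -/
theorem t3_matrix {n' : ℕ} {v : Fin (n' + 1) → ℂ} (hv : v ≠ 0) :
    ∃ M N : Matrix (Fin (n' + 1)) (Fin (n' + 1)) ℂ, IsUnit M.det ∧ N * M = 1 ∧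
      ∀ i, N i 0 = v i := by
  classical
  obtain ⟨A, hA⟩ := SeparatingDual.exists_continuousLinearEquiv_apply_eq (R := ℂ)
    (x := (Pi.single 0 1 : Fin (n' + 1) → ℂ)) (y := v) (by simp) hv
  have h1 : LinearMap.toMatrix' (A : (Fin (n' + 1) → ℂ) →ₗ[ℂ] (Fin (n' + 1) → ℂ)) *
      LinearMap.toMatrix' (A.symm : (Fin (n' + 1) → ℂ) →ₗ[ℂ] (Fin (n' + 1) → ℂ)) = 1 := by
    rw [← LinearMap.toMatrix'_comp, ← LinearMap.toMatrix'_id]
    congr 1
    ext
    simp
  refine ⟨LinearMap.toMatrix' (A.symm : (Fin (n' + 1) → ℂ) →ₗ[ℂ] (Fin (n' + 1) → ℂ)),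
    LinearMap.toMatrix' (A : (Fin (n' + 1) → ℂ) →ₗ[ℂ] (Fin (n' + 1) → ℂ)), ?_, h1, fun i => ?_⟩
  · exact (Matrix.isUnit_iff_isUnit_det _).1 (IsUnit.of_mul_eq_one_right _ h1)
  · rw [LinearMap.toMatrix'_apply]
    exact congrFun hA i

/-- A form in `y` which kills `z`. -/
theorem t3_kill (H : Std G x h s κ sg m ρ₁) (p : Pts G x)
    {z : B} (hz : x z = 0) (hz1 : z ∉ JI p (one n) 1) {N : ℕ}
    {c : MvPolynomial (Fin n) ℂ} (hc : c.IsHomogeneous N) (hc0 : c ≠ 0)
    (hcz : aeval G.y c * z ∈ GT p (N + 1)) : Strict G x h s := by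
  classical
  obtain ⟨n', rfl⟩ : ∃ n', n = n' + 1 := ⟨n - 1, by have := H.hn; omega⟩
  -- a point
  obtain ⟨v, hv⟩ : ∃ v : Fin (n' + 1) → ℂ, eval v (c * X 0) ≠ 0 := by
    by_contra hcon
    push Not at hcon
    have : c * X 0 = 0 := MvPolynomial.funext fun v => by rw [hcon v, map_zero]
    rcases mul_eq_zero.1 this with h | h
    · exact hc0 h
    · exact X_ne_zero _ h
  rw [map_mul, eval_X] at hv
  have hv1 : eval v c ≠ 0 := left_ne_zero_of_mul hv
  have hv0 : v ≠ 0 := by
    rintro rfl
    exact right_ne_zero_of_mul hv rfl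
  obtain ⟨M, M', hM, hMM, hM'⟩ := t3_matrix hv0
  obtain ⟨G', p', ρ', hG', H', hJ, hvol⟩ := H.lin p M hM
  have hGT : ∀ t, GT p' t = GT p t := by
    intro t
    ext f
    simp only [GT, mem_ofPred_eq, hJ]
  -- the new form
  let c' : MvPolynomial (Fin (n' + 1)) ℂ := aeval (fun i => ∑ j, C (M' i j) * X j) c
  have hc' : c'.IsHomogeneous N := by
    have := hc.aeval (φ := c) (fun i => ∑ j, C (M' i j) * X j) (n := 1) (fun i => ?_)
    · rw [one_mul] at this
      exact this
    · exact IsHomogeneous.sum _ _ _ fun j _ => by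
        simpa using (isHomogeneous_C _ (M' i j)).mul (isHomogeneous_X _ j)
  have hev : aeval G'.y c' = aeval G.y c := by
    show aeval G'.y (aeval (fun i => ∑ j, C (M' i j) * X j) c) = _
    rw [MvPolynomial.comp_aeval_apply]
    congr 1
    congr 1
    funext i
    rw [map_sum]
    have h1 := congrFun (linChange_inv M M' hMM G.y) i
    rw [← hG'] at h1
    rw [← h1]
    refine Finset.sum_congr rfl fun j _ => ?_
    rw [map_mul, aeval_C, aeval_X, Algebra.smul_def]
  have hcoef : c'.coeff (Finsupp.single 0 N) ≠ 0 := by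
    have h1 : eval (Pi.single 0 1 : Fin (n' + 1) → ℂ) c' = c'.coeff (Finsupp.single 0 N) := by
      rw [eval_eq', Finset.sum_eq_single (Finsupp.single 0 N)]
      · rw [Finset.prod_eq_one, mul_one]
        intro i _
        refine Fin.cases ?_ (fun i => ?_) i
        · simp
        · simp
      · intro u hu hne
        have hdeg : ∑ i, u i = N := by
          rw [← Finsupp.degree_eq_sum]
          by_contra h
          exact (mem_support_iff.1 hu) (hc'.coeff_eq_zero h)
        obtain ⟨i, hi⟩ : ∃ i : Fin n', u i.succ ≠ 0 := by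
          by_contra hcon
          push Not at hcon
          apply hne
          rw [Fin.sum_univ_succ, Finset.sum_eq_zero fun i _ => hcon i, add_zero] at hdeg
          ext i
          refine Fin.cases ?_ (fun i => ?_) i
          · simp [hdeg]
          · simp [hcon]
        rw [Finset.prod_eq_zero (Finset.mem_univ i.succ), mul_zero]
        simp [hi]
      · intro h
        rw [notMem_support_iff.1 h, zero_mul]
    rw [← h1]
    have h2 : eval (Pi.single 0 1 : Fin (n' + 1) → ℂ) c' = eval v c := by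
      show eval _ (aeval (fun i => ∑ j, C (M' i j) * X j) c) = _
      rw [← coe_aeval_eq_eval, RingHom.coe_coe]
      rw [MvPolynomial.comp_aeval_apply]
      rw [← coe_aeval_eq_eval, RingHom.coe_coe]
      congr 1
      congr 1
      funext i
      rw [map_sum, Finset.sum_eq_single 0]
      · simp [hM']
      · intro j _ hj
        simp [hj]
      · simp
    rw [h2]
    exact hv1
  have := t3_core H' p' hz (by rwa [hJ]) hc' hcoef (by rw [hev, hGT]; exact hcz)
  rw [Strict, hvol] at this
  exact this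

/-- The rational root theorem. -/
theorem t3_dvd {A : Type} [CommRing A] [IsDomain A] [UniqueFactorizationMonoid A] {L : ℕ}
    {c : ℕ → A} (h0 : c 0 = 1) {a₀ a₁ : A} (ha : a₁ ≠ 0)
    (h : ∑ i ∈ Finset.range (L + 1), c i * a₁ ^ i * (-a₀) ^ (L - i) = 0) :
    ∃ b, a₁ * b = -a₀ := by
  have hK1 : algebraMap A (FractionRing A) a₁ ≠ 0 := by
    rw [Ne, FaithfulSMul.algebraMap_eq_zero_iff]
    exact ha
  have hroot : Polynomial.aeval
      (algebraMap A (FractionRing A) (-a₀) / algebraMap A (FractionRing A) a₁)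
      (∑ i ∈ Finset.range (L + 1), Polynomial.C (c i) * Polynomial.X ^ (L - i)) = 0 := by
    rw [map_sum]
    have h2 : ∑ i ∈ Finset.range (L + 1), algebraMap A (FractionRing A) (c i) *
        algebraMap A (FractionRing A) a₁ ^ i *
          algebraMap A (FractionRing A) (-a₀) ^ (L - i) = 0 := by
      have h3 := congrArg (algebraMap A (FractionRing A)) h
      rw [map_zero, map_sum] at h3
      rw [← h3]
      exact Finset.sum_congr rfl fun i _ => by rw [map_mul, map_mul, map_pow, map_pow]
    have h3 : ∑ i ∈ Finset.range (L + 1), Polynomial.aeval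
        (algebraMap A (FractionRing A) (-a₀) / algebraMap A (FractionRing A) a₁)
        (Polynomial.C (c i) * Polynomial.X ^ (L - i)) =
        (algebraMap A (FractionRing A) a₁ ^ L)⁻¹ *
        ∑ i ∈ Finset.range (L + 1), algebraMap A (FractionRing A) (c i) *
        algebraMap A (FractionRing A) a₁ ^ i *
          algebraMap A (FractionRing A) (-a₀) ^ (L - i) := by
      rw [Finset.mul_sum]
      refine Finset.sum_congr rfl fun i hi => ?_
      have hi' : i ≤ L := Nat.lt_succ_iff.1 (Finset.mem_range.1 hi)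
      rw [map_mul, map_pow, Polynomial.aeval_C, Polynomial.aeval_X, div_pow]
      have h4 : algebraMap A (FractionRing A) a₁ ^ L =
          algebraMap A (FractionRing A) a₁ ^ i *
            algebraMap A (FractionRing A) a₁ ^ (L - i) := by
        rw [← pow_add, Nat.add_sub_cancel' hi']
      rw [h4]
      field_simp
    rw [h3, h2, mul_zero]
  obtain ⟨b, hb⟩ := isInteger_of_is_root_of_monic (A := A) (K := FractionRing A)
    (t3_monic (L := L) h0) hroot
  refine ⟨b, FaithfulSMul.algebraMap_injective A (FractionRing A) ?_⟩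
  rw [map_mul, hb, mul_div_cancel₀ _ hK1]

/-- T3: there is no relation `a_0(y) + a_1(y) z`. -/
theorem no_rel (H : Std G x h s κ sg m ρ₁) (p : Pts G x) (hns : ¬ Strict G x h s) {z : B}
    (hz : x z = 0) (hz1 : z ∉ JI p (one n) 1) {j : ℕ} {a₀ a₁ : MvPolynomial (Fin n) ℂ}
    (h0 : a₀.IsHomogeneous (j + 1)) (h1 : a₁.IsHomogeneous j) (hne : a₀ ≠ 0 ∨ a₁ ≠ 0) :
    aeval G.y a₀ + aeval G.y a₁ * z ∉ GT p (j + 1) := by
  classical
  intro hmem
  have hy : ∀ i, x (G.y i) = 0 := fun i => congrFun H.sep.x_y i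
  obtain ⟨L, cc, hcc, hcc0, hL⟩ := t3_eqn H hz
  obtain ⟨R, _, _, π, hπ⟩ := t3_ring H p
  have hπ1 : ∀ (f : reesAlgebra (RingHom.ker x)) (N : ℕ) (b : B),
      (f : Polynomial B) = Polynomial.monomial N b → (π f = 0 ↔ b ∈ GT p N) := by
    intro f N b hf
    rw [hπ]
    constructor
    · intro h2
      have := h2 N
      rwa [hf, Polynomial.coeff_monomial, if_pos rfl] at this
    · intro h2 k
      rw [hf, Polynomial.coeff_monomial]
      split_ifs with hk
      · subst hk
        exact h2
      · exact t3_zero_mem p k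
  let T : MvPolynomial (Fin n) ℂ →ₐ[ℂ] reesAlgebra (RingHom.ker x) :=
    aeval (fun i => t3T (G.y i) (hy i))
  have hT : ∀ {c : MvPolynomial (Fin n) ℂ} {N : ℕ}, c.IsHomogeneous N →
      ((T c : reesAlgebra (RingHom.ker x)) : Polynomial B) =
        Polynomial.monomial N (aeval G.y c) := fun hc => by
    show ((aeval (fun i => t3T (G.y i) (hy i)) _ : reesAlgebra (RingHom.ker x)) :
      Polynomial B) = _
    rw [t3_coe, t3_form_eq G.y hc]
  -- the relation in `R`
  have hrel : π (T a₀) + π (T a₁) * π (t3T z hz) = 0 := by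
    rw [← map_mul, ← map_add, hπ1 _ (j + 1) (aeval G.y a₀ + aeval G.y a₁ * z)]
    · exact hmem
    · show ((T a₀ : reesAlgebra (RingHom.ker x)) : Polynomial B) +
        ((T a₁ : reesAlgebra (RingHom.ker x)) : Polynomial B) * Polynomial.monomial 1 z = _
      rw [hT h0, hT h1, Polynomial.monomial_mul_monomial, ← map_add]
  have hχ : ∑ i ∈ Finset.range (L + 1), π (T (cc i)) * π (t3T z hz) ^ (L - i) = 0 := by
    have h2 : ∑ i ∈ Finset.range (L + 1), π (T (cc i)) * π (t3T z hz) ^ (L - i) =
        π (∑ i ∈ Finset.range (L + 1), T (cc i) * (t3T z hz) ^ (L - i)) := by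
      rw [map_sum]
      exact Finset.sum_congr rfl fun i _ => by rw [map_mul, map_pow]
    rw [h2, hπ1 _ L (∑ i ∈ Finset.range (L + 1), aeval G.y (cc i) * z ^ (L - i))]
    · exact ker_pow_le_GT H hL
    · rw [AddSubmonoidClass.coe_finsetSum, map_sum]
      refine Finset.sum_congr rfl fun i hi => ?_
      have hi' : i ≤ L := Nat.lt_succ_iff.1 (Finset.mem_range.1 hi)
      show ((T (cc i) : reesAlgebra (RingHom.ker x)) : Polynomial B) *
        (Polynomial.monomial 1 z) ^ (L - i) = _
      rw [hT (hcc i), Polynomial.monomial_pow, Polynomial.monomial_mul_monomial, one_mul,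
        Nat.add_sub_cancel' hi']
  -- the resultant
  let r : MvPolynomial (Fin n) ℂ :=
    ∑ i ∈ Finset.range (L + 1), cc i * a₁ ^ i * (-a₀) ^ (L - i)
  have hr : r.IsHomogeneous (L * (j + 1)) := by
    refine IsHomogeneous.sum _ _ _ fun i hi => ?_
    have hi' : i ≤ L := Nat.lt_succ_iff.1 (Finset.mem_range.1 hi)
    have h2 := ((hcc i).mul (h1.pow i)).mul (h0.neg.pow (L - i))
    have h3 : i + j * i + (j + 1) * (L - i) = L * (j + 1) := by
      obtain ⟨k, rfl⟩ := Nat.exists_eq_add_of_le hi'
      rw [Nat.add_sub_cancel_left]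
      ring
    rwa [h3] at h2
  have hrG : aeval G.y r ∈ GT p (L * (j + 1)) := by
    rw [← hπ1 (T r) _ _ (hT hr)]
    have h2 : π (T r) = π (T a₁) ^ L *
        ∑ i ∈ Finset.range (L + 1), π (T (cc i)) * π (t3T z hz) ^ (L - i) := by
      rw [Finset.mul_sum]
      show π (T (∑ i ∈ Finset.range (L + 1), cc i * a₁ ^ i * (-a₀) ^ (L - i))) = _
      rw [map_sum, map_sum]
      refine Finset.sum_congr rfl fun i hi => ?_
      have hi' : i ≤ L := Nat.lt_succ_iff.1 (Finset.mem_range.1 hi)
      have h3 : π (T (-a₀)) = π (T a₁) * π (t3T z hz) := by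
        rw [map_neg, map_neg]
        exact neg_eq_of_add_eq_zero_right hrel
      rw [map_mul, map_mul, map_mul, map_mul, map_pow, map_pow, map_pow, map_pow, h3, mul_pow]
      have h4 : π (T a₁) ^ L = π (T a₁) ^ i * π (T a₁) ^ (L - i) := by
        rw [← pow_add, Nat.add_sub_cancel' hi']
      rw [h4]
      ring
    rw [h2, hχ, mul_zero]
  by_cases hr0 : r = 0
  swap
  · exact hns (t3_kill H p hz hz1 hr hr0 (GT_mul_pow H hrG (by rw [pow_one]; exact hz)))
  -- `r = 0`
  have ha₁ : a₁ ≠ 0 := by
    rintro rfl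
    have h2 : r = (-a₀) ^ L := by
      show ∑ i ∈ Finset.range (L + 1), cc i * 0 ^ i * (-a₀) ^ (L - i) = _
      rw [Finset.sum_eq_single 0]
      · simp [hcc0]
      · intro i _ hi
        rw [zero_pow hi, mul_zero, zero_mul]
      · intro h
        exact absurd (Finset.mem_range.2 (Nat.succ_pos L)) h
    rw [hr0] at h2
    have h3 := eq_zero_of_pow_eq_zero h2.symm
    rcases hne with h | h
    · exact h (neg_eq_zero.1 h3)
    · exact h rfl
  obtain ⟨b, hb2⟩ := t3_dvd (L := L) hcc0 ha₁ hr0
  -- the linear form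
  set l := homogeneousComponent 1 b with hl
  have hlh : l.IsHomogeneous 1 := homogeneousComponent_isHomogeneous 1 b
  have hl2 : a₁ * l = -a₀ := by
    have h2 : homogeneousComponent (j + 1) (a₁ * b) = -a₀ := by
      rw [hb2, homogeneousComponent_of_mem h0.neg, if_pos rfl]
    rw [← h2]
    conv_rhs => rw [← sum_homogeneousComponent b, Finset.mul_sum, map_sum]
    have h3 : ∀ i, homogeneousComponent (j + 1) (a₁ * homogeneousComponent i b) =
        if i = 1 then a₁ * l else 0 := by
      intro i
      rw [homogeneousComponent_of_mem (h1.mul (homogeneousComponent_isHomogeneous i b))]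
      by_cases hi : i = 1
      · subst hi
        rw [if_pos rfl, if_pos rfl]
      · rw [if_neg (by omega), if_neg hi]
    simp only [h3]
    rw [Finset.sum_ite_eq']
    split_ifs with h4
    · rfl
    · rw [Finset.mem_range, not_lt] at h4
      rw [hl, homogeneousComponent_eq_zero _ _ (by omega), mul_zero]
  -- the new `z`
  have hlx : x (aeval G.y l) = 0 := by
    have := t3_aeval_mem hy hlh
    rwa [pow_one] at this
  have hlJ : aeval G.y l ∈ JI p (one n) 1 := by
    rw [aeval_def, eval₂_eq']
    refine Ideal.sum_mem _ fun u hu => Ideal.mul_mem_left _ _ (mono_mem_JI p (one n) ?_)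
    have hdeg : ∑ i, u i = 1 := by
      rw [← Finsupp.degree_eq_sum]
      by_contra h
      exact (mem_support_iff.1 hu) (hlh.coeff_eq_zero h)
    simp only [one, one_mul]
    exact hdeg.ge
  refine hns (t3_kill H p (z := z - aeval G.y l) ?_ ?_ h1 ha₁ ?_)
  · rw [map_sub, hz, hlx, sub_zero]
  · intro h2
    apply hz1
    have := Ideal.add_mem _ h2 hlJ
    rwa [sub_add_cancel] at this
  · have h2 : aeval G.y a₁ * (z - aeval G.y l) = aeval G.y a₀ + aeval G.y a₁ * z := by
      have h3 := congrArg (aeval G.y) hl2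
      rw [map_mul, map_neg] at h3
      rw [mul_sub, h3]
      ring
    rw [h2]
    exact hmem

end Pool.Agent.Odp2
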