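import Pool.Agent.Odp2.Eq.T2
import Pool.Agent.Odp2.Eq.Lin
import Pool.Agent.Odp2.Lim.Colength
import Pool.Agent.ODP.Node

open scoped ContDiff Topology ENNReal NNReal WithZero
open Set MeasureTheory Filter MvPolynomial Pool.Agent.ODP

namespace Pool.Agent.Odp2

section

variable {n d : ℕ} {B : Type} [CommRing B] [Algebra ℂ B]

/-- `B` is finite and free over `ℂ[y]`. -/
theorem germ_isFiniteFree (G : Germ n d B) : IsFiniteFree ℂ G.y := by
  let _ : Algebra (MvPolynomial (Fin n) ℂ) B :=
    (MvPolynomial.aeval G.y : MvPolynomial (Fin n) ℂ →ₐ[ℂ] B).toRingHom.toAlgebra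
  have hsmul : ∀ (c : MvPolynomial (Fin n) ℂ) (b : B), c • b = aeval G.y c * b := fun c b => rfl
  let φ : (Fin d → MvPolynomial (Fin n) ℂ) →ₗ[MvPolynomial (Fin n) ℂ] B :=
    Fintype.linearCombination _ G.e
  have hφ : ∀ c, φ c = ∑ i, aeval G.y (c i) * G.e i := fun c => by
    simp [φ, Fintype.linearCombination_apply, hsmul]
  have hbij : Function.Bijective φ := by
    constructor
    · intro c c' h
      rw [hφ, hφ] at h
      exact (G.cf_unique _ c rfl).trans (G.cf_unique _ c' h).symm
    · intro b
      exact ⟨G.cf b, (hφ _).trans (G.cf_spec b).symm⟩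
  exact ⟨Module.Finite.of_surjective φ hbij.2,
    Module.Free.of_equiv (LinearEquiv.ofBijective φ hbij)⟩

theorem pt_surjective (x : Pt B) : Function.Surjective x := fun c =>
  ⟨algebraMap ℂ B c, by simp⟩

theorem ker_isMaximal' (x : Pt B) : (RingHom.ker x).IsMaximal :=
  RingHom.ker_isMaximal_of_surjective x (pt_surjective x)

/-- The elements outside the maximal ideal are units modulo a primary ideal. -/
theorem mem_of_mul_mem' {x : Pt B} {I : Ideal B} {t b : B} (ht : x t ≠ 0) {L : ℕ}
    (hI : ∀ c, x c = 0 → c ^ L ∈ I) (h : t * b ∈ I) : b ∈ I := by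
  set u : B := algebraMap ℂ B (x t)⁻¹ * t with hu
  have hu1 : x (1 - u) = 0 := by
    rw [hu, map_sub, map_one, map_mul, AlgHom.commutes, Algebra.algebraMap_self, RingHom.id_apply,
      inv_mul_cancel₀ ht, sub_self]
  have h1 : u ∣ 1 - (1 - u) ^ L := by
    have := sub_dvd_pow_sub_pow 1 (1 - u) L
    rwa [one_pow, sub_sub_cancel] at this
  obtain ⟨w, hw⟩ := h1
  have h2 : b = b * (1 - u) ^ L + (algebraMap ℂ B (x t)⁻¹ * w) * (t * b) := by
    have h3 : (algebraMap ℂ B (x t)⁻¹ * w) * (t * b) = b * (u * w) := by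
      rw [hu]
      ring
    rw [h3, ← hw]
    ring
  rw [h2]
  exact I.add_mem (I.mul_mem_left _ (hI _ hu1)) (I.mul_mem_left _ h)

/-- Descent from the local ring. -/
theorem exists_mul_mem {x : Pt B} {I : Ideal B} {b : B}
    (h : algebraMap B (Localization.AtPrime (RingHom.ker x)) b ∈
      I.map (algebraMap B (Localization.AtPrime (RingHom.ker x)))) :
    ∃ t : B, x t ≠ 0 ∧ t * b ∈ I := by
  rw [IsLocalization.algebraMap_mem_map_algebraMap_iff (RingHom.ker x).primeCompl] at h
  obtain ⟨t, ht, h⟩ := h
  exact ⟨t, ht, h⟩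

theorem colength_ker (x : Pt B) : colength ℂ (RingHom.ker x) = 1 := by
  unfold colength
  have e : (B ⧸ RingHom.ker x) ≃ₐ[ℂ] ℂ := Ideal.quotientKerAlgEquivOfSurjective (pt_surjective x)
  rw [e.toLinearEquiv.finrank_eq, Module.finrank_self]

end

variable {n d : ℕ} {B : Type} [CommRing B] [IsDomain B] [Algebra ℂ B] {G : Germ n d B} {x : Pt B}
  {h : B} {s κ : ℝ} {sg : B} {m : ℕ} {ρ₁ : ℝ}

theorem JI_one_ne_ker (p : Pts G x) : JI p (one n) 1 ≠ RingHom.ker x := by
  intro heq
  have h1 := colength_JI p (a := one n) (fun _ => le_rfl) 1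
  have h2 : {m : Fin n → ℕ | ∑ j, one n j * m j < 1} = {0} := by
    ext m
    simp only [one, one_mul, Set.mem_ofPred_eq, Set.mem_singleton_iff, Nat.lt_one_iff,
      Finset.sum_eq_zero_iff, Finset.mem_univ, true_implies]
    exact ⟨fun h => funext h, fun h j => congrFun h j⟩
  rw [heq, colength_ker, h2, Set.ncard_singleton] at h1
  omega

theorem finite_paramQuotient' (G : Germ n d B) (x : Pt B) :
    Module.Finite ℂ (Localization.AtPrime (RingHom.ker x) ⧸ paramIdeal (RingHom.ker x) G.y) := by
  have hmax : (RingHom.ker x).IsMaximal := ker_isMaximal' x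
  let : Algebra (MvPolynomial (Fin n) ℂ) B :=
    (MvPolynomial.aeval G.y : MvPolynomial (Fin n) ℂ →ₐ[ℂ] B).toRingHom.toAlgebra
  have hfin : Module.Finite (MvPolynomial (Fin n) ℂ) B := (germ_isFiniteFree G).1
  have htow : IsScalarTower ℂ (MvPolynomial (Fin n) ℂ) B :=
    IsScalarTower.of_algebraMap_eq fun c => ((MvPolynomial.aeval G.y).commutes c).symm
  have hX : ∀ i, algebraMap (MvPolynomial (Fin n) ℂ) B (MvPolynomial.X i) = G.y i := fun i =>
    MvPolynomial.aeval_X G.y i
  have h := finite_quotient (k := ℂ) (n := n) (B := B)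
  rw [funext hX] at h
  exact finite_local_quotient (RingHom.ker x) G.y h

/-- An element which generates the maximal ideal with the `y_j` is not in `J_1`. -/
theorem not_mem_JI_one (p : Pts G x) {z : B}
    (hm : paramIdeal (RingHom.ker x) G.y ⊔
      Ideal.span {algebraMap B (Localization.AtPrime (RingHom.ker x)) z} =
        IsLocalRing.maximalIdeal (Localization.AtPrime (RingHom.ker x))) :
    z ∉ JI p (one n) 1 := by
  intro hz
  refine JI_one_ne_ker p (le_antisymm (JI_le_ker p le_rfl) fun b hb => ?_)
  have h1 : algebraMap B (Localization.AtPrime (RingHom.ker x)) b ∈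
      (JI p (one n) 1).map (algebraMap B (Localization.AtPrime (RingHom.ker x))) := by
    have h2 : algebraMap B (Localization.AtPrime (RingHom.ker x)) b ∈
        IsLocalRing.maximalIdeal (Localization.AtPrime (RingHom.ker x)) := by
      rw [← Localization.AtPrime.map_eq_maximalIdeal]
      exact Ideal.mem_map_of_mem _ hb
    rw [← hm] at h2
    have h5 : paramIdeal (RingHom.ker x) G.y ⊔
        Ideal.span {algebraMap B (Localization.AtPrime (RingHom.ker x)) z} ≤
        (JI p (one n) 1).map (algebraMap B (Localization.AtPrime (RingHom.ker x))) := by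
      refine sup_le (Ideal.map_mono ?_) ?_
      rotate_left
      · rw [Ideal.span_le, Set.singleton_subset_iff]
        exact Ideal.mem_map_of_mem _ hz
      rw [Ideal.span_le]
      rintro _ ⟨j, rfl⟩
      have h3 := mono_mem_JI p (one n) (N := 1) (m := Pi.single j 1) (by simp [one])
      have h4 : ∏ i, G.y i ^ (Pi.single j 1 : Fin n → ℕ) i = G.y j := by
        rw [Finset.prod_eq_single j (fun i _ hi => by simp [hi]) (by simp)]
        simp
      rwa [h4] at h3
    exact h5 h2
  obtain ⟨t, ht, h2⟩ := exists_mul_mem h1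
  exact mem_of_mul_mem' ht (fun c hc => pow_mem_JI p (fun _ => le_rfl) 1 hc) h2

/-- T7: two sheets. -/
theorem node_of_two (H : Std G x h s κ sg m ρ₁) (p : Pts G x)
    (h2 : paramLength ℂ (RingHom.ker x) G.y = 2) (hns : ¬ Strict G x h s) :
    IsNodeAt n (RingHom.ker x) := by
  have hmax : (RingHom.ker x).IsMaximal := ker_isMaximal' x
  have hy := germ_isFiniteFree G
  have hyx : ∀ i, G.y i ∈ RingHom.ker x := fun i => congrFun H.sep.x_y i
  have hk : ∀ b : B, ∃ a : ℂ, b - algebraMap ℂ B a ∈ RingHom.ker x := fun b =>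
    ⟨x b, by rw [RingHom.mem_ker, map_sub, AlgHom.commutes]; simp⟩
  obtain ⟨z, hz, hm, hsq⟩ := exists_z (RingHom.ker x) G.y hk
    (finite_paramQuotient' G x) hyx h2
  set ι : B →+* Localization.AtPrime (RingHom.ker x) :=
    algebraMap B (Localization.AtPrime (RingHom.ker x)) with hι
  have hspan : Ideal.span (Set.range fun i => ι (G.y i)) = paramIdeal (RingHom.ker x) G.y := by
    rw [paramIdeal, Ideal.map_span, ← Set.range_comp]
    rfl
  have hzm : ι z ∈ IsLocalRing.maximalIdeal (Localization.AtPrime (RingHom.ker x)) := by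
    rw [← hm]
    exact Ideal.mem_sup_right (Ideal.mem_span_singleton_self _)
  have hz2 : (ι z) ^ 2 ∈ paramIdeal (RingHom.ker x) G.y *
      IsLocalRing.maximalIdeal (Localization.AtPrime (RingHom.ker x)) := by
    have h1 := Ideal.pow_mem_pow hzm 2
    exact paramIdeal_inf_sq_le G.y hy (RingHom.ker x) hyx H.red hk ⟨hsq h1, h1⟩
  obtain ⟨q, a, hqa⟩ := exists_quad' (k := ℂ) (fun i => ι (G.y i)) (ι z)
    (exists_const_loc (RingHom.ker x) hk) (by rw [hspan]; exact hm) (by rw [hspan]; exact hz2)
  obtain ⟨M, N, D, hNM, hD⟩ := exists_diag q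
  rw [hD (L := Localization.AtPrime (RingHom.ker x))] at hqa
  have hlin : ∀ b : Fin n → ℂ, ι (∑ i, b i • G.y i) = ∑ i, b i • ι (G.y i) := by
    intro b
    rw [map_sum]
    refine Finset.sum_congr rfl fun i _ => ?_
    rw [Algebra.smul_def, Algebra.smul_def, map_mul, ← IsScalarTower.algebraMap_apply]
  have hlinM : ∀ l, linChange M (fun i => ι (G.y i)) l = ι (linChange M G.y l) := fun l =>
    (hlin _).symm
  simp only [hlinM] at hqa
  rw [← hlin, ← map_sub] at hqa
  set z' : B := z - ∑ i, a i • G.y i with hz'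
  have hdiff : ι (∑ i, a i • G.y i) ∈ paramIdeal (RingHom.ker x) G.y := by
    refine Ideal.mem_map_of_mem _ (Ideal.sum_mem _ fun i _ => ?_)
    rw [Algebra.smul_def]
    exact Ideal.mul_mem_left _ _ (Ideal.subset_span ⟨i, rfl⟩)
  have hm' : paramIdeal (RingHom.ker x) G.y ⊔ Ideal.span {ι z'} =
      IsLocalRing.maximalIdeal (Localization.AtPrime (RingHom.ker x)) := by
    rw [← hm]
    apply le_antisymm
    · refine sup_le le_sup_left ?_
      rw [Ideal.span_le, Set.singleton_subset_iff, SetLike.mem_coe, hz', map_sub]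
      exact Ideal.sub_mem _ (Ideal.mem_sup_right (Ideal.mem_span_singleton_self _))
        (Ideal.mem_sup_left hdiff)
    · refine sup_le le_sup_left ?_
      rw [Ideal.span_le, Set.singleton_subset_iff, SetLike.mem_coe]
      have h1 : ι z = ι z' + ι (∑ i, a i • G.y i) := by
        rw [← map_add, hz', sub_add_cancel]
      rw [h1]
      exact Ideal.add_mem _ (Ideal.mem_sup_right (Ideal.mem_span_singleton_self _))
        (Ideal.mem_sup_left hdiff)
  by_cases h0 : ∃ i₀, D i₀ = 0
  · exfalso
    obtain ⟨i₀, hi₀⟩ := h0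
    obtain ⟨G', p', ρ', hG', H', hJI, hnv⟩ := H.lin p M (by
      have h1 := congrArg Matrix.det hNM
      rw [Matrix.det_mul, Matrix.det_one] at h1
      exact IsUnit.of_mul_eq_one_right _ h1)
    refine hns ?_
    have hstrict : Strict G' x h s := by
      have hxz : x z' = 0 := by
        have h1 : ι z' ∈ IsLocalRing.maximalIdeal (Localization.AtPrime (RingHom.ker x)) := by
          rw [← hm']
          exact Ideal.mem_sup_right (Ideal.mem_span_singleton_self _)
        rwa [hι, IsLocalization.AtPrime.to_map_mem_maximal_iff _ (RingHom.ker x)] at h1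
      refine strict_of_int H' p' (z := z') hxz ?_ (N' := 2) (by norm_num)
        (fun i => if i = 0 then 1 else if i = 2 then - ∑ l, C (D l) * X l ^ 2 else 0) ?_ i₀ ?_ rfl
        ?_
      · rw [hJI]
        exact not_mem_JI_one p hm'
      · intro i
        split_ifs with h1 h2
        · rw [h1]
          exact isHomogeneous_one _ _
        · rw [h2]
          refine (IsHomogeneous.sum _ _ _ fun l _ => ?_).neg
          simpa using (isHomogeneous_C (Fin n) (D l)).mul ((isHomogeneous_X ℂ l).pow 2)
        · exact isHomogeneous_zero _ _ _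
      · intro i
        split_ifs with h1 h2
        · exact degreeOf_one _
        · rw [degreeOf_neg]
          refine Nat.le_zero.1 ((degreeOf_sum_le _ _ _).trans (Finset.sup_le fun l _ => ?_))
          by_cases hl : l = i₀
          · rw [hl, hi₀]
            simp
          · refine (degreeOf_mul_le _ _ _).trans ?_
            rw [degreeOf_C, zero_add]
            refine (degreeOf_pow_le _ _ _).trans ?_
            rw [degreeOf_X_of_ne (Ne.symm hl)]
        · exact degreeOf_zero _
      · have h1 : ∑ i ∈ Finset.range (2 + 1), aeval G'.y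
            ((fun i => if i = 0 then 1 else if i = 2 then - ∑ l, C (D l) * X l ^ 2 else 0 :
              ℕ → MvPolynomial (Fin n) ℂ) i) * z' ^ (2 - i) =
            z' ^ 2 - ∑ l, D l • (linChange M G.y l) ^ 2 := by
          simp [Finset.sum_range_succ, hG', Algebra.smul_def, sub_eq_add_neg]
        rw [h1]
        refine ker_pow_le_GT H' (j := 2) ?_
        have h3 : ι (z' ^ 2 - ∑ l, D l • (linChange M G.y l) ^ 2) ∈
            ((RingHom.ker x) ^ 3).map ι := by
          rw [Ideal.map_pow, hι, Localization.AtPrime.map_eq_maximalIdeal]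
          convert hqa using 1
          rw [map_sub, map_pow, map_sum]
          congr 1
          refine Finset.sum_congr rfl fun l _ => ?_
          rw [Algebra.smul_def, Algebra.smul_def, map_mul, map_pow,
            ← IsScalarTower.algebraMap_apply]
        obtain ⟨t, ht, h4⟩ := exists_mul_mem h3
        exact mem_of_mul_mem' ht (fun c hc => Ideal.pow_mem_pow hc 3) h4
    unfold Strict at hstrict ⊢
    rwa [hnv] at hstrict
  · push Not at h0
    refine isNodeAt_of_diag (RingHom.ker x) (fun l => ι (linChange M G.y l)) (ι z') D h0 ?_ hqa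
    have hspan' : Ideal.span (Set.range fun l => ι (linChange M G.y l)) =
        paramIdeal (RingHom.ker x) (linChange M G.y) := by
      rw [paramIdeal, Ideal.map_span, ← Set.range_comp]
      rfl
    rw [hspan', paramIdeal_linChange M N hNM]
    exact hm'

end Pool.Agent.Odp2
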