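import Mathlib

/-!
# T5: two kinds of sheets (a statement about finitely many complex numbers)
-/

set_option autoImplicit false

open Set

namespace Pool.Agent.Odp2

/-- `H(T) = T^j - σ₁ T^(j-1) + … ± σ_j` -/
def t5H (σ : ℕ → ℂ) (j : ℕ) (T : ℂ) : ℂ := ∑ l ∈ Finset.range (j + 1), (-1) ^ l * σ l * T ^ (j - l)

/-- `H(0)` -/
def t5S (σ : ℕ → ℂ) (j : ℕ) : ℂ := (-1) ^ j * σ j

/-- `(-T H₁(T))^(e - j)`, where `H(T) = H(0) + T H₁(T)` -/
def t5F (σ : ℕ → ℂ) (e j : ℕ) (T : ℂ) : ℂ := (t5S σ j - t5H σ j T) ^ (e - j)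

/-- `H₁(T)` -/
def t5H1 (σ : ℕ → ℂ) (j : ℕ) (T : ℂ) : ℂ := ∑ l ∈ Finset.range j, (-1) ^ l * σ l * T ^ (j - 1 - l)

theorem t5H_eq (σ : ℕ → ℂ) (j : ℕ) (T : ℂ) : t5H σ j T = t5S σ j + T * t5H1 σ j T := by
  unfold t5H t5S t5H1
  rw [Finset.sum_range_succ, Nat.sub_self, pow_zero, mul_one, add_comm, Finset.mul_sum]
  congr 1
  refine Finset.sum_congr rfl fun l hl => ?_
  have hl' := Finset.mem_range.1 hl
  have : j - l = (j - 1 - l) + 1 := by omega
  rw [this, pow_succ]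
  ring

theorem t5_norm_S (σ : ℕ → ℂ) (j : ℕ) : ‖t5S σ j‖ = ‖σ j‖ := by
  unfold t5S
  rw [norm_mul, norm_pow, norm_neg, norm_one, one_pow, one_mul]

section

variable {e : ℕ} {g : Fin e → ℂ} {σ : ℕ → ℂ}

/-- the relation between the numbers `g i` and the `σ l` -/
def T5Sym (g : Fin e → ℂ) (σ : ℕ → ℂ) : Prop :=
  ∏ i, (Polynomial.X - Polynomial.C (g i)) =
    ∑ i ∈ Finset.range (e + 1), Polynomial.C ((-1) ^ i * σ i) * Polynomial.X ^ (e - i)

theorem T5Sym.coeff (h : T5Sym g σ) {l : ℕ} (hl : l ≤ e) :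
    (∏ i, (Polynomial.X - Polynomial.C (g i)) : Polynomial ℂ).coeff (e - l) = (-1) ^ l * σ l := by
  rw [h, Polynomial.finset_sum_coeff, Finset.sum_eq_single l]
  · rw [Polynomial.coeff_C_mul_X_pow, if_pos rfl]
  · intro i hi hil
    have hi' := Finset.mem_range.1 hi
    rw [Polynomial.coeff_C_mul_X_pow, if_neg]
    omega
  · intro hl2
    exact absurd (Finset.mem_range.2 (by omega)) hl2

theorem T5Sym.norm_le (h : T5Sym g σ) {B : ℝ} (hB : ∀ i, ‖g i‖ ≤ B) {l : ℕ} (hl : l ≤ e) :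
    ‖σ l‖ ≤ B ^ l * 2 ^ e := by
  classical
  have h1 := Polynomial.coeff_le_of_roots_le (f := RingHom.id ℂ)
    (p := ∏ i, (Polynomial.X - Polynomial.C (g i))) (B := B) (e - l)
    (Polynomial.monic_prod_X_sub_C _ _) (IsAlgClosed.splits _) (by
      intro z hz
      rw [Polynomial.map_id] at hz
      have h2 := Polynomial.isRoot_of_mem_roots hz
      rw [Polynomial.IsRoot.def, Polynomial.eval_prod, Finset.prod_eq_zero_iff] at h2
      obtain ⟨i, _, hi⟩ := h2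
      rw [Polynomial.eval_sub, Polynomial.eval_X, Polynomial.eval_C, sub_eq_zero] at hi
      rw [hi]
      exact hB i)
  have hdeg : (∏ i, (Polynomial.X - Polynomial.C (g i)) : Polynomial ℂ).natDegree = e := by
    rw [Polynomial.natDegree_finset_prod_X_sub_C_eq_card]
    simp
  rw [Polynomial.map_id, h.coeff hl, hdeg, norm_mul, norm_pow, norm_neg, norm_one, one_pow,
    one_mul, Nat.sub_sub_self hl] at h1
  rcases Nat.eq_zero_or_pos l with rfl | hl0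
  · rw [pow_zero, one_mul] at h1 ⊢
    refine h1.trans ?_
    exact_mod_cast Nat.choose_le_two_pow e (e - 0)
  · have hB0 : 0 ≤ B := (norm_nonneg _).trans (hB ⟨0, by omega⟩)
    refine h1.trans ?_
    apply mul_le_mul_of_nonneg_left _ (by positivity)
    exact_mod_cast Nat.choose_le_two_pow e (e - l)

theorem T5Sym.norm_last (h : T5Sym g σ) : ‖σ e‖ = ∏ i, ‖g i‖ := by
  have h1 := h.coeff le_rfl
  rw [Nat.sub_self, Polynomial.coeff_zero_eq_eval_zero, Polynomial.eval_prod] at h1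
  have h2 := congrArg norm h1
  rw [norm_mul, norm_pow, norm_neg, norm_one, one_pow, one_mul, norm_prod] at h2
  rw [← h2]
  refine Finset.prod_congr rfl fun i _ => ?_
  simp

theorem T5Sym.root (h : T5Sym g σ) {j : ℕ} (hj : j ≤ e) (i : Fin e) :
    g i ^ (e - j) * t5H σ j (g i) =
      -∑ l ∈ Finset.Ico (j + 1) (e + 1), (-1) ^ l * σ l * g i ^ (e - l) := by
  have h1 := congrArg (Polynomial.eval (g i)) h
  rw [Polynomial.eval_prod, Finset.prod_eq_zero (Finset.mem_univ i) (by simp),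
    Polynomial.eval_finset_sum] at h1
  have h2 : ∑ l ∈ Finset.range (e + 1), (-1) ^ l * σ l * g i ^ (e - l) = 0 := by
    rw [h1]
    refine Finset.sum_congr rfl fun l _ => ?_
    rw [Polynomial.eval_mul, Polynomial.eval_C, Polynomial.eval_pow, Polynomial.eval_X]
  rw [← Finset.sum_range_add_sum_Ico _ (show j + 1 ≤ e + 1 by omega)] at h2
  rw [← eq_neg_of_add_eq_zero_left h2]
  unfold t5H
  rw [Finset.mul_sum]
  refine Finset.sum_congr rfl fun l hl => ?_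
  have hl' := Finset.mem_range.1 hl
  have : e - l = (e - j) + (j - l) := by omega
  rw [this, pow_add]
  ring

/-- the product of the two factors is small -/
theorem t5_root_le (h : T5Sym g σ) {j : ℕ} (hj : j < e) (hg : ∀ i, ‖g i‖ ≤ 1) {δ : ℝ}
    (hδ : ∀ l, j < l → l ≤ e → ‖σ l‖ ≤ δ) (i : Fin e) :
    ‖g i ^ (e - j) * t5H σ j (g i)‖ ≤ e * δ := by
  rw [h.root hj.le i, norm_neg]
  have hδ0 : 0 ≤ δ := (norm_nonneg _).trans (hδ e hj le_rfl)
  calc ‖∑ l ∈ Finset.Ico (j + 1) (e + 1), (-1) ^ l * σ l * g i ^ (e - l)‖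
      ≤ ∑ l ∈ Finset.Ico (j + 1) (e + 1), δ := by
        refine (norm_sum_le _ _).trans (Finset.sum_le_sum fun l hl => ?_)
        have hl' := Finset.mem_Ico.1 hl
        rw [norm_mul, norm_mul, norm_pow, norm_neg, norm_one, one_pow, one_mul, norm_pow]
        have h1 := hδ l (by omega) (by omega)
        have h2 : ‖g i‖ ^ (e - l) ≤ 1 := pow_le_one₀ (norm_nonneg _) (hg i)
        calc ‖σ l‖ * ‖g i‖ ^ (e - l) ≤ δ * 1 :=
              mul_le_mul h1 h2 (by positivity) hδ0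
          _ = δ := mul_one δ
    _ = ((e - j : ℕ) : ℝ) * δ := by
        rw [Finset.sum_const, Nat.card_Ico, nsmul_eq_mul]
        congr 2
        omega
    _ ≤ e * δ := by
        apply mul_le_mul_of_nonneg_right _ hδ0
        exact_mod_cast Nat.sub_le e j

theorem t5_H1_le {C : ℝ} (hσ : ∀ l, l ≤ e → ‖σ l‖ ≤ C) {j : ℕ} (hj : j < e) {T : ℂ}
    (hT : ‖T‖ ≤ 1) : ‖t5H1 σ j T‖ ≤ e * C := by
  have hC : 0 ≤ C := (norm_nonneg _).trans (hσ 0 (Nat.zero_le e))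
  unfold t5H1
  calc ‖∑ l ∈ Finset.range j, (-1) ^ l * σ l * T ^ (j - 1 - l)‖
      ≤ ∑ l ∈ Finset.range j, C := by
        refine (norm_sum_le _ _).trans (Finset.sum_le_sum fun l hl => ?_)
        have hl' := Finset.mem_range.1 hl
        rw [norm_mul, norm_mul, norm_pow, norm_neg, norm_one, one_pow, one_mul, norm_pow]
        calc ‖σ l‖ * ‖T‖ ^ (j - 1 - l) ≤ C * 1 :=
              mul_le_mul (hσ l (by omega)) (pow_le_one₀ (norm_nonneg _) hT) (by positivity) hC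
          _ = C := mul_one C
    _ = (j : ℝ) * C := by
        rw [Finset.sum_const, Finset.card_range, nsmul_eq_mul]
    _ ≤ e * C := by
        apply mul_le_mul_of_nonneg_right _ hC
        exact_mod_cast hj.le

/-- the product `f₁ f₂` is small -/
theorem t5_prod_le (h : T5Sym g σ) {j : ℕ} (hj : j < e) (hg : ∀ i, ‖g i‖ ≤ 1) {δ : ℝ}
    (hδ : ∀ l, j < l → l ≤ e → ‖σ l‖ ≤ δ) (i : Fin e) :
    ‖t5F σ e j (g i) * (t5S σ j ^ (e - j) - t5F σ e j (g i))‖ ≤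
      ((e : ℝ) * 2 ^ e) ^ (2 * e) * (e * (e * δ)) := by
  have he : 1 ≤ e := by omega
  have he1 : (1 : ℝ) ≤ e := by exact_mod_cast he
  set C : ℝ := (e : ℝ) * 2 ^ e with hC
  have h2e : (1 : ℝ) ≤ 2 ^ e := one_le_pow₀ (by norm_num)
  have hC1 : 1 ≤ C := by nlinarith
  have hσ : ∀ l, l ≤ e → ‖σ l‖ ≤ 2 ^ e := by
    intro l hl
    have := h.norm_le hg hl
    rwa [one_pow, one_mul] at this
  have hδ0 : 0 ≤ δ := (norm_nonneg _).trans (hδ e hj le_rfl)
  have hH1 : ‖t5H1 σ j (g i)‖ ≤ C := t5_H1_le hσ hj (hg i)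
  have hS : ‖t5S σ j‖ ≤ C := by
    rw [t5_norm_S]
    refine (hσ j hj.le).trans ?_
    nlinarith
  have e1 : t5S σ j - t5H σ j (g i) = -(g i * t5H1 σ j (g i)) := by
    rw [t5H_eq]
    ring
  have hSH : ‖t5S σ j - t5H σ j (g i)‖ ≤ C := by
    rw [e1, norm_neg, norm_mul]
    calc ‖g i‖ * ‖t5H1 σ j (g i)‖ ≤ 1 * C :=
          mul_le_mul (hg i) hH1 (norm_nonneg _) (by norm_num)
      _ = C := one_mul C
  set μ := e - j with hμ
  have hμ1 : 1 ≤ μ := by omega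
  have hμe : μ ≤ e := by omega
  -- factorization
  have e2 : t5F σ e j (g i) = (-t5H1 σ j (g i)) ^ μ * g i ^ μ := by
    unfold t5F
    rw [← hμ, e1, ← mul_pow]
    ring
  have e3 : t5S σ j ^ μ - t5F σ e j (g i) =
      (∑ a ∈ Finset.range μ, t5S σ j ^ a * (t5S σ j - t5H σ j (g i)) ^ (μ - 1 - a)) *
        t5H σ j (g i) := by
    have := geom_sum₂_mul (t5S σ j) (t5S σ j - t5H σ j (g i)) μ
    rw [sub_sub_cancel] at this
    rw [this]
    rfl
  have e4 : t5F σ e j (g i) * (t5S σ j ^ μ - t5F σ e j (g i)) =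
      (-t5H1 σ j (g i)) ^ μ *
      (∑ a ∈ Finset.range μ, t5S σ j ^ a * (t5S σ j - t5H σ j (g i)) ^ (μ - 1 - a)) *
        (g i ^ μ * t5H σ j (g i)) := by
    rw [e3, e2]
    ring
  have hsum : ‖∑ a ∈ Finset.range μ, t5S σ j ^ a * (t5S σ j - t5H σ j (g i)) ^ (μ - 1 - a)‖ ≤
      e * C ^ e := by
    calc _ ≤ ∑ a ∈ Finset.range μ, C ^ e := by
          refine (norm_sum_le _ _).trans (Finset.sum_le_sum fun a ha => ?_)
          have ha' := Finset.mem_range.1 ha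
          rw [norm_mul, norm_pow, norm_pow]
          calc ‖t5S σ j‖ ^ a * ‖t5S σ j - t5H σ j (g i)‖ ^ (μ - 1 - a)
              ≤ C ^ a * C ^ (μ - 1 - a) := by gcongr
            _ = C ^ (a + (μ - 1 - a)) := (pow_add _ _ _).symm
            _ ≤ C ^ e := pow_le_pow_right₀ hC1 (by omega)
      _ = (μ : ℝ) * C ^ e := by
          rw [Finset.sum_const, Finset.card_range, nsmul_eq_mul]
      _ ≤ e * C ^ e := by
          apply mul_le_mul_of_nonneg_right _ (by positivity)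
          exact_mod_cast hμe
  have hp1 : ‖(-t5H1 σ j (g i)) ^ μ‖ ≤ C ^ e := by
    rw [norm_pow, norm_neg]
    calc ‖t5H1 σ j (g i)‖ ^ μ ≤ C ^ μ := by gcongr
      _ ≤ C ^ e := pow_le_pow_right₀ hC1 hμe
  have hp2 : ‖g i ^ μ * t5H σ j (g i)‖ ≤ e * δ := t5_root_le h hj hg hδ i
  rw [e4, norm_mul, norm_mul]
  calc ‖(-t5H1 σ j (g i)) ^ μ‖ *
        ‖∑ a ∈ Finset.range μ, t5S σ j ^ a * (t5S σ j - t5H σ j (g i)) ^ (μ - 1 - a)‖ *
        ‖g i ^ μ * t5H σ j (g i)‖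
      ≤ C ^ e * (e * C ^ e) * (e * δ) := by gcongr
    _ = C ^ (2 * e) * (e * (e * δ)) := by
        rw [two_mul, pow_add]
        ring

/-- powers of numbers close to `1` -/
theorem t5_pow_sub_one {y : ℂ} {k : ℕ} (h : 2 * k * ‖y‖ ≤ 1) :
    ‖(1 - y) ^ k - 1‖ ≤ 2 * k * ‖y‖ := by
  induction k with
  | zero => simp
  | succ k ih =>
    have hy := norm_nonneg y
    have h1 : 2 * (k : ℝ) * ‖y‖ ≤ 1 := by
      push_cast at h
      nlinarith
    have h2 := ih h1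
    have e1 : (1 - y) ^ (k + 1) - 1 = ((1 - y) ^ k - 1) - y * ((1 - y) ^ k - 1) - y := by
      rw [pow_succ]
      ring
    rw [e1]
    calc ‖((1 - y) ^ k - 1) - y * ((1 - y) ^ k - 1) - y‖
        ≤ ‖(1 - y) ^ k - 1‖ + ‖y‖ * ‖(1 - y) ^ k - 1‖ + ‖y‖ := by
          refine (norm_sub_le _ _).trans ?_
          gcongr
          refine (norm_sub_le _ _).trans ?_
          rw [norm_mul]
      _ ≤ 2 * k * ‖y‖ + ‖y‖ * 1 + ‖y‖ := by
          gcongr
          exact h2.trans h1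
      _ = 2 * ((k + 1 : ℕ) : ℝ) * ‖y‖ := by
          push_cast
          ring

theorem t5_kind1 {S H : ℂ} (hS : S ≠ 0) {μ e : ℕ} (hμe : μ ≤ e) (he : 1 ≤ e)
    (h : 8 * e * ‖H‖ ≤ ‖S‖) : 2 * ‖S ^ μ - (S - H) ^ μ‖ ≤ ‖(S - H) ^ μ‖ := by
  have hS0 : 0 < ‖S‖ := norm_pos_iff.2 hS
  have he0 : (0 : ℝ) < e := by exact_mod_cast he
  set y : ℂ := H / S with hy
  have hyn : 2 * (μ : ℝ) * ‖y‖ ≤ 1 / 4 := by
    rw [hy, norm_div]
    have h1 : ‖H‖ / ‖S‖ ≤ 1 / (8 * e) := by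
      rw [div_le_div_iff₀ hS0 (by positivity)]
      linarith
    have h2 : (μ : ℝ) ≤ e := by exact_mod_cast hμe
    calc 2 * (μ : ℝ) * (‖H‖ / ‖S‖) ≤ 2 * e * (1 / (8 * e)) := by gcongr
      _ = 1 / 4 := by
          field_simp
          norm_num
  have h1 := t5_pow_sub_one (y := y) (k := μ) (by linarith)
  have e1 : (S - H) ^ μ = S ^ μ * (1 - y) ^ μ := by
    rw [← mul_pow, hy, mul_sub, mul_one, mul_div_cancel₀ _ hS]
  have e2 : S ^ μ - (S - H) ^ μ = -(S ^ μ * ((1 - y) ^ μ - 1)) := by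
    rw [e1]
    ring
  have h3 : 3 / 4 ≤ ‖(1 - y) ^ μ‖ := by
    have h4 : (1 : ℂ) = (1 - y) ^ μ - ((1 - y) ^ μ - 1) := by ring
    have h5 : ‖(1 : ℂ)‖ ≤ ‖(1 - y) ^ μ‖ + ‖(1 - y) ^ μ - 1‖ := by
      calc ‖(1 : ℂ)‖ = ‖(1 - y) ^ μ - ((1 - y) ^ μ - 1)‖ := by rw [← h4]
        _ ≤ _ := norm_sub_le _ _
    rw [norm_one] at h5
    linarith
  rw [e2, e1, norm_neg, norm_mul, norm_mul]
  have h4 : 0 ≤ ‖S ^ μ‖ := norm_nonneg _
  calc 2 * (‖S ^ μ‖ * ‖(1 - y) ^ μ - 1‖) ≤ 2 * (‖S ^ μ‖ * (1 / 4)) := by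
        gcongr
        exact h1.trans hyn
    _ ≤ ‖S ^ μ‖ * (3 / 4) := by linarith
    _ ≤ ‖S ^ μ‖ * ‖(1 - y) ^ μ‖ := by gcongr

theorem t5_kind2 {S H : ℂ} {μ : ℕ} (hμ : 1 ≤ μ) (h : 4 * ‖S - H‖ ≤ ‖S‖) :
    2 * ‖(S - H) ^ μ‖ ≤ ‖S ^ μ - (S - H) ^ μ‖ := by
  have h1 : 4 * ‖(S - H) ^ μ‖ ≤ ‖S ^ μ‖ := by
    rw [norm_pow, norm_pow]
    calc 4 * ‖S - H‖ ^ μ ≤ 4 ^ μ * ‖S - H‖ ^ μ := by
          gcongr
          exact le_self_pow₀ (by norm_num) (by omega)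
      _ = (4 * ‖S - H‖) ^ μ := (mul_pow _ _ _).symm
      _ ≤ ‖S‖ ^ μ := by gcongr
  have h2 : ‖S ^ μ‖ ≤ ‖S ^ μ - (S - H) ^ μ‖ + ‖(S - H) ^ μ‖ := by
    calc ‖S ^ μ‖ = ‖(S ^ μ - (S - H) ^ μ) + (S - H) ^ μ‖ := by rw [sub_add_cancel]
      _ ≤ _ := norm_add_le _ _
  have h3 := norm_nonneg ((S - H) ^ μ)
  linarith

end

/-- **Two kinds of sheets.** -/
theorem two_kinds (e : ℕ) : ∃ c : ℝ, 0 < c ∧ ∀ (j : ℕ), 1 ≤ j → j < e → ∀ (g : Fin e → ℂ)
    (σ : ℕ → ℂ), T5Sym g σ → (∀ i, ‖g i‖ ≤ 1) → ‖σ j‖ ≤ 1 → σ j ≠ 0 →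
    (∀ l, j < l → l ≤ e → ‖σ l‖ ≤ c * ‖σ j‖ ^ (e + 1)) →
    (∃ i, 2 * ‖t5S σ j ^ (e - j) - t5F σ e j (g i)‖ ≤ ‖t5F σ e j (g i)‖) ∧
      ∃ i, 2 * ‖t5F σ e j (g i)‖ ≤ ‖t5S σ j ^ (e - j) - t5F σ e j (g i)‖ := by
  rcases Nat.eq_zero_or_pos e with he | he
  · exact ⟨1, one_pos, fun j _ hj => absurd hj (by omega)⟩
  have he1 : (1 : ℝ) ≤ e := by exact_mod_cast he
  set a : ℝ := 1 / (16 * e ^ 2 * 2 ^ (e * e)) with ha
  set b : ℝ := (1 / (8 * (e * 2 ^ e))) ^ e with hb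
  have ha0 : 0 < a := by positivity
  have hb0 : 0 < b := by positivity
  refine ⟨min a b, lt_min ha0 hb0, fun j hj1 hje g σ h hg hσ1 hσ0 hsm => ?_⟩
  set s : ℝ := ‖σ j‖ with hs
  have hs0 : 0 < s := norm_pos_iff.2 hσ0
  set μ := e - j with hμ
  have hμ1 : 1 ≤ μ := by omega
  have hμe : μ ≤ e := by omega
  have hSn : ‖t5S σ j‖ = s := t5_norm_S σ j
  have hS0 : t5S σ j ≠ 0 := by
    rw [← norm_pos_iff, hSn]
    exact hs0
  haveI : Nonempty (Fin e) := ⟨⟨0, he⟩⟩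
  constructor
  · -- first kind
    by_contra hcon
    push Not at hcon
    have h1 : ∀ i, s < 8 * e * ‖t5H σ j (g i)‖ := by
      intro i
      by_contra h2
      push Not at h2
      rw [← hSn] at h2
      have h3 := t5_kind1 hS0 hμe he h2
      exact absurd h3 (not_le.2 (hcon i))
    obtain ⟨i₀, hi₀⟩ := Finite.exists_max fun i => ‖g i‖
    set B : ℝ := ‖g i₀‖ with hB
    have hB0 : 0 ≤ B := norm_nonneg _
    have hroot := t5_root_le h hje hg (δ := a * s ^ (e + 1)) (fun l h1 h2 =>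
      (hsm l h1 h2).trans (by gcongr; exact min_le_left _ _)) i₀
    have h2 : B ^ μ * s ≤ 8 * e * (e * (a * s ^ (e + 1))) := by
      calc B ^ μ * s ≤ B ^ μ * (8 * e * ‖t5H σ j (g i₀)‖) := by
            gcongr
            exact (h1 i₀).le
        _ = 8 * e * (B ^ μ * ‖t5H σ j (g i₀)‖) := by ring
        _ = 8 * e * ‖g i₀ ^ (e - j) * t5H σ j (g i₀)‖ := by
            rw [norm_mul, norm_pow]
        _ ≤ _ := by gcongr
    have h3 : B ^ μ ≤ 8 * e ^ 2 * a * s ^ e := by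
      have h4 : B ^ μ * s ≤ (8 * e ^ 2 * a * s ^ e) * s := by
        refine h2.trans (le_of_eq ?_)
        rw [pow_succ]
        ring
      exact le_of_mul_le_mul_right h4 hs0
    have h8 : 8 * (e : ℝ) ^ 2 * a = 1 / (2 * 2 ^ (e * e)) := by
      rw [ha]
      field_simp
      norm_num
    have h2e : (1 : ℝ) ≤ 2 ^ (e * e) := one_le_pow₀ (by norm_num)
    rw [h8] at h3
    have h4 : s ≤ B ^ j * 2 ^ e := h.norm_le hi₀ hje.le
    have h5 : B ^ μ ≤ 1 := by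
      refine h3.trans ?_
      have : s ^ e ≤ 1 := pow_le_one₀ hs0.le hσ1
      calc 1 / (2 * 2 ^ (e * e)) * s ^ e ≤ 1 * 1 := by
            gcongr
            rw [div_le_one (by positivity)]
            linarith
        _ = 1 := one_mul 1
    have h6 : s ^ μ ≤ (B ^ μ) ^ j * (2 ^ e) ^ μ := by
      calc s ^ μ ≤ (B ^ j * 2 ^ e) ^ μ := by gcongr
        _ = (B ^ μ) ^ j * (2 ^ e) ^ μ := by
            rw [mul_pow, ← pow_mul B j μ, mul_comm j μ, pow_mul B μ j]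
    have h7 : s ^ μ ≤ 1 / 2 * s ^ μ := by
      calc s ^ μ ≤ (B ^ μ) ^ j * (2 ^ e) ^ μ := h6
        _ ≤ B ^ μ * 2 ^ (e * e) := by
            gcongr
            · exact pow_le_of_le_one (by positivity) h5 (by omega)
            · rw [← pow_mul]
              apply pow_le_pow_right₀ (by norm_num)
              exact Nat.mul_le_mul_left e hμe
        _ ≤ (1 / (2 * 2 ^ (e * e)) * s ^ e) * 2 ^ (e * e) := by gcongr
        _ = 1 / 2 * s ^ e := by
            field_simp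
        _ ≤ 1 / 2 * s ^ μ := by
            apply mul_le_mul_of_nonneg_left _ (by norm_num)
            exact pow_le_pow_of_le_one hs0.le hσ1 hμe
    have h9 : 0 < s ^ μ := by positivity
    linarith
  · -- second kind
    by_contra hcon
    push Not at hcon
    have h1 : ∀ i, s < 4 * ‖t5S σ j - t5H σ j (g i)‖ := by
      intro i
      by_contra h2
      push Not at h2
      rw [← hSn] at h2
      exact absurd (t5_kind2 hμ1 h2) (not_le.2 (hcon i))
    have hσ : ∀ l, l ≤ e → ‖σ l‖ ≤ 2 ^ e := by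
      intro l hl
      have := h.norm_le hg hl
      rwa [one_pow, one_mul] at this
    have h2 : ∀ i, s / (4 * (e * 2 ^ e)) ≤ ‖g i‖ := by
      intro i
      have e1 : t5S σ j - t5H σ j (g i) = -(g i * t5H1 σ j (g i)) := by
        rw [t5H_eq]
        ring
      have h3 := (h1 i).le
      rw [e1, norm_neg, norm_mul] at h3
      rw [div_le_iff₀ (by positivity)]
      calc s ≤ 4 * (‖g i‖ * ‖t5H1 σ j (g i)‖) := h3
        _ ≤ 4 * (‖g i‖ * (e * 2 ^ e)) := by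
            gcongr
            exact t5_H1_le hσ hje (hg i)
        _ = ‖g i‖ * (4 * (e * 2 ^ e)) := by ring
    have h3 : (s / (4 * (e * 2 ^ e))) ^ e ≤ ‖σ e‖ := by
      rw [h.norm_last]
      calc (s / (4 * (e * 2 ^ e))) ^ e = ∏ _i : Fin e, s / (4 * (e * 2 ^ e)) := by
            rw [Finset.prod_const, Finset.card_univ, Fintype.card_fin]
        _ ≤ ∏ i, ‖g i‖ := by
            apply Finset.prod_le_prod (fun _ _ => by positivity) fun i _ => h2 i
    have h4 : ‖σ e‖ ≤ b * s ^ e := by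
      calc ‖σ e‖ ≤ min a b * s ^ (e + 1) := hsm e hje le_rfl
        _ ≤ b * s ^ e := by
            gcongr ?_ * ?_
            · exact min_le_right _ _
            · exact pow_le_pow_of_le_one hs0.le hσ1 (by omega)
    have h5 : b * s ^ e = (s / (8 * (e * 2 ^ e))) ^ e := by
      rw [hb, ← mul_pow]
      congr 1
      ring
    have h6 : (s / (8 * (e * 2 ^ e))) ^ e < (s / (4 * (e * 2 ^ e))) ^ e := by
      apply pow_lt_pow_left₀ _ (by positivity) (by omega)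
      apply div_lt_div_of_pos_left hs0 (by positivity)
      have : (0 : ℝ) < e * 2 ^ e := by positivity
      linarith
    linarith

end Pool.Agent.Odp2
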